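import Pool.Agent.N180.CfD
import Pool.Agent.N180.CfH

/-!
# Tensors and changes of the basis: equivariance of the tensor operations
-/

set_option autoImplicit false
set_option linter.unusedSectionVars false

open Finset Function Pool.Agent.R908.Km

namespace Pool.Agent.Run7.h573.GIT

section Equi

variable {R : Type*} [CommRing R] {ι : Type*} [Fintype ι] [DecidableEq ι] {a b : ℕ}

lemma prod_mm_ext (k k' : Matrix ι ι R) (p q p' q' : ι) (I J : Fin a ⊕ Fin a → ι) :
    (∏ s, mm k k' s (ext p q I s) (ext p' q' J s)) =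
      k p p' * k' q' q * ∏ s, mm k k' s (I s) (J s) := by
  rw [Fintype.prod_sum_type, Fin.prod_univ_succ, Fin.prod_univ_succ, Fintype.prod_sum_type]
  simp only [ext_inl_zero, ext_inr_zero, ext_inl_succ, ext_inr_succ, mm, Sum.elim_inl,
    Sum.elim_inr, Matrix.transpose_apply]
  ring

/-- side preserving permutations -/
lemma act_prm (k k' : Matrix ι ι R) (π : Equiv.Perm (Fin a ⊕ Fin a))
    (hπ : ∀ s, (π s).isLeft = s.isLeft) (z : (Fin a ⊕ Fin a → ι) → R) :
    act (mm k k') (prm π z) = prm π (act (mm k k') z) := by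
  funext I
  rw [prm, act, act]
  rw [← Equiv.sum_comp (Equiv.arrowCongr π (Equiv.refl ι))]
  refine Finset.sum_congr rfl fun J _ => ?_
  have h1 : (Equiv.arrowCongr π (Equiv.refl ι)) J ∘ π = J := by
    funext s
    simp [Equiv.arrowCongr]
  rw [prm, h1]
  congr 1
  rw [← Equiv.prod_comp π]
  refine Finset.prod_congr rfl fun s _ => ?_
  have h2 : (Equiv.arrowCongr π (Equiv.refl ι)) J (π s) = J s := by
    simp [Equiv.arrowCongr]
  rw [h2]
  have h3 : (mm k k' (π s) : Matrix ι ι R) = mm k k' s := by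
    have h4 := hπ s
    rcases hs : π s with t | t
    · rw [hs] at h4
      rcases s with s | s
      · rfl
      · exact absurd h4 (by simp)
    · rw [hs] at h4
      rcases s with s | s
      · exact absurd h4 (by simp)
      · rfl
  rw [h3]
  rfl

/-- contraction -/
lemma act_cz {k k' : Matrix ι ι R} (h : k' * k = 1)
    (z : (Fin (a + 1) ⊕ Fin (a + 1) → ι) → R) :
    act (mm k k') (cz z) = cz (act (mm k k') z) := by
  funext I
  have h1 : ∀ p, act (mm k k') z (ext p p I) = ∑ p', ∑ q', ∑ J : Fin a ⊕ Fin a → ι,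
      (k' q' p * k p p') * ((∏ s, mm k k' s (I s) (J s)) * z (ext p' q' J)) := by
    intro p
    rw [act, sum_ext]
    refine Finset.sum_congr rfl fun p' _ => Finset.sum_congr rfl fun q' _ =>
      Finset.sum_congr rfl fun J _ => ?_
    rw [prod_mm_ext]
    ring
  rw [cz, Finset.sum_congr rfl fun p _ => h1 p, Finset.sum_comm]
  have h2 : ∀ p', ∑ p, ∑ q', ∑ J : Fin a ⊕ Fin a → ι,
      (k' q' p * k p p') * ((∏ s, mm k k' s (I s) (J s)) * z (ext p' q' J)) =
      ∑ J : Fin a ⊕ Fin a → ι, (∏ s, mm k k' s (I s) (J s)) * z (ext p' p' J) := by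
    intro p'
    rw [Finset.sum_comm]
    have h3 : ∀ q', ∑ p, ∑ J : Fin a ⊕ Fin a → ι,
        (k' q' p * k p p') * ((∏ s, mm k k' s (I s) (J s)) * z (ext p' q' J)) =
        (if q' = p' then 1 else 0) *
          ∑ J : Fin a ⊕ Fin a → ι, (∏ s, mm k k' s (I s) (J s)) * z (ext p' q' J) := by
      intro q'
      have h4 : ∑ p, k' q' p * k p p' = if q' = p' then 1 else 0 := by
        rw [← Matrix.mul_apply, h, Matrix.one_apply]
      rw [← h4, Finset.sum_mul]
      refine Finset.sum_congr rfl fun p _ => ?_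
      rw [Finset.mul_sum]
    rw [Finset.sum_congr rfl fun q' _ => h3 q']
    simp
  rw [Finset.sum_congr rfl fun p' _ => h2 p', act, Finset.sum_comm]
  refine Finset.sum_congr rfl fun J _ => ?_
  rw [cz, Finset.mul_sum]

/-- insertion -/
lemma act_ins {k k' : Matrix ι ι R} (h : k * k' = 1) (z : (Fin a ⊕ Fin a → ι) → R) :
    act (mm k k') (ins z) = ins (act (mm k k') z) := by
  funext L
  obtain ⟨p, q, I, rfl⟩ : ∃ p q I, L = ext p q I := ⟨_, _, _, (ext_rest L).symm⟩
  have hr : Pool.Agent.R908.Km.rest (ext p q I) = I := by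
    funext s
    rcases s with s | s <;> rfl
  rw [ins, ext_inl_zero, ext_inr_zero, hr, act, sum_ext]
  have h1 : ∀ p' q' (J : Fin a ⊕ Fin a → ι),
      (∏ s, mm k k' s (ext p q I s) (ext p' q' J s)) * ins z (ext p' q' J) =
      if p' = q' then (k p p' * k' q' q) * ((∏ s, mm k k' s (I s) (J s)) * z J) else 0 := by
    intro p' q' J
    have hr' : Pool.Agent.R908.Km.rest (ext p' q' J) = J := by
      funext s
      rcases s with s | s <;> rfl
    rw [prod_mm_ext, ins, ext_inl_zero, ext_inr_zero, hr']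
    by_cases h2 : p' = q'
    · rw [if_pos h2, if_pos h2]
      ring
    · rw [if_neg h2, if_neg h2, mul_zero]
  simp only [h1]
  have h2 : ∀ p', ∑ q', ∑ J : Fin a ⊕ Fin a → ι,
      (if p' = q' then (k p p' * k' q' q) * ((∏ s, mm k k' s (I s) (J s)) * z J) else 0) =
      (k p p' * k' p' q) * act (mm k k') z I := by
    intro p'
    rw [Finset.sum_eq_single p']
    · simp only [if_true]
      rw [← Finset.mul_sum]
      rfl
    · intro q' _ hq
      apply Finset.sum_eq_zero
      intro J _
      rw [if_neg (Ne.symm hq)]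
    · intro h0
      exact absurd (Finset.mem_univ _) h0
  rw [Finset.sum_congr rfl fun p' _ => h2 p', ← Finset.sum_mul, ← Matrix.mul_apply, h,
    Matrix.one_apply]
  by_cases hpq : p = q
  · rw [if_pos hpq, if_pos hpq, one_mul]
  · rw [if_neg hpq, if_neg hpq, zero_mul]

/-- products -/
lemma act_tmul (k k' : Matrix ι ι R) (z : (Fin a ⊕ Fin a → ι) → R)
    (w : (Fin b ⊕ Fin b → ι) → R) :
    act (mm k k') (tmul z w) = tmul (act (mm k k') z) (act (mm k k') w) := by
  funext L
  obtain ⟨I, J, rfl⟩ : ∃ I J, L = app I J := ⟨_, _, (app_surj L).symm⟩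
  rw [tmul_app, act, act, act, sum_app, Finset.sum_mul_sum]
  refine Finset.sum_congr rfl fun I' _ => Finset.sum_congr rfl fun J' _ => ?_
  have h1 : ∀ (c : ℕ) (s : Fin c ⊕ Fin c) (i j : ι), mm k k' s i j =
      (Sum.elim (fun _ => (fun i j => k i j)) (fun _ => (fun i j => k' j i)) s :
        ι → ι → R) i j := by
    rintro c (s | s) i j <;> rfl
  have h2 := prod_app (fun i j => k i j) (fun i j => k' j i) I I' J J'
  rw [Finset.prod_congr rfl fun s _ => h1 a s (I s) (I' s),
    Finset.prod_congr rfl fun s _ => h1 b s (J s) (J' s),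
    Finset.prod_congr rfl fun s _ => h1 (a + b) s (app I J s) (app I' J' s), h2, tmul_app]
  ring

lemma act_add' {S : Type*} [Fintype S] [DecidableEq S] (M : S → Matrix ι ι R)
    (z z' : (S → ι) → R) : act M (z + z') = act M z + act M z' := by
  funext I
  simp only [act, Pi.add_apply, mul_add, Finset.sum_add_distrib]

lemma act_smul' {S : Type*} [Fintype S] [DecidableEq S] (M : S → Matrix ι ι R) (c : R)
    (z : (S → ι) → R) : act M (c • z) = c • act M z := by
  funext I
  simp only [act, Pi.smul_apply, smul_eq_mul, Finset.mul_sum]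
  exact Finset.sum_congr rfl fun J _ => by ring

lemma act_zero' {S : Type*} [Fintype S] [DecidableEq S] (M : S → Matrix ι ι R) :
    act M (0 : (S → ι) → R) = 0 := by
  funext I
  simp [act]

end Equi

section Wt

variable {ι : Type*} [Fintype ι] [DecidableEq ι] {a b : ℕ}

lemma wt_comp (w : ι → ℝ) (π : Equiv.Perm (Fin a ⊕ Fin a))
    (hπ : ∀ s, (π s).isLeft = s.isLeft) (I : Fin a ⊕ Fin a → ι) : wt w (I ∘ π) = wt w I := by
  have key : ∀ I : Fin a ⊕ Fin a → ι,
      wt w I = ∑ s, (if s.isLeft then w (I s) else - w (I s)) := by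
    intro I
    rw [Fintype.sum_sum_type, wt]
    simp [sub_eq_add_neg]
  rw [key, key]
  conv_rhs => rw [← Equiv.sum_comp π]
  refine Finset.sum_congr rfl fun s _ => ?_
  rw [hπ, Function.comp_apply]

lemma wt_ext (w : ι → ℝ) (q : ι) (I : Fin a ⊕ Fin a → ι) : wt w (ext q q I) = wt w I := by
  rw [wt, Fin.sum_univ_succ, Fin.sum_univ_succ, ext_inl_zero, ext_inr_zero, wt]
  simp only [ext_inl_succ, ext_inr_succ]
  ring

lemma wt_app (w : ι → ℝ) (I : Fin a ⊕ Fin a → ι) (J : Fin b ⊕ Fin b → ι) :
    wt w (app I J) = wt w I + wt w J := by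
  simp only [wt, Fin.sum_univ_add, app, Sum.elim_inl, Sum.elim_inr, Fin.append_left,
    Fin.append_right]
  ring

end Wt

end Pool.Agent.Run7.h573.GIT
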