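import Pool.Agent.Run7.h573.GIT.Gr

/-!
# The balanced tensor of a covariant tensor
-/

set_option autoImplicit false
set_option linter.unusedSectionVars false

open Finset Function Pool.Agent.R908.Km Pool.Agent.N180.Cf

namespace Pool.Agent.Run7.h573.GIT

section Blk

variable {K : Type*} [Field K] {ι : Type*} [Fintype ι] [DecidableEq ι]

/-- a multilinear form on transformed vectors -/
lemma sum_ml {V : Type*} [AddCommGroup V] [Module K V] {S : Type*} [Fintype S] [DecidableEq S]
    (T : MultilinearMap K (fun _ : S => V) K) (E : ι → V) (M : Matrix ι ι K) (I : S → ι) :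
    ∑ J : S → ι, (∏ s, M (I s) (J s)) * T (fun s => E (J s)) =
      T (fun s => ∑ j, M (I s) j • E j) := by
  rw [T.map_sum]
  refine Finset.sum_congr rfl fun J _ => ?_
  rw [T.map_smul_univ, smul_eq_mul]

/-- blocks -/
lemma sum_blocks {A B C : Type*} [Fintype A] [Fintype B] [Fintype C] [DecidableEq A]
    [DecidableEq B] [DecidableEq C] (e : A × B ≃ C) (M : Matrix ι ι K) (F : A → (B → ι) → K)
    (I : C → ι) :
    ∑ J : C → ι, (∏ c, M (I c) (J c)) * ∏ q, F q (fun r => J (e (q, r))) =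
      ∏ q, ∑ J : B → ι, (∏ r, M (I (e (q, r))) (J r)) * F q J := by
  rw [Fintype.prod_sum]
  let Φ : (C → ι) ≃ (A → B → ι) := (Equiv.arrowCongr e.symm (Equiv.refl ι)).trans
    (Equiv.curry A B ι)
  rw [← Equiv.sum_comp Φ]
  refine Finset.sum_congr rfl fun J _ => ?_
  rw [Finset.prod_mul_distrib]
  congr 1
  rw [← Fintype.prod_prod_type' (fun q r => M (I (e (q, r))) (Φ J q r)), ← Equiv.prod_comp e]
  rfl

/-- separate slots -/
lemma act_sep {a : ℕ} (k k' : Matrix ι ι K) (F G : (Fin a → ι) → K) (I : Fin a ⊕ Fin a → ι) :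
    act (mm k k') (fun I => F (fun s => I (Sum.inl s)) * G (fun s => I (Sum.inr s))) I =
      (∑ J : Fin a → ι, (∏ s, k (I (Sum.inl s)) (J s)) * F J) *
        ∑ J : Fin a → ι, (∏ s, k'.transpose (I (Sum.inr s)) (J s)) * G J := by
  rw [act, Finset.sum_mul_sum]
  rw [← Equiv.sum_comp (Equiv.sumArrowEquivProdArrow (Fin a) (Fin a) ι).symm,
    Fintype.sum_prod_type]
  refine Finset.sum_congr rfl fun J _ => Finset.sum_congr rfl fun J' _ => ?_
  rw [Fintype.prod_sum_type]
  simp only [mm, Sum.elim_inl, Sum.elim_inr, Equiv.sumArrowEquivProdArrow_symm_apply_inl,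
    Equiv.sumArrowEquivProdArrow_symm_apply_inr]
  ring

end Blk

section Eps

variable {K : Type*} [Field K] {n : ℕ}

/-- the determinant of the rows -/
def eps (J : Fin n → Fin n) : K := ((1 : Matrix (Fin n) (Fin n) K).submatrix J id).det

lemma sum_eps (M : Matrix (Fin n) (Fin n) K) (I : Fin n → Fin n) :
    ∑ J : Fin n → Fin n, (∏ s, M (I s) (J s)) * (eps J : K) = M.det * eps I := by
  have h1 := sum_ml (K := K) (Matrix.detRowAlternating (n := Fin n) (R := K)).toMultilinearMap
    (fun j => (Pi.single j 1 : Fin n → K)) M I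
  have h2 : ∀ J : Fin n → Fin n, (Matrix.detRowAlternating (n := Fin n)
      (R := K)).toMultilinearMap (fun s => (Pi.single (J s) 1 : Fin n → K)) = eps J := by
    intro J
    change Matrix.det _ = _
    rw [eps]
    congr 1
    ext r c
    rw [Matrix.submatrix_apply, Matrix.one_apply, Pi.single_apply, id]
    simp only [eq_comm]
  rw [Finset.sum_congr rfl fun J _ => by rw [h2 J]] at h1
  rw [h1]
  have h3 : (fun s => ∑ j, M (I s) j • (Pi.single j 1 : Fin n → K)) =
      (1 : Matrix (Fin n) (Fin n) K).submatrix I id * M := by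
    funext s c
    rw [Finset.sum_apply, Matrix.mul_apply]
    simp only [Pi.smul_apply, Pi.single_apply, smul_eq_mul, Matrix.submatrix_apply,
      Matrix.one_apply, id]
    simp
  change Matrix.det _ = _
  rw [h3, Matrix.det_mul, mul_comm]
  rfl

lemma eps_id : (eps (id : Fin n → Fin n) : K) = 1 := by
  rw [eps, Matrix.submatrix_id_id, Matrix.det_one]

lemma eps_inj {J : Fin n → Fin n} (h : (eps J : K) ≠ 0) : Function.Injective J := by
  intro i j hij
  by_contra hne
  apply h
  rw [eps]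
  refine Matrix.det_zero_of_row_eq hne ?_
  funext c
  rw [Matrix.submatrix_apply, Matrix.submatrix_apply, hij]

/-- the blocks -/
def eb (m n : ℕ) : Fin m × Fin n ≃ Fin (m * n) := finProdFinEquiv

/-- the balanced tensor of the covariant tensor `t` of degree `m` -/
def zt {m : ℕ} (t : (Fin m → Fin n) → K) : (Fin (m * n) ⊕ Fin (m * n) → Fin n) → K :=
  fun I => (∏ q, eps (fun r => I (Sum.inl (eb m n (q, r))))) *
    ∏ p, t (fun s => I (Sum.inr (eb m n (s, p))))

lemma act_zt {V : Type*} [AddCommGroup V] [Module K V] {m : ℕ}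
    (T : MultilinearMap K (fun _ : Fin m => V) K) (E : Fin n → V)
    (k k' : Matrix (Fin n) (Fin n) K) (I : Fin (m * n) ⊕ Fin (m * n) → Fin n) :
    act (mm k k') (zt fun J => T fun s => E (J s)) I =
      k.det ^ m * (∏ q, eps (fun r => I (Sum.inl (eb m n (q, r))))) *
        ∏ p, T (fun s => ∑ j, k' j (I (Sum.inr (eb m n (s, p)))) • E j) := by
  have h1 := act_sep k k' (fun J : Fin (m * n) → Fin n => ∏ q, (eps (fun r =>
    J (eb m n (q, r))) : K)) (fun J => ∏ p, T (fun s => E (J (eb m n (s, p))))) I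
  have h2 := sum_blocks (eb m n) k (fun _ J => (eps J : K)) (fun s => I (Sum.inl s))
  have h3 := sum_blocks ((Equiv.prodComm (Fin n) (Fin m)).trans (eb m n)) k'.transpose
    (fun _ J => T fun s => E (J s)) (fun s => I (Sum.inr s))
  have h4 : act (mm k k') (zt fun J => T fun s => E (J s)) I =
      act (mm k k') (fun I => (fun J : Fin (m * n) → Fin n => ∏ q, (eps (fun r =>
        J (eb m n (q, r))) : K)) (fun s => I (Sum.inl s)) * (fun J => ∏ p, T (fun s =>
          E (J (eb m n (s, p))))) (fun s => I (Sum.inr s))) I := rfl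
  rw [h4, h1]
  congr 1
  · refine h2.trans ?_
    rw [Finset.prod_congr rfl fun q _ => sum_eps k _, Finset.prod_mul_distrib,
      Finset.prod_const, Finset.card_univ, Fintype.card_fin]
  · refine h3.trans ?_
    refine Finset.prod_congr rfl fun p _ => ?_
    rw [sum_ml T E]
    rfl

/-- sums over the slots -/
lemma wt_blocks (m : ℕ) (w : Fin n → ℝ) (I : Fin (m * n) ⊕ Fin (m * n) → Fin n) :
    wt w I = ∑ q, ∑ r, w (I (Sum.inl (eb m n (q, r)))) -
      ∑ p, ∑ s, w (I (Sum.inr (eb m n (s, p)))) := by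
  rw [wt, ← Equiv.sum_comp (eb m n), Fintype.sum_prod_type,
    ← Equiv.sum_comp ((Equiv.prodComm (Fin n) (Fin m)).trans (eb m n)), Fintype.sum_prod_type]
  rfl

end Eps

section Ins

variable {K : Type*} [Field K] {ι : Type*} [Fintype ι] [DecidableEq ι] [Nonempty ι]

/-- raising the degree -/
lemma exists_ins {N : ∀ a : ℕ, Submodule K ((Fin a ⊕ Fin a → ι) → K)}
    (hN : ∀ (a : ℕ) (z : (Fin a ⊕ Fin a → ι) → K), z ∈ N a → ins z ∈ N (a + 1))
    {b : ℕ} {z : (Fin b ⊕ Fin b → ι) → K} (hz : z ∈ N b) (c : ℕ) :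
    ∃ z' ∈ N (b + c), ∀ (k k' : Matrix ι ι K), k * k' = 1 → ∀ I : Fin b ⊕ Fin b → ι,
      ∃ I' : Fin (b + c) ⊕ Fin (b + c) → ι, act (mm k k') z' I' = act (mm k k') z I ∧
        ∀ w : ι → ℝ, wt w I' = wt w I := by
  induction c with
  | zero => exact ⟨z, hz, fun k k' _ I => ⟨I, rfl, fun _ => rfl⟩⟩
  | succ c ih =>
    obtain ⟨z', hz', h⟩ := ih
    refine ⟨ins z', hN _ _ hz', fun k k' hk I => ?_⟩
    obtain ⟨I', h1, h2⟩ := h k k' hk I
    obtain ⟨i⟩ := ‹Nonempty ι›
    refine ⟨ext i i I', ?_, fun w => ?_⟩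
    · rw [act_ins hk, ins, ext_inl_zero, ext_inr_zero, if_pos rfl, ← h1]
      congr 1
      funext s
      rcases s with s | s <;> rfl
    · rw [wt_ext, h2]

end Ins

end Pool.Agent.Run7.h573.GIT
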