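import Pool.Agent.Run7.h573.GIT.TDefs

/-!
# Products of determinants: definitions
-/

set_option autoImplicit false
set_option linter.overlappingInstances false
set_option linter.unusedSectionVars false

open FF Finset Function

namespace Pool.Agent.Run7.h573.GIT

section

variable {k K : Type} [Field k] [Field K] [Algebra k K]

/-- The covariant tensor `T` with the set `κ` of arguments (a `K`-multilinear form on the rational
vector fields) is a tensor of the orbifold with the multiplicities `δ v` on the variety of dimension
`n`: along each prime divisor `v` over the variety, if the vector fields `D j` are regular along `v`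
for `j ∈ S` and logarithmic along `v` for `j ∉ S`, then `T D` has order at least `- |S| δ v`. -/
def OrbTenS (n : ℕ) (δ : Place k K → ℝ) {κ : Type}
    (T : MultilinearMap K (fun _ : κ => Derivation k K K) K) : Prop :=
  ∀ v : Place k K, Pool.Agent.W619.PQ.IsDivisorial v n →
    ∀ (S : Finset κ) (D : κ → Derivation k K K),
      (∀ j ∈ S, ∀ f, v.Reg f → v.Reg (D j f)) → (∀ j, j ∉ S → ∀ f, v.Reg (D j f / f)) →
      T D = 0 ∨ -(S.card * δ v) ≤ (v.ord (T D) : ℝ)

/-- The product of `a` and of the determinants of the 1-forms `β x i` (`i ∈ R x`) on the vector fields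
`D x r` (`r ∈ R x`), for all `x ∈ X`. -/
def detP {X : Type} [Fintype X] [DecidableEq X] {R : X → Type} [∀ x, Fintype (R x)]
    [∀ x, DecidableEq (R x)] (β : ∀ x, R x → (Derivation k K K →ₗ[K] K)) (a : K) :
    MultilinearMap K (fun _ : (Σ x, R x) => Derivation k K K) K where
  toFun D := a * ∏ x, (Matrix.of fun r i => β x i (D ⟨x, r⟩)).det
  map_update_add' := by
    intro _ D s x x'
    obtain ⟨q, r⟩ := s
    have h1 : ∀ x : Derivation k K K, ∏ q', (Matrix.of fun r' i => β q' i
        (update D ⟨q, r⟩ x ⟨q', r'⟩)).det = ((Matrix.of fun r' i => β q i (D ⟨q, r'⟩)).updateRow r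
          (fun i => β q i x)).det *
          ∏ q' ∈ Finset.univ.erase q, (Matrix.of fun r' i => β q' i (D ⟨q', r'⟩)).det := by
      intro x
      rw [← Finset.mul_prod_erase Finset.univ _ (Finset.mem_univ q)]
      congr 1
      · congr 1
        ext i j
        rw [Matrix.updateRow_apply, Matrix.of_apply]
        by_cases h : i = r
        · rw [if_pos h, h, update_self]
        · rw [if_neg h, update_of_ne]
          · rfl
          · intro h2
            exact h (by simpa using h2)
      · refine Finset.prod_congr rfl fun q' hq' => ?_
        congr 2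
        funext r' i
        rw [update_of_ne]
        intro h2
        exact (Finset.ne_of_mem_erase hq') (congrArg Sigma.fst h2)
    rw [h1, h1, h1]
    have h2 : (fun i => β q i (x + x')) = (fun i => β q i x) + fun i => β q i x' := by
      funext i
      exact map_add _ _ _
    rw [h2, Matrix.det_updateRow_add]
    ring
  map_update_smul' := by
    intro _ D s c x
    obtain ⟨q, r⟩ := s
    have h1 : ∀ x : Derivation k K K, ∏ q', (Matrix.of fun r' i => β q' i
        (update D ⟨q, r⟩ x ⟨q', r'⟩)).det = ((Matrix.of fun r' i => β q i (D ⟨q, r'⟩)).updateRow r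
          (fun i => β q i x)).det *
          ∏ q' ∈ Finset.univ.erase q, (Matrix.of fun r' i => β q' i (D ⟨q', r'⟩)).det := by
      intro x
      rw [← Finset.mul_prod_erase Finset.univ _ (Finset.mem_univ q)]
      congr 1
      · congr 1
        ext i j
        rw [Matrix.updateRow_apply, Matrix.of_apply]
        by_cases h : i = r
        · rw [if_pos h, h, update_self]
        · rw [if_neg h, update_of_ne]
          · rfl
          · intro h2
            exact h (by simpa using h2)
      · refine Finset.prod_congr rfl fun q' hq' => ?_
        congr 2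
        funext r' i
        rw [update_of_ne]
        intro h2
        exact (Finset.ne_of_mem_erase hq') (congrArg Sigma.fst h2)
    rw [h1, h1]
    have h2 : (fun i => β q i (c • x)) = c • fun i => β q i x := by
      funext i
      exact map_smul _ _ _
    rw [h2, Matrix.det_updateRow_smul, smul_eq_mul]
    ring

lemma detP_apply {X : Type} [Fintype X] [DecidableEq X] {R : X → Type} [∀ x, Fintype (R x)]
    [∀ x, DecidableEq (R x)] (β : ∀ x, R x → (Derivation k K K →ₗ[K] K)) (a : K)
    (D : (Σ x, R x) → Derivation k K K) :
    detP β a D = a * ∏ x, (Matrix.of fun r i => β x i (D ⟨x, r⟩)).det := rfl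

/-- The rational tensor `a ∏ (α_i ∧ ... ∧ α_j) ^ (⊗ c t)`: the product over all `t` of the `c t`-th
tensor powers of the determinants (exterior products) of those members `α i` of the basis `α` of the
rational 1-forms for which `w i ≤ w t`. -/
noncomputable def flagTen {n : ℕ} (α : Fin n → (Derivation k K K →ₗ[K] K)) (w : Fin n → ℝ)
    (c : Fin n → ℕ) (a : K) :
    MultilinearMap K (fun _ : (Σ x : (Σ t : Fin n, Fin (c t)), {i : Fin n // w i ≤ w x.1}) =>
      Derivation k K K) K := by
  classical
  exact detP (fun (x : Σ t : Fin n, Fin (c t)) (i : {i : Fin n // w i ≤ w x.1}) => α i) a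

end

end Pool.Agent.Run7.h573.GIT
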