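import Pool.Agent.Run7.h573.GIT.Main

/-!
# Pluricanonical forms give tensors of weight zero
-/

set_option autoImplicit false
set_option linter.overlappingInstances false
set_option linter.unusedSectionVars false
set_option maxHeartbeats 1000000

open FF Finset Function Pool.Agent.W619.PQ
  Pool.Agent.W619.TW Pool.Agent.W603.LV Pool.Agent.W824.PG
  Pool.Agent.Y174 Pool.Agent.Y174.OB

namespace Pool.Agent.Run7.h573.GIT

section

variable {k K : Type} [Field k] [CharZero k] [Field K] [Algebra k K] {n : ℕ}

/-- the product of the determinants of the blocks -/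
def dT (y : Fin n → K) (c : K) (m : ℕ) :
    MultilinearMap K (fun _ : Fin (m * n) => Derivation k K K) K where
  toFun D := c * ∏ q, (gm y fun r => D (eb m n (q, r))).det
  map_update_add' := by
    intro _ D s x x'
    obtain ⟨⟨q, r⟩, rfl⟩ := (eb m n).surjective s
    have h1 : ∀ x : Derivation k K K, ∏ q', (gm y fun r' => update D (eb m n (q, r)) x
        (eb m n (q', r'))).det = ((gm y fun r' => D (eb m n (q, r'))).updateRow r
          (fun j => x (y j))).det *
          ∏ q' ∈ Finset.univ.erase q, (gm y fun r' => D (eb m n (q', r'))).det := by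
      intro x
      rw [← Finset.mul_prod_erase Finset.univ _ (Finset.mem_univ q)]
      congr 1
      · congr 1
        ext i j
        rw [Matrix.updateRow_apply, gm, Matrix.of_apply]
        by_cases h : i = r
        · rw [if_pos h, h, update_self]
        · rw [if_neg h, update_of_ne]
          · rfl
          · intro h2
            exact h (by have h3 := (eb m n).injective h2; exact (Prod.mk.inj h3).2)
      · refine Finset.prod_congr rfl fun q' hq' => ?_
        congr 2
        funext r'
        rw [update_of_ne]
        intro h2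
        exact (Finset.ne_of_mem_erase hq') (Prod.mk.inj ((eb m n).injective h2)).1
    rw [h1, h1, h1]
    have h2 : (fun j => (x + x') (y j)) = (fun j => x (y j)) + fun j => x' (y j) := rfl
    rw [h2, Matrix.det_updateRow_add]
    ring
  map_update_smul' := by
    intro _ D s a x
    obtain ⟨⟨q, r⟩, rfl⟩ := (eb m n).surjective s
    have h1 : ∀ x : Derivation k K K, ∏ q', (gm y fun r' => update D (eb m n (q, r)) x
        (eb m n (q', r'))).det = ((gm y fun r' => D (eb m n (q, r'))).updateRow r
          (fun j => x (y j))).det *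
          ∏ q' ∈ Finset.univ.erase q, (gm y fun r' => D (eb m n (q', r'))).det := by
      intro x
      rw [← Finset.mul_prod_erase Finset.univ _ (Finset.mem_univ q)]
      congr 1
      · congr 1
        ext i j
        rw [Matrix.updateRow_apply, gm, Matrix.of_apply]
        by_cases h : i = r
        · rw [if_pos h, h, update_self]
        · rw [if_neg h, update_of_ne]
          · rfl
          · intro h2
            exact h (by have h3 := (eb m n).injective h2; exact (Prod.mk.inj h3).2)
      · refine Finset.prod_congr rfl fun q' hq' => ?_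
        congr 2
        funext r'
        rw [update_of_ne]
        intro h2
        exact (Finset.ne_of_mem_erase hq') (Prod.mk.inj ((eb m n).injective h2)).1
    rw [h1, h1]
    have h2 : (fun j => (a • x) (y j)) = a • fun j => x (y j) := rfl
    rw [h2, Matrix.det_updateRow_smul, smul_eq_mul]
    ring

lemma dT_apply (y : Fin n → K) (c : K) (m : ℕ) (D : Fin (m * n) → Derivation k K K) :
    dT y c m D = c * ∏ q, (gm y fun r => D (eb m n (q, r))).det := rfl

/-- the order of the product of the determinants -/
lemma dT_orb (hess : Algebra.EssFiniteType k K) (hn : Algebra.trdeg k K = n)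
    {y : Fin n → K} {E : Fin n → Derivation k K K}
    (hE : ∀ i j, E i (y j) = if i = j then 1 else 0)
    (hexp : ∀ D : Derivation k K K, D = ∑ b, D (y b) • E b) {δ : Place k K → ℝ}
    (h0 : ∀ v, 0 ≤ δ v) (h1 : ∀ v, δ v ≤ 1) {m : ℕ} {ω : (Fin n → Derivation k K K) → K}
    (hω : PairSec k K n δ {1} m 0 ω) : OrbTen n δ (dT y (ω E) m) := by
  classical
  intro v hv S D hS hS'
  obtain ⟨F, i0, y', h, hF, hh, hyr, hyi, hexpF⟩ := exists_aframe hess hn hE hv
  -- the value on the frame
  have h2 : ω F = (gm y F).det ^ m * ω E := by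
    have h3 : F = fun i => ∑ j, (gm y F) i j • E j := by
      funext i
      exact hexp (F i)
    conv_lhs => rw [h3]
    exact hω.1 _ _
  have h3 : GeR v (-(m * δ v)) (ω F) := by
    rcases hω.2 v hv F hF.1 with h4 | ⟨s, hs, -, h4⟩
    · exact Or.inl h4
    · right
      refine le_trans (le_of_eq ?_) h4
      simp
  have h4 : ∀ q, (gm y fun r => D (eb m n (q, r))).det =
      (gm y' fun r => D (eb m n (q, r))).det * (gm y F).det := by
    intro q
    rw [← Matrix.det_mul, ← gm_lin]
    congr 2
    funext r
    exact hexpF _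
  have h5 : dT y (ω E) m D = ω F * ∏ q, (gm y' fun r => D (eb m n (q, r))).det := by
    rw [dT_apply, Finset.prod_congr rfl fun q _ => h4 q, Finset.prod_mul_distrib, h2]
    simp only [Finset.prod_const, Finset.card_univ, Fintype.card_fin]
    ring
  -- one block
  have h6 : ∀ q : Fin m, GeR v (if ∃ r, eb m n (q, r) ∈ S then (0 : ℝ) else δ v)
      (gm y' fun r => D (eb m n (q, r))).det := by
    intro q
    have hreg : ∀ j, ∀ f, v.Reg f → v.Reg (D j f) := by
      intro j
      by_cases hj : j ∈ S
      · exact hS j hj
      · exact Lg.pres (hS' j hj)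
    split_ifs with hq
    · have h7 : Ge v 0 (gm y' fun r => D (eb m n (q, r))).det :=
        ge_det v _ fun i j => hreg _ _ (hyr j)
      have h8 := Ge.toR h7
      rwa [Int.cast_zero] at h8
    · have h7 := geR_det (w := v) (gm y' fun r => D (eb m n (q, r))) (fun _ => 0)
        (fun j => if j = i0 then 1 else 0) (fun i j => by
          rw [zero_add]
          by_cases hj : j = i0
          · rw [if_pos hj, hj]
            have h8 : eb m n (q, i) ∉ S := fun h9 => hq ⟨i, h9⟩
            have h9 : Ge v 0 (D (eb m n (q, i)) (y' i0) / y' i0) := hS' _ h8 _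
            have hy0 : y' i0 ≠ 0 := ne_zero_of_ord hyi
            have h10 : Ge v 1 (y' i0) := Or.inr hyi.ge
            have h11 := h9.mul h10
            rw [div_mul_cancel₀ _ hy0, zero_add] at h11
            have h12 := Ge.toR h11
            rwa [Int.cast_one] at h12
          · rw [if_neg hj]
            have h8 : Ge v 0 (D (eb m n (q, i)) (y' j)) := hreg _ _ (hyr j)
            have h9 := Ge.toR h8
            rwa [Int.cast_zero] at h9)
      rw [Finset.sum_ite_eq' Finset.univ i0, if_pos (Finset.mem_univ _)] at h7
      refine h7.mono ?_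
      simpa using h1 v
  have h7 := geR_prod (w := v) Finset.univ _ _ (fun q _ => h6 q)
  have h8 := h3.mul h7
  rw [← h5] at h8
  refine GeR.mono h8 ?_
  -- the count
  have h9 : ∑ q : Fin m, (if ∃ r, eb m n (q, r) ∈ S then (0 : ℝ) else δ v) =
      m * δ v - (Finset.univ.filter fun q : Fin m => ∃ r, eb m n (q, r) ∈ S).card * δ v := by
    have h10 : ∀ q : Fin m, (if ∃ r, eb m n (q, r) ∈ S then (0 : ℝ) else δ v) =
        δ v - (if ∃ r, eb m n (q, r) ∈ S then 1 else 0) * δ v := by
      intro q
      split_ifs <;> ring
    rw [Finset.sum_congr rfl fun q _ => h10 q, Finset.sum_sub_distrib, ← Finset.sum_mul,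
      Finset.card_filter]
    push_cast
    simp
  have h10 : (Finset.univ.filter fun q : Fin m => ∃ r, eb m n (q, r) ∈ S).card ≤ S.card := by
    have : Nonempty (Fin n) := ⟨i0⟩
    choose! g hg using fun (q : Fin m) (hq : ∃ r, eb m n (q, r) ∈ S) => hq
    refine Finset.card_le_card_of_injOn (fun q => eb m n (q, g q)) ?_ ?_
    · intro q hq
      exact hg q (Finset.mem_filter.1 hq).2
    · intro q _ q' _ hqq
      exact (Prod.mk.inj ((eb m n).injective hqq)).1
  have h11 : ((Finset.univ.filter fun q : Fin m => ∃ r, eb m n (q, r) ∈ S).card : ℝ) * δ v ≤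
      S.card * δ v := mul_le_mul_of_nonneg_right (by exact_mod_cast h10) (h0 v)
  rw [h9]
  linarith

/-- **The converse.** -/
theorem not_destab (hess : Algebra.EssFiniteType k K) (hn : Algebra.trdeg k K = n)
    (hn1 : 1 ≤ n) {δ : Place k K → ℝ} (h0 : ∀ v, 0 ≤ δ v) (h1 : ∀ v, δ v ≤ 1)
    (hκ : PairKod k K n δ 0) : ∃ N, ∀ (f : Fin n → Derivation k K K) (w : Fin n → ℝ),
      ¬ Destab n δ N f w := by
  classical
  obtain ⟨m, hm, ω, hω, D, hD, -⟩ := hκ
  obtain ⟨y, hy⟩ := Pool.Agent.W636.PG.exists_basis k K n hn
  obtain ⟨E, hE⟩ := Pool.Agent.W636.PG.exists_duals k K n y hy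
  have hexp := fun D : Derivation k K K => (Pool.Agent.W73.PG.PULL.expand y hy E hE D).symm
  have hωE : ω 0 E ≠ 0 := by
    intro h2
    apply hD 0
    have h3 : D = fun i => ∑ j, (gm y D) i j • E j := by
      funext i
      exact hexp (D i)
    rw [h3, (hω 0).1, h2, mul_zero]
  refine ⟨m * n, fun f w hd => ?_⟩
  obtain ⟨hli, hw, hd⟩ := hd
  have h2 := hd (m * n) (Nat.mul_pos hm hn1) le_rfl (dT y (ω 0 E) m)
    (dT_orb hess hn hE hexp h0 h1 (hω 0)) (fun s => ((eb m n).symm s).2) (by
      rw [dT_apply]
      refine mul_ne_zero hωE (Finset.prod_ne_zero_iff.2 fun q _ => ?_)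
      have h3 : (fun r => f ((eb m n).symm (eb m n (q, r))).2) = f := by
        funext r
        rw [Equiv.symm_apply_apply]
      rw [h3]
      intro h4
      obtain ⟨c, hc, hc'⟩ := Matrix.exists_vecMul_eq_zero_iff.2 h4
      apply hc
      rw [Fintype.linearIndependent_iff] at hli
      funext i
      refine hli c ?_ i
      rw [hexp (∑ i, c i • f i)]
      refine Finset.sum_eq_zero fun b _ => ?_
      have h5 : (∑ i, c i • f i) (y b) = 0 := by
        rw [Pool.Agent.W721.PG.EFF2.der_sum]
        exact congrFun hc' b
      rw [h5, zero_smul])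
  have h3 : ∑ s : Fin (m * n), w ((eb m n).symm s).2 = m * ∑ i, w i := by
    rw [← Equiv.sum_comp (eb m n), Fintype.sum_prod_type]
    simp
  rw [h3, hw, mul_zero] at h2
  exact lt_irrefl _ h2

end

end Pool.Agent.Run7.h573.GIT
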