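import Pool.Agent.Run7.h573.GIT.Flag
import Pool.Agent.Run7.h573.GIT.CDefs

/-!
# Products of determinants along a flag
-/

set_option autoImplicit false
set_option linter.overlappingInstances false
set_option linter.unusedSectionVars false
set_option linter.unusedTactic false
set_option maxHeartbeats 1000000

open FF Finset Function Pool.Agent.W619.PQ
  Pool.Agent.W619.TW Pool.Agent.W603.LV Pool.Agent.W824.PG
  Pool.Agent.Y174 Pool.Agent.Y174.OB

namespace Pool.Agent.Run7.h573.GIT

section Bd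

variable {R : Type*} [Field R] {ι : Type*} [Fintype ι] [DecidableEq ι]

/-- triangular matrices -/
def Tri (w : ι → ℝ) (G : Matrix ι ι R) : Prop := ∀ i j, G i j ≠ 0 → w i ≤ w j

open Classical in
/-- the diagonal blocks -/
noncomputable def bd (w : ι → ℝ) (G : Matrix ι ι R) : Matrix ι ι R :=
  Matrix.of fun i j => if w i = w j then G i j else 0

lemma bd_apply (w : ι → ℝ) (G : Matrix ι ι R) (i j : ι) (h : w i = w j) :
    bd w G i j = G i j := by
  unfold bd
  rw [Matrix.of_apply, if_pos h]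

lemma bd_apply_ne (w : ι → ℝ) (G : Matrix ι ι R) (i j : ι) (h : w i ≠ w j) :
    bd w G i j = 0 := by
  unfold bd
  rw [Matrix.of_apply, if_neg h]

lemma bd_ne {w : ι → ℝ} {G : Matrix ι ι R} {i j : ι} (h : bd w G i j ≠ 0) : w i = w j := by
  by_contra h1
  exact h (bd_apply_ne w G i j h1)

lemma bd_mul {w : ι → ℝ} {G H : Matrix ι ι R} (hG : Tri w G) (hH : Tri w H) :
    bd w (G * H) = bd w G * bd w H := by
  ext i j
  by_cases hij : w i = w j
  · rw [bd_apply _ _ _ _ hij, Matrix.mul_apply, Matrix.mul_apply]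
    refine Finset.sum_congr rfl fun r _ => ?_
    by_cases h1 : w i = w r
    · rw [bd_apply _ _ _ _ h1, bd_apply _ _ _ _ (h1.symm.trans hij)]
    · rw [bd_apply_ne _ _ _ _ h1, zero_mul]
      by_contra h2
      have h3 := hG i r (left_ne_zero_of_mul h2)
      have h4 := hH r j (right_ne_zero_of_mul h2)
      exact h1 (le_antisymm h3 (h4.trans hij.ge))
  · rw [bd_apply_ne _ _ _ _ hij, Matrix.mul_apply]
    symm
    refine Finset.sum_eq_zero fun r _ => ?_
    by_contra h2
    exact hij ((bd_ne (left_ne_zero_of_mul h2)).trans (bd_ne (right_ne_zero_of_mul h2)))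

lemma bd_one (w : ι → ℝ) : bd w (1 : Matrix ι ι R) = 1 := by
  ext i j
  by_cases hij : w i = w j
  · rw [bd_apply _ _ _ _ hij]
  · rw [bd_apply_ne _ _ _ _ hij, Matrix.one_apply_ne]
    rintro rfl
    exact hij rfl

lemma tri_inv {w : ι → ℝ} {G H : Matrix ι ι R} (hG : Tri w G) (h : G * H = 1) : Tri w H := by
  have h1 : G.BlockTriangular w := by
    intro i j hij
    by_contra h2
    exact absurd (hG i j h2) (not_le.2 hij)
  have : Invertible G := ⟨H, mul_eq_one_comm.1 h, h⟩
  have h2 := Matrix.blockTriangular_inv_of_blockTriangular h1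
  have h3 : G⁻¹ = H := Matrix.inv_eq_right_inv h
  rw [h3] at h2
  intro i j hij
  by_contra h4
  exact hij (h2 (not_le.1 h4))

lemma det_bd {w : ι → ℝ} {G : Matrix ι ι R} (hG : Tri w G) : (bd w G).det = G.det := by
  rw [Matrix.det_apply, Matrix.det_apply]
  refine Finset.sum_congr rfl fun σ _ => ?_
  congr 1
  by_cases h1 : ∀ i, w (σ i) = w i
  · exact Finset.prod_congr rfl fun i _ => bd_apply _ _ _ _ (h1 i)
  · have h2 : ∏ i, bd w G (σ i) i = 0 := by
      rw [not_forall] at h1
      obtain ⟨i, hi⟩ := h1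
      exact Finset.prod_eq_zero (Finset.mem_univ i) (bd_apply_ne _ _ _ _ hi)
    rw [h2]
    symm
    by_contra h3
    rw [← ne_eq, Finset.prod_ne_zero_iff] at h3
    apply h1
    have h4 : ∀ i, w (σ i) ≤ w i := fun i => hG _ _ (h3 i (Finset.mem_univ _))
    have h5 : ∑ i, w (σ i) = ∑ i, w i := Equiv.sum_comp σ w
    have h6 := (Finset.sum_eq_sum_iff_of_le fun i _ => h4 i).1 h5
    exact fun i => h6 i (Finset.mem_univ _)

end Bd

section GeDet

variable {k L : Type} [Field k] [CharZero k] [Field L] [Algebra k L]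

theorem geR_det' {ι : Type*} [Fintype ι] [DecidableEq ι] {w : Place k L}
    (A : Matrix ι ι L) (b : ι → ℝ) (h : ∀ i j, GeR w (b j) (A i j)) :
    GeR w (∑ j, b j) A.det := by
  rw [Matrix.det_apply]
  refine GeR.sum _ _ _ fun σ _ => ?_
  have h1 : GeR w (∑ i, b i) (∏ i, A (σ i) i) := geR_prod _ _ _ fun i _ => h (σ i) i
  rcases Int.units_eq_one_or (Equiv.Perm.sign σ) with h3 | h3
  · rw [h3, one_smul]
    exact h1
  · rw [h3, Units.neg_smul, one_smul]
    exact geR_neg h1

end GeDet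

section

variable {k K : Type} [Field k] [CharZero k] [Field K] [Algebra k K] {n : ℕ}

/-- the matrix of a family of vector fields in the forms -/
def am (α : Fin n → (Derivation k K K →ₗ[K] K)) (D : Fin n → Derivation k K K) :
    Matrix (Fin n) (Fin n) K := Matrix.of fun i j => α j (D i)

/-- the part of a matrix -/
def sm {R : Type*} (w : Fin n → ℝ) (t : Fin n) (G : Matrix (Fin n) (Fin n) R) :
    Matrix {i : Fin n // w i ≤ w t} {i : Fin n // w i ≤ w t} R := G.submatrix (·.1) (·.1)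

open Classical in
/-- the product of the determinants -/
noncomputable def dc {R : Type*} [Field R] (w : Fin n → ℝ) (c : Fin n → ℕ)
    (G : Matrix (Fin n) (Fin n) R) : R := ∏ t, (sm w t G).det ^ c t

open Classical in
/-- the number of the determinants which contain the index `i0` -/
noncomputable def cb (w : Fin n → ℝ) (c : Fin n → ℕ) (i0 : Fin n) : ℝ :=
  ∑ t, if w i0 ≤ w t then (c t : ℝ) else 0

lemma dc_add {R : Type*} [Field R] (w : Fin n → ℝ) (c c' : Fin n → ℕ)
    (G : Matrix (Fin n) (Fin n) R) : dc w (c + c') G = dc w c G * dc w c' G := by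
  unfold dc
  rw [← Finset.prod_mul_distrib]
  exact Finset.prod_congr rfl fun t _ => by rw [Pi.add_apply, pow_add]

lemma cb_add (w : Fin n → ℝ) (c c' : Fin n → ℕ) (i0 : Fin n) :
    cb w (c + c') i0 = cb w c i0 + cb w c' i0 := by
  unfold cb
  rw [← Finset.sum_add_distrib]
  refine Finset.sum_congr rfl fun t _ => ?_
  split_ifs <;> simp

/-- tests -/
structure Tst (v : Place k K) (α : Fin n → (Derivation k K K →ₗ[K] K)) (w : Fin n → ℝ)
    (i0 : Fin n) (D : Fin n → Derivation k K K) (h : Matrix (Fin n) (Fin n) K) : Prop where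
  afr : AFr v i0 D
  tri : Tri w (am α D)
  inv : am α D * h = 1

/-- the mixed tensors of the graded space of the flag, with the twist `c` -/
def S2 (δ : Place k K → ℝ) (α : Fin n → (Derivation k K K →ₗ[K] K)) (w : Fin n → ℝ)
    (c : Fin n → ℕ) (a : ℕ) : Set ((Fin a ⊕ Fin a → Fin n) → K) :=
  {z | ∀ v : Place k K, IsDivisorial v n → ∀ i0 D h, Tst v α w i0 D h →
    ∀ I : Fin a ⊕ Fin a → Fin n,
      GeR v (-(cb w c i0 * δ v) + Pool.Agent.R908.Km.wt (Pi.single i0 (δ v)) I)
        (dc w c (am α D) * Pool.Agent.R908.Km.act (Pool.Agent.R908.Km.mm (bd w h).transpose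
          (bd w (am α D)).transpose) z I)}

variable {δ : Place k K → ℝ} {α : Fin n → (Derivation k K K →ₗ[K] K)} {w : Fin n → ℝ}

lemma Tst.bd_inv {v : Place k K} {i0 : Fin n} {D : Fin n → Derivation k K K}
    {h : Matrix (Fin n) (Fin n) K} (ht : Tst v α w i0 D h) :
    bd w (am α D) * bd w h = 1 := by
  rw [← bd_mul ht.tri (tri_inv ht.tri ht.inv), ht.inv, bd_one]

open Pool.Agent.R908.Km in
lemma S2_prm {c : Fin n → ℕ} {a : ℕ} {z : (Fin a ⊕ Fin a → Fin n) → K}
    (π : Equiv.Perm (Fin a ⊕ Fin a)) (hπ : ∀ s, (π s).isLeft = s.isLeft)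
    (hz : z ∈ S2 δ α w c a) : prm π z ∈ S2 δ α w c a := by
  intro v hv i0 D h ht I
  have h1 := hz v hv i0 D h ht (I ∘ π)
  rw [act_prm _ _ π hπ, prm]
  rwa [wt_comp _ π hπ] at h1

open Pool.Agent.R908.Km in
lemma S2_cz {c : Fin n → ℕ} {a : ℕ} {z : (Fin (a + 1) ⊕ Fin (a + 1) → Fin n) → K}
    (hz : z ∈ S2 δ α w c (a + 1)) : cz z ∈ S2 δ α w c a := by
  intro v hv i0 D h ht I
  have hh' : (bd w (am α D)).transpose * (bd w h).transpose = 1 := by
    rw [← Matrix.transpose_mul, mul_eq_one_comm.1 ht.bd_inv, Matrix.transpose_one]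
  rw [act_cz hh', cz, Finset.mul_sum]
  refine GeR.sum _ _ _ fun q _ => ?_
  have h1 := hz v hv i0 D h ht (ext q q I)
  rwa [wt_ext] at h1

open Pool.Agent.R908.Km in
lemma S2_ins {c : Fin n → ℕ} {a : ℕ} {z : (Fin a ⊕ Fin a → Fin n) → K}
    (hz : z ∈ S2 δ α w c a) : ins z ∈ S2 δ α w c (a + 1) := by
  intro v hv i0 D h ht I
  have hh' : (bd w h).transpose * (bd w (am α D)).transpose = 1 := by
    rw [← Matrix.transpose_mul, ht.bd_inv, Matrix.transpose_one]
  rw [act_ins hh', ins]
  by_cases h0 : I (Sum.inl 0) = I (Sum.inr 0)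
  · rw [if_pos h0]
    have h1 := hz v hv i0 D h ht (Pool.Agent.R908.Km.rest I)
    have h2 : Pool.Agent.R908.Km.wt (Pi.single i0 (δ v)) I =
        Pool.Agent.R908.Km.wt (Pi.single i0 (δ v)) (Pool.Agent.R908.Km.rest I) := by
      conv_lhs => rw [← ext_rest I, h0]
      exact wt_ext _ _ _
    rw [h2]
    exact h1
  · rw [if_neg h0, mul_zero]
    exact Or.inl rfl

open Pool.Agent.R908.Km in
lemma S2_mul {c c' : Fin n → ℕ} {a b : ℕ}
    {z : (Fin a ⊕ Fin a → Fin n) → K} {z' : (Fin b ⊕ Fin b → Fin n) → K}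
    (hz : z ∈ S2 δ α w c a) (hz' : z' ∈ S2 δ α w c' b) :
    tmul z z' ∈ S2 δ α w (c + c') (a + b) := by
  intro v hv i0 D h ht L
  obtain ⟨I, J, rfl⟩ : ∃ I J, L = app I J := ⟨_, _, (app_surj L).symm⟩
  rw [act_tmul, tmul_app, wt_app]
  have h1 := (hz v hv i0 D h ht I).mul (hz' v hv i0 D h ht J)
  have h2 : dc w (c + c') (am α D) * (Pool.Agent.R908.Km.act (mm (bd w h).transpose
      (bd w (am α D)).transpose) z I * Pool.Agent.R908.Km.act (mm (bd w h).transpose
      (bd w (am α D)).transpose) z' J) =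
      dc w c (am α D) * Pool.Agent.R908.Km.act (mm (bd w h).transpose
        (bd w (am α D)).transpose) z I *
        (dc w c' (am α D) * Pool.Agent.R908.Km.act (mm (bd w h).transpose
          (bd w (am α D)).transpose) z' J) := by
    rw [dc_add]
    ring
  rw [h2]
  refine h1.mono (le_of_eq ?_)
  rw [cb_add]
  ring

/-- the product of determinants is an orbifold tensor -/
lemma flagTen_orb (hess : Algebra.EssFiniteType k K) (hn : Algebra.trdeg k K = n)
    (h0 : ∀ v, 0 ≤ δ v) (h1 : ∀ v, δ v ≤ 1) {f : Fin n → Derivation k K K}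
    (hαf : ∀ i j, α i (f j) = if i = j then 1 else 0) {c : Fin n → ℕ}
    {z : (Fin 0 ⊕ Fin 0 → Fin n) → K} (hz : z ∈ S2 δ α w c 0)
    (I0 : Fin 0 ⊕ Fin 0 → Fin n) : OrbTenS n δ (flagTen α w c (z I0)) := by
  classical
  intro v hv S D hS hS'
  obtain ⟨i0, F, lam, hF, htri⟩ := exists_flag_frame hess hn hv hαf w
  have hT : Tst v α w i0 F (Matrix.of fun i a => lam a (f i)) := by
    refine ⟨hF.afr, fun i j hij => ?_, ?_⟩
    · by_contra h2
      exact hij (htri i j (not_le.1 h2))
    · rw [mul_eq_one_comm]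
      ext i j
      rw [Matrix.mul_apply, Matrix.one_apply]
      have h2 := congrArg (α j) (hF.exp (f i))
      rw [hαf, map_sum] at h2
      simp only [map_smul, smul_eq_mul] at h2
      have h3 : (if j = i then (1 : K) else 0) = if i = j then 1 else 0 := by
        by_cases h4 : i = j
        · rw [if_pos h4.symm, if_pos h4]
        · rw [if_neg (Ne.symm h4), if_neg h4]
      rw [← h3]
      exact h2.symm
  have h2 := hz v hv i0 F _ hT I0
  have h3 : ∀ A B : Matrix (Fin n) (Fin n) K, Pool.Agent.R908.Km.act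
      (Pool.Agent.R908.Km.mm A B) z I0 = z I0 := by
    intro A B
    rw [Pool.Agent.R908.Km.act]
    have h5 : ∀ J : Fin 0 ⊕ Fin 0 → Fin n, J = I0 := fun J => by
      funext s
      rcases s with s | s <;> exact s.elim0
    have : Subsingleton (Fin 0 ⊕ Fin 0 → Fin n) := ⟨fun a b => (h5 a).trans (h5 b).symm⟩
    rw [Fintype.sum_subsingleton _ I0]
    simp
  have h4 : Pool.Agent.R908.Km.wt (Pi.single i0 (δ v)) I0 = 0 := by
    simp [Pool.Agent.R908.Km.wt]
  rw [h3, h4, add_zero] at h2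
  -- the blocks
  have hreg : ∀ j, Pres v (D j) := by
    intro j
    by_cases hj : j ∈ S
    · exact hS j hj
    · exact Lg.pres (hS' j hj)
  have h5 : ∀ x : (Σ t : Fin n, Fin (c t)),
      (Matrix.of fun (r i : {i : Fin n // w i ≤ w x.1}) => α i (D ⟨x, r⟩)).det =
        (Matrix.of fun (r b : {i : Fin n // w i ≤ w x.1}) => lam b (D ⟨x, r⟩)).det *
          (sm w x.1 (am α F)).det := by
    intro x
    rw [← Matrix.det_mul]
    congr 1
    ext r i
    rw [Matrix.of_apply, Matrix.mul_apply]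
    have h6 := congrArg (α i) (hF.exp (D ⟨x, r⟩))
    rw [map_sum] at h6
    simp only [map_smul, smul_eq_mul] at h6
    rw [h6]
    have h7 : ∀ b : Fin n, b ∉ Finset.univ.filter (fun b => w b ≤ w x.1) →
        lam b (D ⟨x, r⟩) * α i (F b) = 0 := by
      intro b hb
      rw [Finset.mem_filter, not_and] at hb
      have h8 := hb (Finset.mem_univ _)
      rw [htri b i (lt_of_le_of_lt i.2 (not_le.1 h8)), mul_zero]
    rw [← Finset.sum_subset (Finset.subset_univ (Finset.univ.filter (fun b => w b ≤ w x.1)))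
      (fun b _ hb => h7 b hb)]
    exact Finset.sum_subtype (Finset.univ.filter (fun b => w b ≤ w x.1)) (fun b => by
      rw [Finset.mem_filter]
      exact and_iff_right (Finset.mem_univ _)) fun b => lam b (D ⟨x, r⟩) * α i (F b)
  have h6 : flagTen α w c (z I0) D = (dc w c (am α F) * z I0) *
      ∏ x : (Σ t : Fin n, Fin (c t)), (Matrix.of fun (r b : {i : Fin n // w i ≤ w x.1}) =>
        lam b (D ⟨x, r⟩)).det := by
    unfold flagTen
    rw [detP_apply]
    have h7 : ∏ x : (Σ t : Fin n, Fin (c t)), (sm w x.1 (am α F)).det = dc w c (am α F) := by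
      rw [Fintype.prod_sigma]
      unfold dc
      refine Finset.prod_congr rfl fun t _ => ?_
      change ∏ _y : Fin (c t), (sm w t (am α F)).det = _
      rw [Finset.prod_const, Finset.card_univ, Fintype.card_fin]
    rw [← h7]
    have h8 : ∏ x : (Σ t : Fin n, Fin (c t)), (Matrix.of fun (r i : {i : Fin n // w i ≤ w x.1}) =>
        α i (D ⟨x, r⟩)).det = (∏ x : (Σ t : Fin n, Fin (c t)),
          (Matrix.of fun (r b : {i : Fin n // w i ≤ w x.1}) => lam b (D ⟨x, r⟩)).det) *
            ∏ x : (Σ t : Fin n, Fin (c t)), (sm w x.1 (am α F)).det := by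
      rw [← Finset.prod_mul_distrib]
      exact Finset.prod_congr rfl fun x _ => h5 x
    calc z I0 * ∏ x : (Σ t : Fin n, Fin (c t)), (Matrix.of fun (r i :
          {i : Fin n // w i ≤ w x.1}) => α i (D ⟨x, r⟩)).det
        = z I0 * ((∏ x : (Σ t : Fin n, Fin (c t)),
          (Matrix.of fun (r b : {i : Fin n // w i ≤ w x.1}) => lam b (D ⟨x, r⟩)).det) *
            ∏ x : (Σ t : Fin n, Fin (c t)), (sm w x.1 (am α F)).det) := by rw [h8]
      _ = _ := by ring
  -- one block
  have h7 : ∀ x : (Σ t : Fin n, Fin (c t)), GeR v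
      (if w i0 ≤ w x.1 then (if ∃ r : {i : Fin n // w i ≤ w x.1},
        (⟨x, r⟩ : (Σ x : (Σ t : Fin n, Fin (c t)), {i : Fin n // w i ≤ w x.1})) ∈ S then
          (0 : ℝ) else δ v) else 0)
      (Matrix.of fun (r b : {i : Fin n // w i ≤ w x.1}) => lam b (D ⟨x, r⟩)).det := by
    intro x
    have h8 : GeR v 0 (Matrix.of fun (r b : {i : Fin n // w i ≤ w x.1}) =>
        lam b (D ⟨x, r⟩)).det := by
      have h9 := Ge.toR (ge_det v (Matrix.of fun (r b : {i : Fin n // w i ≤ w x.1}) =>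
        lam b (D ⟨x, r⟩)) fun i j => hF.reg _ (hreg _) _)
      rwa [Int.cast_zero] at h9
    split_ifs with h9 h10
    · exact h8
    · have h11 := geR_det' (w := v) (Matrix.of fun (r b : {i : Fin n // w i ≤ w x.1}) =>
        lam b (D ⟨x, r⟩)) (fun b => if b = ⟨i0, h9⟩ then 1 else 0) (fun i j => by
          rw [Matrix.of_apply]
          by_cases hj : j = ⟨i0, h9⟩
          · rw [if_pos hj, hj]
            have h12 := hF.lg _ (hS' _ fun h13 => h10 ⟨i, h13⟩)
            have h13 := Ge.toR h12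
            rwa [Int.cast_one] at h13
          · rw [if_neg hj]
            have h12 := Ge.toR (hF.reg _ (hreg ⟨x, i⟩) j)
            rwa [Int.cast_zero] at h12)
      rw [Finset.sum_ite_eq' Finset.univ, if_pos (Finset.mem_univ _)] at h11
      exact h11.mono (h1 v)
    · exact h8
  have h8 := geR_prod (w := v) Finset.univ _ _ (fun x _ => h7 x)
  have h9 := h2.mul h8
  rw [← h6] at h9
  refine GeR.mono h9 ?_
  -- the count
  have h10 : ∑ x : (Σ t : Fin n, Fin (c t)), (if w i0 ≤ w x.1 then (if ∃ r :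
      {i : Fin n // w i ≤ w x.1}, (⟨x, r⟩ : (Σ x : (Σ t : Fin n, Fin (c t)),
        {i : Fin n // w i ≤ w x.1})) ∈ S then (0 : ℝ) else δ v) else 0) =
      cb w c i0 * δ v - (Finset.univ.filter fun x : (Σ t : Fin n, Fin (c t)) => w i0 ≤ w x.1 ∧
        ∃ r : {i : Fin n // w i ≤ w x.1}, (⟨x, r⟩ : (Σ x : (Σ t : Fin n, Fin (c t)),
          {i : Fin n // w i ≤ w x.1})) ∈ S).card * δ v := by
    have h11 : cb w c i0 = ∑ x : (Σ t : Fin n, Fin (c t)), (if w i0 ≤ w x.1 then (1 : ℝ) else 0) := by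
      rw [Fintype.sum_sigma]
      unfold cb
      refine Finset.sum_congr rfl fun t _ => ?_
      change _ = ∑ _y : Fin (c t), (if w i0 ≤ w t then (1 : ℝ) else 0)
      rw [Finset.sum_const, Finset.card_univ, Fintype.card_fin, nsmul_eq_mul]
      simp
    rw [h11, Finset.card_filter]
    push_cast
    rw [← sub_mul, ← Finset.sum_sub_distrib, Finset.sum_mul]
    refine Finset.sum_congr rfl fun x _ => ?_
    by_cases h12 : w i0 ≤ w x.1
    · rw [if_pos h12, if_pos h12]
      by_cases h13 : ∃ r : {i : Fin n // w i ≤ w x.1}, (⟨x, r⟩ :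
          (Σ x : (Σ t : Fin n, Fin (c t)), {i : Fin n // w i ≤ w x.1})) ∈ S
      · rw [if_pos h13, if_pos ⟨h12, h13⟩]
        ring
      · rw [if_neg h13, if_neg (fun h14 => h13 h14.2)]
        ring
    · rw [if_neg h12, if_neg h12, if_neg (fun h14 => h12 h14.1)]
      ring
  have h11 : (Finset.univ.filter fun x : (Σ t : Fin n, Fin (c t)) => w i0 ≤ w x.1 ∧
        ∃ r : {i : Fin n // w i ≤ w x.1}, (⟨x, r⟩ : (Σ x : (Σ t : Fin n, Fin (c t)),
          {i : Fin n // w i ≤ w x.1})) ∈ S).card ≤ S.card := by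
    have h12 : (Finset.univ.filter fun x : (Σ t : Fin n, Fin (c t)) => w i0 ≤ w x.1 ∧
        ∃ r : {i : Fin n // w i ≤ w x.1}, (⟨x, r⟩ : (Σ x : (Σ t : Fin n, Fin (c t)),
          {i : Fin n // w i ≤ w x.1})) ∈ S) ⊆ S.image Sigma.fst := by
      intro x hx
      obtain ⟨-, r, hr⟩ := (Finset.mem_filter.1 hx).2
      exact Finset.mem_image.2 ⟨_, hr, rfl⟩
    exact (Finset.card_le_card h12).trans Finset.card_image_le
  have h12 : ((Finset.univ.filter fun x : (Σ t : Fin n, Fin (c t)) => w i0 ≤ w x.1 ∧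
        ∃ r : {i : Fin n // w i ≤ w x.1}, (⟨x, r⟩ : (Σ x : (Σ t : Fin n, Fin (c t)),
          {i : Fin n // w i ≤ w x.1})) ∈ S).card : ℝ) * δ v ≤ S.card * δ v :=
    mul_le_mul_of_nonneg_right (by exact_mod_cast h11) (h0 v)
  rw [h10]
  linarith

/-- the graded family -/
def gfam2 (hess : Algebra.EssFiniteType k K) (hn : Algebra.trdeg k K = n)
    (h0 : ∀ v, 0 ≤ δ v) (h1 : ∀ v, δ v ≤ 1) {f : Fin n → Derivation k K K}
    (hαf : ∀ i j, α i (f j) = if i = j then 1 else 0)
    (hno : ∀ (c : Fin n → ℕ) (a : K), c ≠ 0 → a ≠ 0 → ¬ OrbTenS n δ (flagTen α w c a)) :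
    GFam K (Fin n) (Fin n → ℕ) where
  S := S2 δ α w
  P := {c | c ≠ 0}
  P_add := by
    intro c c' hc h
    apply hc
    funext t
    have h2 := congrFun h t
    rw [Pi.add_apply, Pi.zero_apply] at h2
    rw [Pi.zero_apply]
    omega
  zero := by
    intro c hc z hz
    by_contra hne
    obtain ⟨I0, hI0⟩ := Function.ne_iff.1 hne
    exact hno c (z I0) hc hI0 (flagTen_orb hess hn h0 h1 hαf hz I0)
  prm_mem := fun π hπ hz => S2_prm π hπ hz
  cz_mem := fun hz => S2_cz hz
  ins_mem := fun hz => S2_ins hz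
  mul_mem := fun hz hz' => S2_mul hz hz'

end

end Pool.Agent.Run7.h573.GIT
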