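import Pool.Agent.Run7.h573.GIT.Lev3
import Pool.Agent.Run7.h573.GIT.Conv

/-!
# Tensors and products of determinants: both directions
-/

set_option autoImplicit false
set_option linter.overlappingInstances false
set_option linter.unusedSectionVars false
set_option maxHeartbeats 1000000

open FF Finset Function Pool.Agent.W619.PQ
  Pool.Agent.W619.TW Pool.Agent.W603.LV Pool.Agent.W824.PG
  Pool.Agent.Y174 Pool.Agent.Y174.OB

namespace Pool.Agent.Run7.h573.GIT

section

variable {k K : Type} [Field k] [CharZero k] [Field K] [Algebra k K] {n : ℕ}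
  {δ : Place k K → ℝ}

/-- the names of the arguments do not matter -/
lemma orbTenS_iff {κ : Type} {N : ℕ} (g : Fin N ≃ κ)
    {T : MultilinearMap K (fun _ : κ => Derivation k K K) K}
    {T' : MultilinearMap K (fun _ : Fin N => Derivation k K K) K}
    (h : ∀ D, T D = T' fun s => D (g s)) : OrbTenS n δ T ↔ OrbTen n δ T' := by
  constructor
  · intro hT v hv S D hS hS'
    have h1 := hT v hv (S.map g.toEmbedding) (fun x => D (g.symm x)) (fun j hj => by
      refine hS _ ?_
      rwa [Finset.mem_map_equiv] at hj) (fun j hj => by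
      refine hS' _ fun h2 => hj ?_
      rwa [Finset.mem_map_equiv])
    rw [h, Finset.card_map] at h1
    simpa only [Equiv.symm_apply_apply] using h1
  · intro hT v hv S D hS hS'
    have h1 := hT v hv (S.map g.symm.toEmbedding) (fun x => D (g x)) (fun j hj => by
      refine hS _ ?_
      rwa [Finset.mem_map_equiv] at hj) (fun j hj => by
      refine hS' _ fun h2 => hj ?_
      rwa [Finset.mem_map_equiv])
    rw [← h, Finset.card_map] at h1
    exact h1

lemma flagTen_apply (α : Fin n → (Derivation k K K →ₗ[K] K)) (w : Fin n → ℝ) (c : Fin n → ℕ)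
    (a : K) (D : (Σ x : (Σ t : Fin n, Fin (c t)), {i : Fin n // w i ≤ w x.1}) →
      Derivation k K K) :
    flagTen α w c a D = a * ∏ x, (sm w x.1 (Matrix.of fun (r i : Fin n) =>
      α i (if h : w r ≤ w x.1 then D ⟨x, ⟨r, h⟩⟩ else 0))).det := by
  classical
  unfold flagTen
  refine (detP_apply _ _ _).trans ?_
  congr 1
  refine Finset.prod_congr rfl fun x _ => ?_
  congr 1
  ext r i
  simp only [sm, Matrix.submatrix_apply, Matrix.of_apply]
  rw [dif_pos r.2]

/-- the converse -/
lemma flagTen_tensor {f : Fin n → Derivation k K K} {α : Fin n → (Derivation k K K →ₗ[K] K)}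
    {w : Fin n → ℝ} {c : Fin n → ℕ} {a : K} (hαf : ∀ i j, α i (f j) = if i = j then 1 else 0)
    (hc : c ≠ 0) (ha : a ≠ 0) (hT : OrbTenS n δ (flagTen α w c a)) :
    ∃ (m : ℕ) (T : MultilinearMap K (fun _ : Fin m => Derivation k K K) K), 1 ≤ m ∧ T ≠ 0 ∧
      OrbTen n δ T := by
  classical
  obtain ⟨t, ht⟩ := Function.ne_iff.1 hc
  rw [Pi.zero_apply] at ht
  let κ : Type := (Σ x : (Σ t : Fin n, Fin (c t)), {i : Fin n // w i ≤ w x.1})
  let g : Fin (Fintype.card κ) ≃ κ := (Fintype.equivFin κ).symm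
  let T' : MultilinearMap K (fun _ : Fin (Fintype.card κ) => Derivation k K K) K :=
    (flagTen α w c a).domDomCongr g.symm
  have hTT : ∀ D, flagTen α w c a D = T' fun s => D (g s) := by
    intro D
    change _ = flagTen α w c a fun i => D (g (g.symm i))
    congr 1
    funext i
    rw [Equiv.apply_symm_apply]
  refine ⟨Fintype.card κ, T', ?_, ?_, (orbTenS_iff g hTT).1 hT⟩
  · exact Fintype.card_pos_iff.2 ⟨⟨⟨t, ⟨0, Nat.pos_of_ne_zero ht⟩⟩, ⟨t, le_rfl⟩⟩⟩
  · intro h0
    have h1 := hTT fun x => f x.2.1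
    rw [h0, flagTen_apply] at h1
    change _ = (0 : K) at h1
    have h2 : ∀ x : (Σ t : Fin n, Fin (c t)), (sm w x.1 (Matrix.of fun (r i : Fin n) =>
        α i (if h : w r ≤ w x.1 then f r else 0))).det = 1 := by
      intro x
      rw [← Matrix.det_one (n := {i : Fin n // w i ≤ w x.1})]
      congr 1
      ext r i
      simp only [sm, Matrix.submatrix_apply, Matrix.of_apply]
      rw [dif_pos r.2, hαf, Matrix.one_apply]
      by_cases h3 : r = i
      · rw [if_pos h3, if_pos (by rw [h3])]
      · rw [if_neg h3, if_neg fun h4 => h3 (Subtype.ext h4.symm)]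
    have h3 : a * ∏ x : (Σ t : Fin n, Fin (c t)), (sm w x.1 (Matrix.of fun (r i : Fin n) =>
        α i (if h : w r ≤ w x.1 then f r else 0))).det = a := by
      rw [Finset.prod_congr rfl fun x _ => h2 x, Finset.prod_const_one, mul_one]
    exact ha (h3.symm.trans h1)

/-- the case of a pluricanonical form -/
lemma kod_flagTen (hess : Algebra.EssFiniteType k K) (hn : Algebra.trdeg k K = n)
    (hn1 : 1 ≤ n) (h0 : ∀ v, 0 ≤ δ v) (h1 : ∀ v, δ v ≤ 1) (hκ : PairKod k K n δ 0) :
    ∃ (f : Fin n → Derivation k K K) (α : Fin n → (Derivation k K K →ₗ[K] K)) (w : Fin n → ℝ)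
      (c : Fin n → ℕ) (a : K), (∀ i j, α i (f j) = if i = j then 1 else 0) ∧
      (∀ D, D = ∑ i, α i D • f i) ∧ c ≠ 0 ∧ a ≠ 0 ∧ OrbTenS n δ (flagTen α w c a) ∧
      ∀ t, BirStable δ (fil f w t) := by
  classical
  obtain ⟨m, hm, ω, hω, D, hD, -⟩ := hκ
  obtain ⟨y, hy⟩ := Pool.Agent.W636.PG.exists_basis k K n hn
  obtain ⟨E, hE⟩ := Pool.Agent.W636.PG.exists_duals k K n y hy
  have hexp := fun D : Derivation k K K => (Pool.Agent.W73.PG.PULL.expand y hy E hE D).symm
  have hωE : ω 0 E ≠ 0 := by
    intro h2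
    apply hD 0
    have h3 : D = fun i => ∑ j, (gm y D) i j • E j := by
      funext i
      exact hexp (D i)
    rw [h3, (hω 0).1, h2, mul_zero]
  let α : Fin n → (Derivation k K K →ₗ[K] K) := fun i =>
    { toFun := fun D => D (y i)
      map_add' := fun D D' => rfl
      map_smul' := fun c D => rfl }
  let t0 : Fin n := ⟨0, hn1⟩
  let c : Fin n → ℕ := Pi.single t0 m
  let w : Fin n → ℝ := fun _ => 0
  have hαE : ∀ i j, α i (E j) = if i = j then 1 else 0 := by
    intro i j
    change E j (y i) = _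
    rw [hE]
    by_cases h : i = j
    · rw [if_pos h, if_pos h.symm]
    · rw [if_neg h, if_neg (Ne.symm h)]
  refine ⟨E, α, w, c, ω 0 E, hαE, hexp, ?_, hωE, ?_, ?_⟩
  · intro h
    have h2 := congrFun h t0
    rw [Pi.zero_apply] at h2
    change (Pi.single t0 m : Fin n → ℕ) t0 = 0 at h2
    rw [Pi.single_eq_same] at h2
    omega
  · -- the blocks
    have hcard : Fintype.card (Σ t : Fin n, Fin (c t)) = m := by
      rw [Fintype.card_sigma]
      simp only [Fintype.card_fin]
      exact Finset.sum_pi_single' t0 m Finset.univ |>.trans (if_pos (Finset.mem_univ _))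
    let e : Fin m ≃ (Σ t : Fin n, Fin (c t)) := (Fintype.equivFinOfCardEq hcard).symm
    let g2 : Fin m × Fin n ≃ (Σ x : (Σ t : Fin n, Fin (c t)), {i : Fin n // w i ≤ w x.1}) :=
      { toFun := fun p => ⟨e p.1, ⟨p.2, le_rfl⟩⟩
        invFun := fun s => (e.symm s.1, s.2.1)
        left_inv := fun p => by
          change (e.symm (e p.1), p.2) = p
          rw [Equiv.symm_apply_apply]
        right_inv := fun s => by
          obtain ⟨x, ⟨i, hi⟩⟩ := s
          obtain ⟨q, rfl⟩ := e.surjective x
          change (⟨e (e.symm (e q)), ⟨i, le_rfl⟩⟩ : (Σ x : (Σ t : Fin n, Fin (c t)),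
            {i : Fin n // w i ≤ w x.1})) = _
          rw [Equiv.symm_apply_apply] }
    let g : Fin (m * n) ≃ (Σ x : (Σ t : Fin n, Fin (c t)), {i : Fin n // w i ≤ w x.1}) :=
      (eb m n).symm.trans g2
    refine (orbTenS_iff g (T' := dT y (ω 0 E) m) fun D => ?_).2
      (dT_orb hess hn hE hexp h0 h1 (hω 0))
    rw [flagTen_apply, dT_apply, ← Equiv.prod_comp e]
    congr 1
    refine Finset.prod_congr rfl fun q _ => ?_
    have h2 : (fun r => D (g (eb m n (q, r)))) = fun r => D ⟨e q, ⟨r, le_rfl⟩⟩ := by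
      funext r
      congr 1
      change g2 ((eb m n).symm (eb m n (q, r))) = _
      rw [Equiv.symm_apply_apply]
      rfl
    rw [h2]
    let u : {i : Fin n // w i ≤ w (e q).1} ≃ Fin n :=
      { toFun := fun i => i.1
        invFun := fun i => ⟨i, le_rfl⟩
        left_inv := fun i => rfl
        right_inv := fun i => rfl }
    rw [← Matrix.det_submatrix_equiv_self u]
    congr 1
    ext r i
    simp only [sm, Matrix.submatrix_apply, Matrix.of_apply, gm]
    rw [dif_pos r.2]
    rfl
  · intro t σ hσ D D' hDD' hD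
    by_cases ht : t ≤ 0
    · have h2 : D' = ∑ i, α i D' • E i := hexp D'
      rw [h2]
      exact Submodule.sum_mem _ fun i _ =>
        Submodule.smul_mem _ _ (Submodule.subset_span ⟨i, ht, rfl⟩)
    · have h2 : fil E w t = ⊥ := by
        rw [fil, Submodule.span_eq_bot]
        rintro x ⟨i, hi, -⟩
        exact absurd hi ht
      rw [h2, Submodule.mem_bot] at hD ⊢
      ext x
      have h3 := hDD' (σ.symm x)
      rw [AlgEquiv.apply_symm_apply] at h3
      rw [h3, hD, Derivation.zero_apply, map_zero, Derivation.zero_apply]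

end

end Pool.Agent.Run7.h573.GIT
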