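import Pool.Agent.Run7.h573.GIT.Opt

/-!
# The first order condition for the optimal filtration, and sums of monotone weights
-/

set_option autoImplicit false
set_option linter.unusedSectionVars false

open Finset Function Filter Topology Pool.Agent.R908.Km Pool.Agent.N180.Cf

namespace Pool.Agent.Run7.h573.GIT

section First

variable {ι : Type*} [Fintype ι] [DecidableEq ι]

lemma wt_lin {a : ℕ} (w x : ι → ℝ) (ε s : ℝ) (I : Fin a ⊕ Fin a → ι) :
    wt (fun i => (w i + ε * x i) / s) I = (wt w I + ε * wt x I) / s := by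
  simp only [wt, ← Finset.sum_div, Finset.sum_add_distrib, ← Finset.mul_sum]
  ring

/-- **The first order condition.** -/
lemma first_order {a : ℕ} {P : (Fin a ⊕ Fin a → ι) → Prop} (hP : ∃ I, P I) {w : ι → ℝ} {γ : ℝ}
    (hw : nrm w ≤ 1) (hg : ∀ I, P I → γ ≤ wt w I)
    (hmax : ∀ (v : ι → ℝ) (δ : ℝ), nrm v ≤ 1 → (∀ I, P I → δ ≤ wt v I) → δ ≤ γ)
    {x : ι → ℝ} (hx : ∀ I, P I → wt w I = γ → γ * ∑ i, w i * x i < wt x I) : False := by
  classical
  set A : ℝ := ∑ i, w i * x i with hA
  set s : ℝ → ℝ := fun ε => 1 + ε * A + ε ^ 2 * nrm x / 2 with hs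
  have h1 : ∀ I : Fin a ⊕ Fin a → ι, P I → ∀ᶠ ε in 𝓝[>] (0 : ℝ),
      γ * s ε < wt w I + ε * wt x I := by
    intro I hI
    rcases (hg I hI).lt_or_eq with h2 | h2
    · have h3 : Continuous fun ε : ℝ => wt w I + ε * wt x I - γ * s ε := by
        rw [hs]
        fun_prop
      have h4 : (0 : ℝ) < wt w I + 0 * wt x I - γ * s 0 := by
        rw [hs]
        simp only
        linarith
      have h5 := (h3.tendsto 0).eventually (lt_mem_nhds h4)
      refine (h5.filter_mono nhdsWithin_le_nhds).mono fun ε hε => ?_
      linarith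
    · have h3 : Continuous fun ε : ℝ => wt x I - γ * A - γ * ε * nrm x / 2 := by fun_prop
      have h4 : (0 : ℝ) < wt x I - γ * A - γ * 0 * nrm x / 2 := by
        have := hx I hI h2.symm
        linarith
      have h5 := (h3.tendsto 0).eventually (lt_mem_nhds h4)
      filter_upwards [h5.filter_mono nhdsWithin_le_nhds, self_mem_nhdsWithin] with ε hε hε0
      have h6 : (0 : ℝ) < ε := hε0
      have h7 := mul_pos h6 hε
      rw [← h2, hs]
      simp only
      nlinarith
  have h2 : ∀ᶠ ε in 𝓝[>] (0 : ℝ), ∀ I : Fin a ⊕ Fin a → ι, P I →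
      γ * s ε < wt w I + ε * wt x I := by
    rw [eventually_all]
    intro I
    by_cases hI : P I
    · exact (h1 I hI).mono fun ε hε _ => hε
    · exact Eventually.of_forall fun ε h => absurd h hI
  have h3 : ∀ᶠ ε in 𝓝[>] (0 : ℝ), 0 < s ε := by
    have h4 : Continuous s := by
      rw [hs]
      fun_prop
    have h5 : (0 : ℝ) < s 0 := by
      rw [hs]
      simp
    exact ((h4.tendsto 0).eventually (lt_mem_nhds h5)).filter_mono nhdsWithin_le_nhds
  obtain ⟨ε, h4, h5⟩ := (h2.and h3).exists
  have h6 : nrm (fun i => (w i + ε * x i) / s ε) ≤ 1 := by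
    have h7 : nrm (fun i => (w i + ε * x i) / s ε) =
        (nrm w + 2 * ε * A + ε ^ 2 * nrm x) / s ε ^ 2 := by
      simp only [nrm, div_pow, ← Finset.sum_div]
      congr 1
      rw [hA, Finset.mul_sum, Finset.mul_sum, ← Finset.sum_add_distrib, ← Finset.sum_add_distrib]
      exact Finset.sum_congr rfl fun i _ => by ring
    rw [h7, div_le_one (by positivity)]
    have h8 : s ε ^ 2 = 1 + 2 * ε * A + ε ^ 2 * nrm x + (ε * A + ε ^ 2 * nrm x / 2) ^ 2 := by
      rw [hs]
      ring
    rw [h8]
    have h9 := sq_nonneg (ε * A + ε ^ 2 * nrm x / 2)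
    linarith
  have hne : (Finset.univ.filter P).Nonempty := by
    obtain ⟨I, hI⟩ := hP
    exact ⟨I, Finset.mem_filter.2 ⟨Finset.mem_univ _, hI⟩⟩
  obtain ⟨I0, hI0, hmin⟩ := Finset.exists_min_image _
    (fun I => wt (fun i => (w i + ε * x i) / s ε) I) hne
  have h7 := hmax (fun i => (w i + ε * x i) / s ε) (wt (fun i => (w i + ε * x i) / s ε) I0) h6
    (fun I hI => hmin I (Finset.mem_filter.2 ⟨Finset.mem_univ _, hI⟩))
  rw [wt_lin, div_le_iff₀ h5] at h7
  exact absurd (h4 I0 (Finset.mem_filter.1 hI0).2) (not_lt.2 h7)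

/-- sums with monotone weights -/
lemma layer {u v φ : ι → ℝ} (hφ : ∀ i, 0 ≤ φ i) (hanti : ∀ i j, u i ≤ u j → φ j ≤ φ i)
    (hv : ∀ t : ι, 0 < ∑ i with u i ≤ u t, v i) (hne : ∃ i, φ i ≠ 0) :
    0 < ∑ i, φ i * v i := by
  classical
  have key : ∀ (N : ℕ) (φ : ι → ℝ), (∀ i, 0 ≤ φ i) → (∀ i j, u i ≤ u j → φ j ≤ φ i) →
      (Finset.univ.filter fun i => φ i ≠ 0).card ≤ N → 0 ≤ ∑ i, φ i * v i ∧
        ((∃ i, φ i ≠ 0) → 0 < ∑ i, φ i * v i) := by
    intro N
    induction N with
    | zero =>
      intro φ h1 h2 h3
      have h4 : ∀ i, φ i = 0 := by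
        intro i
        by_contra h5
        have h6 : i ∈ Finset.univ.filter fun i => φ i ≠ 0 :=
          Finset.mem_filter.2 ⟨Finset.mem_univ _, h5⟩
        have h7 := Finset.card_pos.2 ⟨i, h6⟩
        omega
      refine ⟨?_, fun ⟨i, hi⟩ => absurd (h4 i) hi⟩
      rw [Finset.sum_eq_zero fun i _ => by rw [h4 i, zero_mul]]
    | succ N ih =>
      intro φ h1 h2 h3
      by_cases hex : ∃ i, φ i ≠ 0
      · obtain ⟨i0, hi0⟩ := hex
        obtain ⟨t, ht, hmax⟩ := Finset.exists_max_image (Finset.univ.filter fun i => φ i ≠ 0) u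
          ⟨i0, Finset.mem_filter.2 ⟨Finset.mem_univ _, hi0⟩⟩
        have ht0 : φ t ≠ 0 := (Finset.mem_filter.1 ht).2
        have htpos : 0 < φ t := lt_of_le_of_ne (h1 t) (Ne.symm ht0)
        have hsupp : ∀ i, φ i ≠ 0 ↔ u i ≤ u t := by
          intro i
          constructor
          · intro h
            exact hmax i (Finset.mem_filter.2 ⟨Finset.mem_univ _, h⟩)
          · intro h h0
            have h4 := h2 i t h
            rw [h0] at h4
            linarith
        set ψ : ι → ℝ := fun i => if u i ≤ u t then φ i - φ t else 0 with hψ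
        have h4 : ∀ i, φ i = ψ i + (if u i ≤ u t then φ t else 0) := by
          intro i
          rw [hψ]
          by_cases h5 : u i ≤ u t
          · simp only [if_pos h5]
            ring
          · simp only [if_neg h5]
            have h6 : ¬ φ i ≠ 0 := fun h7 => h5 ((hsupp i).1 h7)
            rw [not_not] at h6
            rw [h6, add_zero]
        have h5 : ∑ i, φ i * v i = ∑ i, ψ i * v i + φ t * ∑ i with u i ≤ u t, v i := by
          rw [Finset.sum_filter, Finset.mul_sum, ← Finset.sum_add_distrib]
          refine Finset.sum_congr rfl fun i _ => ?_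
          conv_lhs => rw [h4 i]
          split_ifs <;> ring
        have h6 : 0 ≤ ∑ i, ψ i * v i := by
          refine (ih ψ ?_ ?_ ?_).1
          · intro i
            rw [hψ]
            simp only
            split_ifs with h7
            · have := h2 i t h7
              linarith
            · exact le_rfl
          · intro i j hij
            rw [hψ]
            simp only
            split_ifs with h7 h8 h8
            · have := h2 i j hij
              linarith
            · exact absurd (hij.trans h7) h8
            · have := h2 i t h8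
              linarith
            · exact le_rfl
          · have h7 : (Finset.univ.filter fun i => ψ i ≠ 0) ⊂
                (Finset.univ.filter fun i => φ i ≠ 0) := by
              rw [Finset.ssubset_iff_of_subset]
              · refine ⟨t, ht, fun h8 => ?_⟩
                apply (Finset.mem_filter.1 h8).2
                rw [hψ]
                simp
              · intro i hi
                have h8 := (Finset.mem_filter.1 hi).2
                refine Finset.mem_filter.2 ⟨Finset.mem_univ _, ?_⟩
                rw [hsupp]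
                by_contra h9
                apply h8
                rw [hψ]
                exact if_neg h9
            have h8 := Finset.card_lt_card h7
            omega
        have h7 : 0 < φ t * ∑ i with u i ≤ u t, v i := mul_pos htpos (hv t)
        rw [h5]
        exact ⟨by linarith, fun _ => by linarith⟩
      · refine ⟨?_, fun h => absurd h hex⟩
        rw [not_exists] at hex
        rw [Finset.sum_eq_zero fun i _ => by rw [not_not.1 (hex i), zero_mul]]
  exact (key _ φ hφ hanti le_rfl).2 hne

end First

end Pool.Agent.Run7.h573.GIT
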