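import Pool.Agent.Run7.h573.GIT.Lev1

/-!
# Frames at a prime divisor which are adapted to a flag
-/

set_option autoImplicit false
set_option linter.overlappingInstances false
set_option linter.unusedSectionVars false
set_option linter.unusedTactic false
set_option maxHeartbeats 1000000

open FF Finset Function Pool.Agent.W619.PQ
  Pool.Agent.W619.TW Pool.Agent.W603.LV Pool.Agent.W824.PG
  Pool.Agent.Y174 Pool.Agent.Y174.OB

namespace Pool.Agent.Run7.h573.GIT

section

variable {k K : Type} [Field k] [CharZero k] [Field K] [Algebra k K] {n : ℕ}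

/-- an adapted frame with integral coordinates -/
structure IFr (v : Place k K) (i0 : Fin n) (D : Fin n → Derivation k K K)
    (lam : Fin n → Derivation k K K → K) : Prop where
  afr : AFr v i0 D
  exp : ∀ X, X = ∑ a, lam a X • D a
  reg : ∀ X, Pres v X → ∀ a, Ge v 0 (lam a X)
  lg : ∀ X, Lg v X → Ge v 1 (lam i0 X)

/-- a frame which is adapted to a part `P` of the flag -/
structure PFr (v : Place k K) (α : Fin n → (Derivation k K K →ₗ[K] K)) (w : Fin n → ℝ)
    (P : Finset (Fin n)) (i0 : Fin n) (D : Fin n → Derivation k K K)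
    (lam : Fin n → Derivation k K K → K) : Prop extends IFr v i0 D lam where
  low : ∀ b ∈ P, ∀ c, c ∉ P → w b ≤ w c
  van : ∀ b ∈ P, ∀ a, (a ∉ P ∨ w b < w a) → α b (D a) = 0

lemma exists_ifr (hess : Algebra.EssFiniteType k K) (hn : Algebra.trdeg k K = n)
    {v : Place k K} (hv : IsDivisorial v n) :
    ∃ (i0 : Fin n) (D : Fin n → Derivation k K K) (lam : Fin n → Derivation k K K → K),
      IFr v i0 D lam := by
  classical
  obtain ⟨y', F, i0, hy', hF, ht, hyr, hpres⟩ := Pool.Agent.W619.Y.pFRAME k K n hn
    (fun y hy => Pool.Agent.W824.PG.fin_adj hess y hy) v hv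
  have ht0 := ne_zero_of_ord ht
  have hlog : ∀ b, b ≠ i0 → Lg v (F b) := by
    intro b hb
    refine log_of_pres v _ (hpres b) ht0 ht ?_
    rw [hF, if_neg hb, zero_div]
    exact Or.inl rfl
  refine ⟨i0, F, fun a X => X (y' a), ⟨hpres, hlog⟩, fun X =>
    (Pool.Agent.W73.PG.PULL.expand y' hy' F hF X).symm, fun X hX a => hX _ (hyr a), ?_⟩
  intro X hX
  have h9 : Ge v 0 (X (y' i0) / y' i0) := hX _
  have h10 : Ge v 1 (y' i0) := Or.inr ht.ge
  have h11 := h9.mul h10
  rwa [div_mul_cancel₀ _ ht0, zero_add] at h11

lemma PFr.swap {v : Place k K} {α : Fin n → (Derivation k K K →ₗ[K] K)} {w : Fin n → ℝ}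
    {P : Finset (Fin n)} {i0 : Fin n} {D : Fin n → Derivation k K K}
    {lam : Fin n → Derivation k K K → K} (h : PFr v α w P i0 D lam) {j β : Fin n} (hj : j ∉ P)
    (hβ : β ∉ P) : PFr v α w P (Equiv.swap j β i0) (fun a => D (Equiv.swap j β a))
      (fun a => lam (Equiv.swap j β a)) := by
  have hP : ∀ a, Equiv.swap j β a ∉ P ↔ a ∉ P := by
    intro a
    by_cases h1 : a = j
    · rw [h1, Equiv.swap_apply_left]
      exact iff_of_true hβ hj
    by_cases h2 : a = β
    · rw [h2, Equiv.swap_apply_right]
      exact iff_of_true hj hβ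
    rw [Equiv.swap_apply_of_ne_of_ne h1 h2]
  have hP' : ∀ a ∈ P, Equiv.swap j β a = a := by
    intro a ha
    refine Equiv.swap_apply_of_ne_of_ne ?_ ?_
    · rintro rfl
      exact hj ha
    · rintro rfl
      exact hβ ha
  refine ⟨⟨⟨fun a => h.afr.1 _, fun a ha => h.afr.2 _ fun h1 => ha ?_⟩, fun X => ?_,
    fun X hX a => h.reg X hX _, fun X hX => ?_⟩, h.low, fun b hb a ha => ?_⟩
  · rw [← h1, Equiv.swap_apply_self]
  · conv_lhs => rw [h.exp X]
    exact (Equiv.sum_comp (Equiv.swap j β) fun a => lam a X • D a).symm
  · rw [Equiv.swap_apply_self]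
    exact h.lg X hX
  · by_cases h1 : a ∈ P
    · rw [hP' a h1]
      exact h.van b hb a ha
    · exact h.van b hb _ (Or.inl ((hP a).2 h1))

lemma PFr.elim {v : Place k K} {α : Fin n → (Derivation k K K →ₗ[K] K)} {w : Fin n → ℝ}
    {P : Finset (Fin n)} {i0 : Fin n} {D : Fin n → Derivation k K K}
    {lam : Fin n → Derivation k K K → K} (h : PFr v α w P i0 D lam) {β : Fin n}
    (hβ : β ∉ P) (hlow : ∀ c, c ∉ P → w β ≤ w c) (hpiv : α β (D β) ≠ 0)
    (hc : ∀ a, a ∉ P → a ≠ β → Ge v 0 (α β (D a) / α β (D β)))
    (hc' : β = i0 → ∀ a, a ∉ P → a ≠ β → Ge v 1 (α β (D a) / α β (D β))) :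
    ∃ (D' : Fin n → Derivation k K K) (lam' : Fin n → Derivation k K K → K),
      PFr v α w (insert β P) i0 D' lam' := by
  classical
  let c : Fin n → K := fun a => if a ∉ P ∧ a ≠ β then α β (D a) / α β (D β) else 0
  have hc0 : ∀ a, Ge v 0 (c a) := by
    intro a
    change Ge v 0 (if a ∉ P ∧ a ≠ β then α β (D a) / α β (D β) else 0)
    split_ifs with h1
    · exact hc a h1.1 h1.2
    · exact Or.inl rfl
  have hc1 : β = i0 → ∀ a, Ge v 1 (c a) := by
    intro h0 a
    change Ge v 1 (if a ∉ P ∧ a ≠ β then α β (D a) / α β (D β) else 0)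
    split_ifs with h1
    · exact hc' h0 a h1.1 h1.2
    · exact Or.inl rfl
  have hcβ : c β = 0 := if_neg fun h1 => h1.2 rfl
  have hcP : ∀ a ∈ P, c a = 0 := fun a ha => if_neg fun h1 => h1.1 ha
  refine ⟨fun a => D a - c a • D β, fun a X => if a = β then lam β X + ∑ i, c i * lam i X
    else lam a X, ⟨⟨⟨fun a => ?_, fun a ha => ?_⟩, fun X => ?_, fun X hX a => ?_,
      fun X hX => ?_⟩, fun b hb c' hc'' => ?_, fun b hb a ha => ?_⟩⟩
  · exact RA.pres_sub (h.afr.1 a) (RA.pres_reg_smul (h.afr.1 β) (hc0 a))
  · refine RA.lg_sub (h.afr.2 a ha) ?_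
    by_cases h1 : β = i0
    · exact RA.lg_smul (h.afr.1 β) (hc1 h1 a)
    · exact RA.lg_reg_smul (h.afr.2 β h1) (hc0 a)
  · have h1 : ∑ a, (if a = β then lam β X + ∑ i, c i * lam i X else lam a X) •
        (D a - c a • D β) = ∑ a, lam a X • (D a - c a • D β) + (∑ i, c i * lam i X) • D β := by
      rw [← Finset.add_sum_erase Finset.univ _ (Finset.mem_univ β),
        ← Finset.add_sum_erase Finset.univ (fun a => lam a X • (D a - c a • D β))
          (Finset.mem_univ β), if_pos rfl]
      have h2 : ∑ a ∈ Finset.univ.erase β, (if a = β then lam β X + ∑ i, c i * lam i X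
          else lam a X) • (D a - c a • D β) =
          ∑ a ∈ Finset.univ.erase β, lam a X • (D a - c a • D β) := by
        refine Finset.sum_congr rfl fun a ha => ?_
        rw [if_neg (Finset.ne_of_mem_erase ha)]
      rw [h2, hcβ, zero_smul, sub_zero, add_smul]
      abel
    refine Eq.trans ?_ h1.symm
    have h3 : ∑ a, lam a X • (D a - c a • D β) =
        ∑ a, lam a X • D a - (∑ i, c i * lam i X) • D β := by
      rw [Finset.sum_smul, ← Finset.sum_sub_distrib]
      refine Finset.sum_congr rfl fun a _ => ?_
      rw [smul_sub, smul_smul, mul_comm]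
    rw [h3, ← h.exp X, sub_add_cancel]
  · split_ifs
    · refine (h.reg X hX β).add (Ge.sum _ _ fun i _ => ?_)
      have h1 := (hc0 i).mul (h.reg X hX i)
      rwa [zero_add] at h1
    · exact h.reg X hX a
  · split_ifs with h1
    · have h2 := h.lg X hX
      rw [h1] at h2
      refine h2.add (Ge.sum _ _ fun i _ => ?_)
      have h3 := (hc1 h1.symm i).mul (h.reg X hX.pres i)
      rwa [add_zero] at h3
    · exact h.lg X hX
  · rw [Finset.mem_insert] at hb
    have h1 : c' ∉ P := fun h2 => hc'' (Finset.mem_insert_of_mem h2)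
    rcases hb with rfl | hb
    · exact hlow _ h1
    · exact h.low b hb _ h1
  · rw [map_sub, map_smul, smul_eq_mul]
    rw [Finset.mem_insert] at hb
    rcases hb with rfl | hb
    · -- the new form
      rcases ha with ha | ha
      · have h1 : a ∉ P ∧ a ≠ b := by
          constructor
          · exact fun h2 => ha (Finset.mem_insert_of_mem h2)
          · rintro rfl
            exact ha (Finset.mem_insert_self _ _)
        have h2 : c a = α b (D a) / α b (D b) := if_pos h1
        rw [h2, div_mul_cancel₀ _ hpiv, sub_self]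
      · by_cases h1 : a ∈ P
        · exact absurd ha (not_lt.2 (h.low a h1 b hβ))
        · have h2 : a ≠ b := by
            rintro rfl
            exact lt_irrefl _ ha
          have h3 : c a = α b (D a) / α b (D b) := if_pos ⟨h1, h2⟩
          rw [h3, div_mul_cancel₀ _ hpiv, sub_self]
    · have h1 : α b (D β) = 0 := h.van b hb β (Or.inl hβ)
      rw [h1, mul_zero, sub_zero]
      refine h.van b hb a ?_
      rcases ha with ha | ha
      · exact Or.inl fun h2 => ha (Finset.mem_insert_of_mem h2)
      · exact Or.inr ha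

/-- **Frames which are adapted to a flag.** -/
theorem exists_flag_frame (hess : Algebra.EssFiniteType k K) (hn : Algebra.trdeg k K = n)
    {v : Place k K} (hv : IsDivisorial v n) {f : Fin n → Derivation k K K}
    {α : Fin n → (Derivation k K K →ₗ[K] K)} (hαf : ∀ i j, α i (f j) = if i = j then 1 else 0)
    (w : Fin n → ℝ) :
    ∃ (i0 : Fin n) (D : Fin n → Derivation k K K) (lam : Fin n → Derivation k K K → K),
      IFr v i0 D lam ∧ ∀ a b, w b < w a → α b (D a) = 0 := by
  classical
  have key : ∀ N : ℕ, N ≤ n → ∃ (P : Finset (Fin n)) (i0 : Fin n)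
      (D : Fin n → Derivation k K K) (lam : Fin n → Derivation k K K → K), P.card = N ∧
        PFr v α w P i0 D lam := by
    intro N
    induction N with
    | zero =>
      intro _
      obtain ⟨i0, D, lam, h⟩ := exists_ifr hess hn hv
      exact ⟨∅, i0, D, lam, rfl, h, fun b hb => absurd hb (Finset.notMem_empty b),
        fun b hb => absurd hb (Finset.notMem_empty b)⟩
    | succ N ih =>
      intro hN
      obtain ⟨P, i0, D, lam, hcard, h⟩ := ih (by omega)
      have hne : (Finset.univ \ P).Nonempty := by
        rw [← Finset.card_pos, Finset.card_sdiff_of_subset (Finset.subset_univ P),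
          Finset.card_univ, Fintype.card_fin]
        omega
      obtain ⟨β, hβ, hmin⟩ := Finset.exists_min_image _ w hne
      have hβP : β ∉ P := (Finset.mem_sdiff.1 hβ).2
      have hlow : ∀ c, c ∉ P → w β ≤ w c := fun c hc =>
        hmin c (Finset.mem_sdiff.2 ⟨Finset.mem_univ _, hc⟩)
      -- a pivot exists
      have hpiv : ∃ j, j ∉ P ∧ α β (D j) ≠ 0 := by
        by_contra hcon
        push Not at hcon
        have h1 : (Matrix.of fun i a => lam a (f i)) * (Matrix.of fun a j => α j (D a)) = 1 := by
          ext i j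
          rw [Matrix.mul_apply, Matrix.one_apply]
          have h2 := congrArg (α j) (h.exp (f i))
          rw [hαf, map_sum] at h2
          simp only [map_smul, smul_eq_mul] at h2
          have h3 : (if j = i then (1 : K) else 0) = if i = j then 1 else 0 := by
            by_cases h4 : i = j
            · rw [if_pos h4.symm, if_pos h4]
            · rw [if_neg (Ne.symm h4), if_neg h4]
          rw [← h3]
          exact h2.symm
        have h2 : (Matrix.of fun a j => α j (D a)).det = 0 := by
          rw [Matrix.det_apply]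
          refine Finset.sum_eq_zero fun σ _ => ?_
          obtain ⟨i, hi, hσ⟩ : ∃ i ∈ insert β P, σ i ∉ P := by
            by_contra h3
            push Not at h3
            have h4 := Finset.card_le_card_of_injOn σ h3 (σ.injective.injOn)
            rw [Finset.card_insert_of_notMem hβP] at h4
            omega
          rw [Finset.prod_eq_zero (Finset.mem_univ i), smul_zero]
          rw [Matrix.of_apply]
          rw [Finset.mem_insert] at hi
          rcases hi with rfl | hi
          · exact hcon _ hσ
          · exact h.van i hi _ (Or.inl hσ)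
        have h3 := congrArg Matrix.det h1
        rw [Matrix.det_mul, h2, mul_zero, Matrix.det_one] at h3
        exact zero_ne_one h3
      obtain ⟨j1, hj1, hj1'⟩ := hpiv
      obtain ⟨j, hj, hjmin⟩ := Finset.exists_min_image
        ((Finset.univ \ P).filter fun a => α β (D a) ≠ 0)
        (fun a => 2 * v.ord (α β (D a)) + (if a = i0 then 1 else 0))
        ⟨j1, Finset.mem_filter.2 ⟨Finset.mem_sdiff.2 ⟨Finset.mem_univ _, hj1⟩, hj1'⟩⟩
      have hjP : j ∉ P := (Finset.mem_sdiff.1 (Finset.mem_filter.1 hj).1).2
      have hj0 : α β (D j) ≠ 0 := (Finset.mem_filter.1 hj).2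
      have hq : ∀ a, a ∉ P → Ge v 0 (α β (D a) / α β (D j)) ∧
          (j = i0 → a ≠ j → Ge v 1 (α β (D a) / α β (D j))) := by
        intro a ha
        by_cases h0 : α β (D a) = 0
        · rw [h0, zero_div]
          exact ⟨Or.inl rfl, fun _ _ => Or.inl rfl⟩
        have h1 := hjmin a (Finset.mem_filter.2 ⟨Finset.mem_sdiff.2 ⟨Finset.mem_univ _, ha⟩, h0⟩)
        constructor
        · right
          rw [v.ord_div h0 hj0]
          split_ifs at h1 <;> omega
        · intro h2 h3
          right
          rw [v.ord_div h0 hj0]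
          rw [if_pos h2, if_neg (fun h4 => h3 (h4.trans h2.symm))] at h1
          omega
      have h1 := h.swap hjP hβP
      have hs : Equiv.swap j β β = j := Equiv.swap_apply_right _ _
      obtain ⟨D', lam', h2⟩ := h1.elim hβP hlow (by
        change α β (D (Equiv.swap j β β)) ≠ 0
        rw [hs]
        exact hj0) (fun a ha haβ => by
          change Ge v 0 (α β (D (Equiv.swap j β a)) / α β (D (Equiv.swap j β β)))
          rw [hs]
          refine (hq _ ?_).1
          by_cases h3 : a = j
          · rw [h3, Equiv.swap_apply_left]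
            exact hβP
          · rw [Equiv.swap_apply_of_ne_of_ne h3 haβ]
            exact ha) (fun h0 a ha haβ => by
          change Ge v 1 (α β (D (Equiv.swap j β a)) / α β (D (Equiv.swap j β β)))
          rw [hs]
          have h3 : j = i0 := by
            have h4 := congrArg (Equiv.swap j β) h0
            rw [hs, Equiv.swap_apply_self] at h4
            exact h4
          refine (hq _ ?_).2 h3 ?_
          · by_cases h4 : a = j
            · rw [h4, Equiv.swap_apply_left]
              exact hβP
            · rw [Equiv.swap_apply_of_ne_of_ne h4 haβ]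
              exact ha
          · intro h4
            apply haβ
            have h5 := congrArg (Equiv.swap j β) h4
            rw [Equiv.swap_apply_self, Equiv.swap_apply_left] at h5
            exact h5)
      exact ⟨_, _, D', lam', by rw [Finset.card_insert_of_notMem hβP, hcard], h2⟩
  obtain ⟨P, i0, D, lam, hcard, h⟩ := key n le_rfl
  have hP : P = Finset.univ := Finset.eq_univ_of_card P (by rw [hcard, Fintype.card_fin])
  exact ⟨i0, D, lam, h.toIFr, fun a b hab => h.van b (by rw [hP]; exact Finset.mem_univ _) a
    (Or.inr hab)⟩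

end

end Pool.Agent.Run7.h573.GIT
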