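import Pool.Agent.Run7.h573.GIT.Fil

/-!
# The tensor ideal and the algebra of tensors of a graded family of sets of tensors
-/

set_option autoImplicit false
set_option linter.unusedSectionVars false

open Finset Function Pool.Agent.R908.Km Pool.Agent.N180.Cf

namespace Pool.Agent.Run7.h573.GIT

section Tau

variable {K : Type*} [Field K] {ι : Type*} [Fintype ι] [DecidableEq ι]

lemma tau_prm' {S : Type*} [DecidableEq S] (π : Equiv.Perm S) (s t : S) (z : (S → ι) → K) :
    tau (π s) (π t) (prm π z) = prm π (tau s t z) := by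
  funext I
  rw [tau, prm, tau]
  have h1 : ∀ q : ι, update (update I (π s) q) (π t) q ∘ π =
      update (update (I ∘ π) s q) t q := by
    intro q
    funext r
    by_cases h2 : r = t
    · subst h2
      rw [Function.comp_apply, update_self, update_self]
    · rw [Function.comp_apply, update_of_ne (fun h3 => h2 (π.injective h3)), update_of_ne h2]
      by_cases h3 : r = s
      · subst h3
        rw [update_self, update_self]
      · rw [update_of_ne (fun h4 => h3 (π.injective h4)), update_of_ne h3]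
        rfl
  have h2 : ∀ q : ι, prm π z (update (update I (π s) q) (π t) q) =
      z (update (update (I ∘ π) s q) t q) := by
    intro q
    rw [prm, h1]
  rw [Finset.sum_congr rfl (fun q _ => h2 q)]
  rfl

lemma tau_zero' {a : ℕ} (z : (Fin (a + 1) ⊕ Fin (a + 1) → ι) → K) :
    tau (Sum.inl 0) (Sum.inr 0) z = ins (cz z) := by
  funext I
  rw [tau, ins]
  have h1 : ∀ q : ι, update (update I (Sum.inl 0) q) (Sum.inr 0) q =
      ext q q (Pool.Agent.R908.Km.rest I) := by
    intro q
    funext r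
    rcases r with r | r
    · rw [update_of_ne (by simp)]
      refine Fin.cases ?_ (fun r => ?_) r
      · rw [update_self, ext_inl_zero]
      · rw [update_of_ne (by simp), ext_inl_succ]
        rfl
    · refine Fin.cases ?_ (fun r => ?_) r
      · rw [update_self, ext_inr_zero]
      · rw [update_of_ne (by simp), update_of_ne (by simp), ext_inr_succ]
        rfl
  simp only [h1]
  rfl

lemma tau_symm' {a : ℕ} (s t : Fin a ⊕ Fin a) (hst : s ≠ t) (z : (Fin a ⊕ Fin a → ι) → K) :
    tau s t z = tau t s z := by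
  funext I
  rw [tau, tau]
  have h1 : ∀ q : ι, update (update I s q) t q = update (update I t q) s q :=
    fun q => update_comm hst q q I
  simp only [h1, eq_comm]

end Tau

/-- A graded family of sets of tensors which is stable under the operations. -/
structure GFam (K : Type*) [Field K] (ι : Type*) [Fintype ι] [DecidableEq ι] (W : Type*)
    [AddCommMonoid W] where
  /-- the sets -/
  S : W → ∀ a : ℕ, Set ((Fin a ⊕ Fin a → ι) → K)
  /-- the degrees of the ideal -/
  P : Set W
  P_add : ∀ {w w' : W}, w ∈ P → w + w' ∈ P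
  zero : ∀ {w : W}, w ∈ P → ∀ {z : (Fin 0 ⊕ Fin 0 → ι) → K}, z ∈ S w 0 → z = 0
  prm_mem : ∀ {w : W} {a : ℕ} {z : (Fin a ⊕ Fin a → ι) → K} (π : Equiv.Perm (Fin a ⊕ Fin a)),
    (∀ s, (π s).isLeft = s.isLeft) → z ∈ S w a → prm π z ∈ S w a
  cz_mem : ∀ {w : W} {a : ℕ} {z : (Fin (a + 1) ⊕ Fin (a + 1) → ι) → K}, z ∈ S w (a + 1) →
    cz z ∈ S w a
  ins_mem : ∀ {w : W} {a : ℕ} {z : (Fin a ⊕ Fin a → ι) → K}, z ∈ S w a → ins z ∈ S w (a + 1)
  mul_mem : ∀ {w w' : W} {a b : ℕ} {z : (Fin a ⊕ Fin a → ι) → K} {z' : (Fin b ⊕ Fin b → ι) → K},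
    z ∈ S w a → z' ∈ S w' b → tmul z z' ∈ S (w + w') (a + b)

namespace GFam

variable {K : Type*} [Field K] {ι : Type*} [Fintype ι] [DecidableEq ι] {W : Type*}
  [AddCommMonoid W] (G : GFam K ι W)

/-- the span of the tensors of the degrees in `Q` -/
def sp (Q : Set W) (a : ℕ) : Submodule K ((Fin a ⊕ Fin a → ι) → K) :=
  Submodule.span K {z | ∃ w ∈ Q, z ∈ G.S w a}

variable {G}

lemma mem_sp {Q : Set W} {a : ℕ} {w : W} (hw : w ∈ Q) {z : (Fin a ⊕ Fin a → ι) → K}
    (hz : z ∈ G.S w a) : z ∈ G.sp Q a := Submodule.subset_span ⟨w, hw, hz⟩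

lemma sp_mono {Q Q' : Set W} (h : Q ⊆ Q') (a : ℕ) : G.sp Q a ≤ G.sp Q' a :=
  Submodule.span_mono fun _ ⟨w, hw, hz⟩ => ⟨w, h hw, hz⟩

lemma sp_lin {Q Q' : Set W} {a b : ℕ}
    (f : ((Fin a ⊕ Fin a → ι) → K) → ((Fin b ⊕ Fin b → ι) → K)) (h0 : f 0 = 0)
    (hadd : ∀ x y, f (x + y) = f x + f y) (hsmul : ∀ (c : K) x, f (c • x) = c • f x)
    (hf : ∀ w ∈ Q, ∀ z ∈ G.S w a, f z ∈ G.sp Q' b) {z : (Fin a ⊕ Fin a → ι) → K}
    (hz : z ∈ G.sp Q a) : f z ∈ G.sp Q' b := by
  refine Submodule.span_induction (p := fun z _ => f z ∈ G.sp Q' b) ?_ ?_ ?_ ?_ hz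
  · rintro z ⟨w, hw, hz⟩
    exact hf w hw z hz
  · rw [h0]
    exact Submodule.zero_mem _
  · intro x y _ _ hx hy
    rw [hadd]
    exact Submodule.add_mem _ hx hy
  · intro c x _ hx
    rw [hsmul]
    exact Submodule.smul_mem _ _ hx

lemma sp_prm {Q : Set W} {a : ℕ} (π : Equiv.Perm (Fin a ⊕ Fin a))
    (hπ : ∀ s, (π s).isLeft = s.isLeft) {z : (Fin a ⊕ Fin a → ι) → K} (hz : z ∈ G.sp Q a) :
    prm π z ∈ G.sp Q a :=
  sp_lin (prm π) rfl (fun _ _ => rfl) (fun _ _ => rfl)
    (fun _ hw _ hz => mem_sp hw (G.prm_mem π hπ hz)) hz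

lemma sp_cz {Q : Set W} {a : ℕ} {z : (Fin (a + 1) ⊕ Fin (a + 1) → ι) → K}
    (hz : z ∈ G.sp Q (a + 1)) : cz z ∈ G.sp Q a :=
  sp_lin cz (by funext I; simp [cz]) (fun x y => by
    funext I
    simp only [cz, Pi.add_apply, Finset.sum_add_distrib]) (fun c x => by
    funext I
    simp only [cz, Pi.smul_apply, smul_eq_mul, Finset.mul_sum])
    (fun _ hw _ hz => mem_sp hw (G.cz_mem hz)) hz

lemma sp_ins {Q : Set W} {a : ℕ} {z : (Fin a ⊕ Fin a → ι) → K}
    (hz : z ∈ G.sp Q a) : ins z ∈ G.sp Q (a + 1) :=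
  sp_lin ins (by funext I; simp [ins]) (fun x y => by
    funext I
    simp only [ins, Pi.add_apply]
    split_ifs <;> simp) (fun c x => by
    funext I
    simp only [ins, Pi.smul_apply, smul_eq_mul]
    split_ifs <;> simp)
    (fun _ hw _ hz => mem_sp hw (G.ins_mem hz)) hz

lemma sp_mul {Q Q' Q'' : Set W} (hQ : ∀ w ∈ Q, ∀ w' ∈ Q', w + w' ∈ Q'') {a b : ℕ}
    {z : (Fin a ⊕ Fin a → ι) → K} {z' : (Fin b ⊕ Fin b → ι) → K}
    (hz : z ∈ G.sp Q a) (hz' : z' ∈ G.sp Q' b) : tmul z z' ∈ G.sp Q'' (a + b) := by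
  refine sp_lin (Q := Q) (Q' := Q'') (fun z => tmul z z') (by funext I; simp [tmul])
    (fun x y => by funext I; simp only [tmul, Pi.add_apply]; ring)
    (fun c x => by funext I; simp only [tmul, Pi.smul_apply, smul_eq_mul]; ring) ?_ hz
  intro w hw z hz
  refine sp_lin (Q := Q') (Q' := Q'') (fun z' => tmul z z') (by funext I; simp [tmul])
    (fun x y => by funext I; simp only [tmul, Pi.add_apply]; ring)
    (fun c x => by funext I; simp only [tmul, Pi.smul_apply, smul_eq_mul]; ring) ?_ hz'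
  intro w' hw' z' hz'
  exact mem_sp (hQ w hw w' hw') (G.mul_mem hz hz')

lemma sp_tau {Q : Set W} {a : ℕ} {z : (Fin a ⊕ Fin a → ι) → K} (hz : z ∈ G.sp Q a)
    (i j : Fin a) : tau (Sum.inl i) (Sum.inr j) z ∈ G.sp Q a := by
  classical
  cases a with
  | zero => exact i.elim0
  | succ a =>
    set π : Equiv.Perm (Fin (a + 1) ⊕ Fin (a + 1)) :=
      Equiv.sumCongr (Equiv.swap 0 i) (Equiv.swap 0 j) with hπ
    have hl : ∀ s, (π s).isLeft = s.isLeft := by
      rintro (s | s) <;> rfl
    have hl' : ∀ s, (π.symm s).isLeft = s.isLeft := by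
      rintro (s | s) <;> rfl
    have h1 : π (Sum.inl 0) = Sum.inl i := by
      change Sum.inl (Equiv.swap 0 i 0) = _
      rw [Equiv.swap_apply_left]
    have h2 : π (Sum.inr 0) = Sum.inr j := by
      change Sum.inr (Equiv.swap 0 j 0) = _
      rw [Equiv.swap_apply_left]
    have h3 : prm π (prm π.symm z) = z := by
      funext I
      rw [prm, prm]
      congr 1
      funext s
      rw [Function.comp_apply, Function.comp_apply, Equiv.apply_symm_apply]
    have h4 := tau_prm' π (Sum.inl 0) (Sum.inr 0) (prm π.symm z)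
    rw [h3, h1, h2, tau_zero'] at h4
    rw [h4]
    exact sp_prm π hl (sp_ins (sp_cz (sp_prm π.symm hl' hz)))

variable (G)

/-- **The tensor ideal in the algebra of tensors.** -/
def toTP : TPair K ι where
  N := G.sp G.P
  A := G.sp Set.univ
  zero := by
    rw [eq_bot_iff]
    refine Submodule.span_le.2 ?_
    rintro z ⟨w, hw, hz⟩
    exact G.zero hw hz
  sw_mem := by
    intro a z s t hz hst hl
    refine sp_prm (Equiv.swap s t) (fun r => ?_) hz
    by_cases h1 : r = s
    · rw [h1, Equiv.swap_apply_left, hl]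
    by_cases h2 : r = t
    · rw [h2, Equiv.swap_apply_right, hl]
    · rw [Equiv.swap_apply_of_ne_of_ne h1 h2]
  tau_mem := by
    intro a z s t hz hl
    rcases s with i | i
    · rcases t with j | j
      · exact absurd rfl hl
      · exact sp_tau hz i j
    · rcases t with j | j
      · rw [tau_symm' _ _ (by simp)]
        exact sp_tau hz j i
      · exact absurd rfl hl
  cz_mem := fun hz => sp_cz hz
  ins_mem := fun hz => sp_ins hz
  mul_mem := fun hz hw => sp_mul (fun _ h _ _ => G.P_add h) hz hw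
  insA := fun hz => sp_ins hz
  mulA := fun hz hw => sp_mul (fun _ _ _ _ => Set.mem_univ _) hz hw
  mulN := fun hz hw => sp_mul (fun _ h _ _ => G.P_add h) hz hw

lemma toTP_le (a : ℕ) : G.toTP.N a ≤ G.toTP.A a := sp_mono (Set.subset_univ _) a

variable {G}

/-- semilinear maps -/
lemma sp_semi {Q : Set W} {a : ℕ} {σ : K →+* K} {u u' : Matrix ι ι K}
    (hS : ∀ w ∈ Q, ∀ z ∈ G.S w a, act (mm u u') (fun I => σ (z I)) ∈ G.sp Q a)
    {z : (Fin a ⊕ Fin a → ι) → K} (hz : z ∈ G.sp Q a) :
    act (mm u u') (fun I => σ (z I)) ∈ G.sp Q a := by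
  refine Submodule.span_induction
    (p := fun z _ => act (mm u u') (fun I => σ (z I)) ∈ G.sp Q a) ?_ ?_ ?_ ?_ hz
  · rintro z ⟨w, hw, hz⟩
    exact hS w hw z hz
  · have h1 : act (mm u u') (fun I => σ ((0 : (Fin a ⊕ Fin a → ι) → K) I)) = 0 := by
      funext I
      simp [act]
    rw [h1]
    exact Submodule.zero_mem _
  · intro x y _ _ hx hy
    have h1 : act (mm u u') (fun I => σ ((x + y) I)) =
        act (mm u u') (fun I => σ (x I)) + act (mm u u') (fun I => σ (y I)) := by
      rw [← act_add']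
      congr 1
      funext I
      rw [Pi.add_apply, map_add]
      rfl
    rw [h1]
    exact Submodule.add_mem _ hx hy
  · intro c x _ hx
    have h1 : act (mm u u') (fun I => σ ((c • x) I)) =
        σ c • act (mm u u') (fun I => σ (x I)) := by
      rw [← act_smul']
      congr 1
      funext I
      rw [Pi.smul_apply, smul_eq_mul, map_mul]
      rfl
    rw [h1]
    exact Submodule.smul_mem _ _ hx

end GFam

end Pool.Agent.Run7.h573.GIT
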