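import Pool.Agent.Run7.h573.GIT.Semi

/-!
# The canonical filtration of the orbifold tensors
-/

set_option autoImplicit false
set_option linter.overlappingInstances false
set_option linter.unusedSectionVars false
set_option maxHeartbeats 1000000

open FF Finset Function Pool.Agent.R908.Km Pool.Agent.N180.Cf Pool.Agent.W619.PQ
  Pool.Agent.W619.TW Pool.Agent.W603.LV Pool.Agent.W824.PG
  Pool.Agent.Y174 Pool.Agent.Y174.OB

namespace Pool.Agent.Run7.h573.GIT

section

variable {k K : Type} [Field k] [CharZero k] [Field K] [Algebra k K] {n : ℕ}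

/-- the multi-index -/
def bix {m : ℕ} (J : Fin m → Fin n) : Fin (m * n) ⊕ Fin (m * n) → Fin n :=
  Sum.elim (fun x => ((eb m n).symm x).2) (fun x => J ((eb m n).symm x).1)

lemma act_bix {V : Type*} [AddCommGroup V] [Module K V] {m : ℕ}
    (T : MultilinearMap K (fun _ : Fin m => V) K) (E : Fin n → V)
    (b b' : Matrix (Fin n) (Fin n) K) (J : Fin m → Fin n) :
    act (mm b b') (zt fun J => T fun s => E (J s)) (bix J) =
      b.det ^ m * T (fun s => ∑ j, b' j (J s) • E j) ^ n := by
  rw [act_zt T E]
  have h1 : ∀ q : Fin m, (fun r => bix (n := n) J (Sum.inl (eb m n (q, r)))) = id := by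
    intro q
    funext r
    rw [bix, Sum.elim_inl, Equiv.symm_apply_apply]
    rfl
  have h2 : ∀ (s : Fin m) (p : Fin n), bix J (Sum.inr (eb m n (s, p))) = J s := by
    intro s p
    rw [bix, Sum.elim_inr, Equiv.symm_apply_apply]
  simp only [h1, h2, eps_id, Finset.prod_const_one, mul_one, Finset.prod_const,
    Finset.card_univ, Fintype.card_fin]

lemma wt_bix {m : ℕ} (w : Fin n → ℝ) (J : Fin m → Fin n) :
    wt w (bix J) = m * ∑ i, w i - n * ∑ s, w (J s) := by
  rw [wt_blocks]
  have h1 : ∀ (q : Fin m) (r : Fin n), bix (n := n) J (Sum.inl (eb m n (q, r))) = r := by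
    intro q r
    rw [bix, Sum.elim_inl, Equiv.symm_apply_apply]
  have h2 : ∀ (s : Fin m) (p : Fin n), bix J (Sum.inr (eb m n (s, p))) = J s := by
    intro s p
    rw [bix, Sum.elim_inr, Equiv.symm_apply_apply]
  simp only [h1, h2, Finset.sum_const, Finset.card_univ, Fintype.card_fin, nsmul_eq_mul]

/-- raising the degree -/
lemma lift_mem (hess : Algebra.EssFiniteType k K) (hn : Algebra.trdeg k K = n) (hn1 : 1 ≤ n)
    {y : Fin n → K} {E : Fin n → Derivation k K K}
    (hE : ∀ i j, E i (y j) = if i = j then 1 else 0)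
    (hexp : ∀ D : Derivation k K K, D = ∑ b, D (y b) • E b) {δ : Place k K → ℝ}
    (hκ : ¬ PairKod k K n δ 0) {m N : ℕ} (hm : 1 ≤ m) (hmN : m ≤ N)
    {T : MultilinearMap K (fun _ : Fin m => Derivation k K K) K} (hT : OrbTen n δ T) :
    ∃ z' ∈ (gfam hess hn hE hκ).toTP.N (N * n), ∀ (b b' : Matrix (Fin n) (Fin n) K),
      b * b' = 1 → ∀ J : Fin m → Fin n, ∃ I' : Fin (N * n) ⊕ Fin (N * n) → Fin n,
        act (mm b b') z' I' = b.det ^ m * T (fun s => ∑ j, b' j (J s) • E j) ^ n ∧
          ∀ w : Fin n → ℝ, wt w I' = m * ∑ i, w i - n * ∑ s, w (J s) := by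
  have : Nonempty (Fin n) := ⟨⟨0, hn1⟩⟩
  have h1 : zt (fun J => T fun s => E (J s)) ∈ (gfam hess hn hE hκ).toTP.N (m * n) :=
    GFam.mem_sp (show m ∈ (gfam hess hn hE hκ).P from hm) (zt_mem hexp hT)
  obtain ⟨c, hc⟩ := Nat.exists_eq_add_of_le (Nat.mul_le_mul_right n hmN)
  rw [hc]
  obtain ⟨z', hz', h⟩ := exists_ins (fun a z hz => (gfam hess hn hE hκ).toTP.ins_mem hz) h1 c
  refine ⟨z', hz', fun b b' hb J => ?_⟩
  obtain ⟨I', h2, h3⟩ := h b b' hb (bix J)
  exact ⟨I', h2.trans (act_bix T E b b' J), fun w => (h3 w).trans (wt_bix w J)⟩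

lemma fl_add {b : Matrix (Fin n) (Fin n) K} {w : Fin n → ℝ} {t : ℝ} {x x' : Fin n → K}
    (hx : Fl b w t x) (hx' : Fl b w t x') : Fl b w t (x + x') := by
  intro i hi
  rw [Matrix.mulVec_add, Pi.add_apply] at hi
  by_cases h : b.mulVec x i = 0
  · rw [h, zero_add] at hi
    exact hx' i hi
  · exact hx i h

lemma fl_smul {b : Matrix (Fin n) (Fin n) K} {w : Fin n → ℝ} {t : ℝ} {x : Fin n → K} (c : K)
    (hx : Fl b w t x) : Fl b w t (c • x) := by
  intro i hi
  rw [Matrix.mulVec_smul, Pi.smul_apply, smul_eq_mul] at hi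
  exact hx i (right_ne_zero_of_mul hi)

/-- **The canonical filtration.** -/
theorem exists_canonical (hess : Algebra.EssFiniteType k K) (hn : Algebra.trdeg k K = n)
    (hn1 : 1 ≤ n) {δ : Place k K → ℝ} (hκ : ¬ PairKod k K n δ 0) (N : ℕ) :
    ∃ (f : Fin n → Derivation k K K) (w : Fin n → ℝ), Destab n δ N f w ∧
      ∀ t, BirStable δ (fil f w t) := by
  classical
  have hK0 : CharZero K := charZero_of_injective_algebraMap (algebraMap k K).injective
  obtain ⟨y, hy⟩ := Pool.Agent.W636.PG.exists_basis k K n hn
  obtain ⟨E, hE⟩ := Pool.Agent.W636.PG.exists_duals k K n y hy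
  have hexp := fun D : Derivation k K K => (Pool.Agent.W73.PG.PULL.expand y hy E hE D).symm
  have hEy : gm y E = 1 := by
    ext i j
    rw [gm, Matrix.of_apply, hE, Matrix.one_apply]
  set TP := (gfam hess hn hE hκ).toTP with hTP
  by_cases hne : ∃ z ∈ TP.N (N * n), z ≠ 0
  · obtain ⟨b, b', w, γ, hbb, hw0, hγ, hN, hA, hinv⟩ := exists_fil TP
      (gfam hess hn hE hκ).toTP_le hne
    have hbb' : b' * b = 1 := mul_eq_one_comm.1 hbb
    let f : Fin n → Derivation k K K := fun i => ∑ j, b' j i • E j
    have hfy : ∀ i j, f i (y j) = b' j i := by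
      intro i j
      change (∑ c, b' c i • E c) (y j) = _
      rw [Pool.Agent.W721.PG.EFF2.der_sum]
      simp [hE]
    have hf : ∀ D : Derivation k K K, D = ∑ i, (b.mulVec fun j => D (y j)) i • f i := by
      intro D
      conv_lhs => rw [hexp D]
      change _ = ∑ i, (b.mulVec fun j => D (y j)) i • ∑ j, b' j i • E j
      simp only [Finset.smul_sum, smul_smul]
      rw [Finset.sum_comm]
      refine Finset.sum_congr rfl fun j _ => ?_
      rw [← Finset.sum_smul]
      congr 1
      have h1 : b'.mulVec (b.mulVec fun j => D (y j)) j = D (y j) := by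
        rw [Matrix.mulVec_mulVec, hbb', Matrix.one_mulVec]
      rw [← h1]
      rw [Matrix.mulVec, dotProduct]
      exact Finset.sum_congr rfl fun i _ => mul_comm _ _
    have hmem : ∀ (t : ℝ) (D : Derivation k K K), D ∈ fil f w t ↔
        Fl b w t (fun j => D (y j)) := by
      intro t D
      constructor
      · intro hD
        refine Submodule.span_induction (p := fun D _ => Fl b w t (fun j => D (y j)))
          ?_ ?_ ?_ ?_ hD
        · rintro _ ⟨i, hi, rfl⟩ i' hi'
          have h1 : (fun j => f i (y j)) = fun j => b' j i := funext (hfy i)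
          have h2 : b.mulVec (fun j => b' j i) i' = (1 : Matrix (Fin n) (Fin n) K) i' i := by
            rw [← hbb]
            rfl
          rw [h1, h2, Matrix.one_apply] at hi'
          by_cases h3 : i' = i
          · rw [h3]
            exact hi
          · rw [if_neg h3] at hi'
            exact absurd rfl hi'
        · intro i hi
          have h1 : (fun j => (0 : Derivation k K K) (y j)) = 0 := rfl
          rw [h1, Matrix.mulVec_zero] at hi
          exact absurd rfl hi
        · intro D1 D2 _ _ h1 h2
          exact fl_add h1 h2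
        · intro c D1 _ h1
          exact fl_smul c h1
      · intro h
        rw [hf D]
        refine Submodule.sum_mem _ fun i _ => ?_
        by_cases h0 : (b.mulVec fun j => D (y j)) i = 0
        · rw [h0, zero_smul]
          exact Submodule.zero_mem _
        · exact Submodule.smul_mem _ _ (Submodule.subset_span ⟨i, h i h0, rfl⟩)
    refine ⟨f, w, ⟨?_, hw0, ?_⟩, ?_⟩
    · rw [Fintype.linearIndependent_iff]
      intro c hc
      have h1 : b'.mulVec c = 0 := by
        funext j
        have h2 := congrArg (fun D : Derivation k K K => D (y j)) hc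
        change (∑ i, c i • f i) (y j) = 0 at h2
        rw [Pool.Agent.W721.PG.EFF2.der_sum] at h2
        rw [Matrix.mulVec, dotProduct, Pi.zero_apply, ← h2]
        exact Finset.sum_congr rfl fun i _ => by rw [hfy, mul_comm]
      have h2 : c = 0 := by
        rw [← Matrix.one_mulVec c, ← hbb, ← Matrix.mulVec_mulVec, h1, Matrix.mulVec_zero]
      exact fun i => congrFun h2 i
    · intro m hm hmN T hT J hJ
      obtain ⟨z', hz', h⟩ := lift_mem hess hn hn1 hE hexp hκ hm hmN hT
      obtain ⟨I', h1, h2⟩ := h b b' hbb J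
      have h3 : act (mm b b') z' I' ≠ 0 := by
        rw [h1]
        refine mul_ne_zero (pow_ne_zero _ ?_) (pow_ne_zero _ hJ)
        intro h0
        have h4 := congrArg Matrix.det hbb
        rw [Matrix.det_mul, h0, zero_mul, Matrix.det_one] at h4
        exact zero_ne_one h4
      have h4 := hN z' hz' I' h3
      rw [h2, hw0, mul_zero, zero_sub] at h4
      have h5 : (n : ℝ) * ∑ s, w (J s) < 0 := by linarith
      by_contra h6
      rw [not_lt] at h6
      exact absurd h5 (not_lt.2 (mul_nonneg (Nat.cast_nonneg n) h6))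
    · intro t σ hσ D D' hDD' hD
      rw [hmem] at hD ⊢
      rw [cj_eq hDD']
      let U := gm y (fun j => cj σ (E j))
      let U' := (gm y fun i => cj σ.symm (E i)).map σ
      have hUU : U' * U = 1 := by
        rw [← hEy]
        exact (gm_cj hexp σ E).symm
      have hU0 : U.det ≠ 0 := by
        intro h0
        have h2 := congrArg Matrix.det hUU
        rw [Matrix.det_mul, h0, mul_zero, Matrix.det_one] at h2
        exact zero_ne_one h2
      have hst : ∀ (Q : Set ℕ) (a : ℕ), ∀ z ∈ (gfam hess hn hE hκ).sp Q a,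
          act (mm U.transpose U'.transpose) (fun I => σ (z I)) ∈ (gfam hess hn hE hκ).sp Q a := by
        intro Q a z hz
        refine GFam.sp_semi (σ := (σ : K →+* K)) (fun w' hw' z hz => ?_) hz
        have h1 := GFam.mem_sp (G := gfam hess hn hE hκ) hw' (SS_semi hexp hσ rfl hUU hz)
        have h2 := Submodule.smul_mem _ (U.det ^ w') h1
        rw [smul_smul, ← mul_pow, mul_inv_cancel₀ hU0, one_pow, one_smul] at h2
        exact h2
      have h1 := hinv σ.toRingEquiv U.transpose U'.transpose (hst _ _) (hst _ _) (by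
        rw [← Matrix.transpose_mul, hUU, Matrix.transpose_one]) t _ hD
      have h2 : (fun j => cj σ D (y j)) =
          U.transpose.mulVec (fun i => σ.toRingEquiv (D (y i))) := by
        funext c
        rw [cj_apply]
        have h3 : D (σ.symm (y c)) = ∑ j, D (y j) * E j (σ.symm (y c)) := by
          conv_lhs => rw [hexp D, Pool.Agent.W721.PG.EFF2.der_sum]
        rw [h3, map_sum, Matrix.mulVec, dotProduct]
        refine Finset.sum_congr rfl fun j _ => ?_
        rw [map_mul, mul_comm]
        rfl
      rw [h2]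
      exact h1
  · refine ⟨E, 0, ⟨Pool.Agent.Y174.SD.li_duals hE, by simp, ?_⟩, ?_⟩
    · intro m hm hmN T hT J hJ
      exfalso
      obtain ⟨z', hz', h⟩ := lift_mem hess hn hn1 hE hexp hκ hm hmN hT
      obtain ⟨I', h1, -⟩ := h 1 1 (one_mul 1) J
      have h2 : z' = 0 := by
        by_contra h3
        exact hne ⟨z', hz', h3⟩
      have h3 : (fun s => ∑ j, (1 : Matrix (Fin n) (Fin n) K) j (J s) • E j) =
          fun s => E (J s) := by
        funext s
        rw [Finset.sum_eq_single (J s)]
        · rw [Matrix.one_apply_eq, one_smul]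
        · intro j _ hj
          rw [Matrix.one_apply_ne hj, zero_smul]
        · intro h0
          exact absurd (Finset.mem_univ _) h0
      rw [h2, act_zero', h3, Matrix.det_one, one_pow, one_mul] at h1
      exact pow_ne_zero n hJ h1.symm
    · intro t σ _ D D' hDD' hD
      by_cases ht : t ≤ 0
      · rw [hexp D']
        exact Submodule.sum_mem _ fun i _ => Submodule.smul_mem _ _
          (Submodule.subset_span ⟨i, ht, rfl⟩)
      · have h1 : D = 0 := by
          have h2 : {D : Derivation k K K | ∃ i, t ≤ (0 : Fin n → ℝ) i ∧ D = E i} = ∅ := by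
            ext D
            simp only [Set.mem_ofPred_eq, Set.mem_empty_iff_false, iff_false, not_exists]
            rintro i ⟨h3, -⟩
            exact ht h3
          rw [fil, h2, Submodule.span_empty, Submodule.mem_bot] at hD
          exact hD
        have h2 : D' = 0 := by
          rw [cj_eq hDD', h1]
          ext f
          rw [cj_apply]
          simp
        rw [h2]
        exact Submodule.zero_mem _

end

end Pool.Agent.Run7.h573.GIT
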