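import Pool.Agent.Run7.h573.GIT.First
import Pool.Agent.Run7.h573.GIT.Main

/-!
# The optimal filtration of the orbifold tensors of one degree
-/

set_option autoImplicit false
set_option linter.overlappingInstances false
set_option linter.unusedSectionVars false
set_option maxHeartbeats 1000000

open FF Finset Function Pool.Agent.R908.Km Pool.Agent.N180.Cf Pool.Agent.W619.PQ
  Pool.Agent.W619.TW Pool.Agent.W603.LV Pool.Agent.W824.PG
  Pool.Agent.Y174 Pool.Agent.Y174.OB

namespace Pool.Agent.Run7.h573.GIT

section Cov

variable {R : Type*} [Field R] {n m : ℕ}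

/-- transformation of covariant tensors -/
def cov (M : Matrix (Fin n) (Fin n) R) (t : (Fin m → Fin n) → R) : (Fin m → Fin n) → R :=
  Pool.Agent.R908.Km.act (fun _ => M) t

lemma cov_apply (M : Matrix (Fin n) (Fin n) R) (t : (Fin m → Fin n) → R) (J : Fin m → Fin n) :
    cov M t J = ∑ J', (∏ s, M (J s) (J' s)) * t J' := rfl

lemma act_zt' (k k' : Matrix (Fin n) (Fin n) R) (t : (Fin m → Fin n) → R)
    (I : Fin (m * n) ⊕ Fin (m * n) → Fin n) :
    Pool.Agent.R908.Km.act (mm k k') (zt t) I =
      k.det ^ m * (∏ q, eps (fun r => I (Sum.inl (eb m n (q, r))))) *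
        ∏ p, cov k'.transpose t (fun s => I (Sum.inr (eb m n (s, p)))) := by
  have h1 := act_sep k k' (fun J : Fin (m * n) → Fin n => ∏ q, (eps (fun r =>
    J (eb m n (q, r))) : R)) (fun J => ∏ p, t (fun s => J (eb m n (s, p)))) I
  have h2 := sum_blocks (eb m n) k (fun _ J => (eps J : R)) (fun s => I (Sum.inl s))
  have h3 := sum_blocks ((Equiv.prodComm (Fin n) (Fin m)).trans (eb m n)) k'.transpose
    (fun _ J => t J) (fun s => I (Sum.inr s))
  have h4 : Pool.Agent.R908.Km.act (mm k k') (zt t) I =
      Pool.Agent.R908.Km.act (mm k k') (fun I => (fun J : Fin (m * n) → Fin n => ∏ q, (eps (fun r =>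
        J (eb m n (q, r))) : R)) (fun s => I (Sum.inl s)) * (fun J => ∏ p, t (fun s =>
          J (eb m n (s, p)))) (fun s => I (Sum.inr s))) I := rfl
  rw [h4, h1]
  congr 1
  refine h2.trans ?_
  rw [Finset.prod_congr rfl fun q _ => sum_eps k _, Finset.prod_mul_distrib,
    Finset.prod_const, Finset.card_univ, Fintype.card_fin]

lemma cov_cov (M N : Matrix (Fin n) (Fin n) R) (t : (Fin m → Fin n) → R) :
    cov M (cov N t) = cov (M * N) t := by
  funext J
  simp only [cov_apply, Finset.mul_sum]
  rw [Finset.sum_comm]
  refine Finset.sum_congr rfl fun J'' _ => ?_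
  have h1 : ∏ s, (M * N) (J s) (J'' s) = ∑ J' : Fin m → Fin n, ∏ s, (M (J s) (J' s) * N (J' s) (J'' s)) := by
    simp only [Matrix.mul_apply]
    exact Finset.prod_univ_sum (fun _ => Finset.univ) (fun s j => M (J s) j * N j (J'' s)) |>.trans (by
      rw [Fintype.piFinset_univ])
  rw [h1, Finset.sum_mul]
  refine Finset.sum_congr rfl fun J' _ => ?_
  rw [Finset.prod_mul_distrib]
  ring

lemma cov_one (t : (Fin m → Fin n) → R) : cov 1 t = t := by
  funext J
  rw [cov_apply, Finset.sum_eq_single J]
  · simp
  · intro J' _ hJ'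
    obtain ⟨s, hs⟩ := Function.ne_iff.1 hJ'
    rw [Finset.prod_eq_zero (Finset.mem_univ s), zero_mul]
    exact Matrix.one_apply_ne (Ne.symm hs)
  · intro h0
    exact absurd (Finset.mem_univ _) h0

lemma cov_ml {V : Type*} [AddCommGroup V] [Module R V]
    (T : MultilinearMap R (fun _ : Fin m => V) R) (E : Fin n → V)
    (M : Matrix (Fin n) (Fin n) R) :
    cov M (fun J => T fun s => E (J s)) = fun J => T fun s => ∑ j, M (J s) j • E j := by
  funext J
  exact sum_ml T E M J

/-- extension of the scalars -/
noncomputable def upt {K : Type*} [Field K] (t : (Fin m → Fin n) → K) :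
    (Fin m → Fin n) → AlgebraicClosure K := fun J => algebraMap K (AlgebraicClosure K) (t J)

lemma upt_cov {K : Type*} [Field K] (M : Matrix (Fin n) (Fin n) K) (t : (Fin m → Fin n) → K) :
    upt (cov M t) = cov (upm M) (upt t) := by
  funext J
  simp only [upt, cov_apply, map_sum, map_mul, map_prod, Matrix.map_apply]

lemma up_zt {K : Type*} [Field K] (t : (Fin m → Fin n) → K) : up (zt t) = zt (upt t) := by
  funext I
  simp only [up, zt, upt, map_mul, map_prod]
  congr 1
  refine Finset.prod_congr rfl fun q _ => ?_
  rw [eps, eps, RingHom.map_det]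
  congr 1
  ext i j
  rw [RingHom.mapMatrix_apply, Matrix.map_apply, Matrix.submatrix_apply, Matrix.submatrix_apply,
    Matrix.one_apply, Matrix.one_apply]
  split_ifs <;> simp

/-- the weights of the balanced tensor -/
lemma wt_zt {k k' : Matrix (Fin n) (Fin n) R} {t : (Fin m → Fin n) → R}
    {I : Fin (m * n) ⊕ Fin (m * n) → Fin n}
    (hI : Pool.Agent.R908.Km.act (mm k k') (zt t) I ≠ 0) (v : Fin n → ℝ) :
    Pool.Agent.R908.Km.wt v I = m * ∑ i, v i -
        ∑ p, ∑ s, v (I (Sum.inr (eb m n (s, p)))) ∧
      ∀ p, cov k'.transpose t (fun s => I (Sum.inr (eb m n (s, p)))) ≠ 0 := by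
  rw [act_zt'] at hI
  have h1 := left_ne_zero_of_mul hI
  have h2 := right_ne_zero_of_mul hI
  have h3 := right_ne_zero_of_mul h1
  rw [Finset.prod_ne_zero_iff] at h2 h3
  refine ⟨?_, fun p => h2 p (Finset.mem_univ _)⟩
  rw [wt_blocks]
  congr 1
  have h4 : ∀ q : Fin m, ∑ r, v (I (Sum.inl (eb m n (q, r)))) = ∑ i, v i := by
    intro q
    have h8 := eps_inj (h3 q (Finset.mem_univ _))
    have h9 := (Finite.injective_iff_bijective.1 h8)
    exact (Equiv.ofBijective _ h9).sum_comp v
  rw [Finset.sum_congr rfl fun q _ => h4 q]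
  simp

end Cov

section

variable {k K : Type} [Field k] [CharZero k] [Field K] [Algebra k K] {n : ℕ}

/-- The coordinates of the orbifold tensors of degree `m`. -/
def OT (n : ℕ) (δ : Place k K → ℝ) (m : ℕ) (E : Fin n → Derivation k K K) :
    Set ((Fin m → Fin n) → K) :=
  {t | ∃ T : MultilinearMap K (fun _ : Fin m => Derivation k K K) K, OrbTen n δ T ∧
    t = fun J => T fun s => E (J s)}

/-- the transformed tensor -/
noncomputable def cjT (σ : K ≃ₐ[k] K) {m : ℕ}
    (T : MultilinearMap K (fun _ : Fin m => Derivation k K K) K) :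
    MultilinearMap K (fun _ : Fin m => Derivation k K K) K where
  toFun D := σ (T fun s => cj σ.symm (D s))
  map_update_add' := by
    intro _ D s x y
    have h1 : ∀ x : Derivation k K K, (fun s' => cj σ.symm (update D s x s')) =
        update (fun s' => cj σ.symm (D s')) s (cj σ.symm x) := by
      intro x
      funext s'
      by_cases h : s' = s
      · subst h
        rw [update_self, update_self]
      · rw [update_of_ne h, update_of_ne h]
    have h2 : cj σ.symm (x + y) = cj σ.symm x + cj σ.symm y := by
      ext f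
      simp only [cj_apply, Derivation.add_apply, map_add]
    rw [h1, h1, h1, h2, T.map_update_add, map_add]
  map_update_smul' := by
    intro _ D s c x
    have h1 : ∀ x : Derivation k K K, (fun s' => cj σ.symm (update D s x s')) =
        update (fun s' => cj σ.symm (D s')) s (cj σ.symm x) := by
      intro x
      funext s'
      by_cases h : s' = s
      · subst h
        rw [update_self, update_self]
      · rw [update_of_ne h, update_of_ne h]
    have h2 : cj σ.symm (c • x) = σ.symm c • cj σ.symm x := by
      ext f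
      simp only [cj_apply, Derivation.smul_apply, smul_eq_mul, map_mul]
    rw [h1, h1, h2, T.map_update_smul, smul_eq_mul, map_mul, AlgEquiv.apply_symm_apply,
      smul_eq_mul]

lemma cjT_apply (σ : K ≃ₐ[k] K) {m : ℕ}
    (T : MultilinearMap K (fun _ : Fin m => Derivation k K K) K)
    (D : Fin m → Derivation k K K) : cjT σ T D = σ (T fun s => cj σ.symm (D s)) := rfl

lemma cjT_orb {δ : Place k K → ℝ} {σ : K ≃ₐ[k] K}
    (hσ : ∀ v v' : Place k K, (∀ f, v'.ord f = v.ord (σ f)) → δ v' = δ v) {m : ℕ}
    {T : MultilinearMap K (fun _ : Fin m => Derivation k K K) K} (hT : OrbTen n δ T) :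
    OrbTen n δ (cjT σ T) := by
  intro v hv S D hS hS'
  have hδ : δ (twP v σ) = δ v := hσ v _ fun _ => rfl
  have h1 := hT (twP v σ) (div_twP hv σ) S (fun s => cj σ.symm (D s)) (fun j hj f hf => by
    rw [reg_twP] at hf ⊢
    rw [cj_apply, AlgEquiv.apply_symm_apply]
    exact hS j hj _ hf) (fun j hj f => by
    rw [reg_twP, cj_apply, map_div₀, AlgEquiv.apply_symm_apply]
    exact hS' j hj _)
  have h2 : GeR (twP v σ) (-(S.card * δ v)) (T fun s => cj σ.symm (D s)) := by
    rw [← hδ]
    exact h1
  exact (geR_twP v σ _ _).2 h2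

/-- The optimal filtration of the orbifold tensors of degree `m`. -/
theorem level1 (hess : Algebra.EssFiniteType k K) (hn : Algebra.trdeg k K = n)
    (hn1 : 1 ≤ n) {δ : Place k K → ℝ} (hκ : ¬ PairKod k K n δ 0) {m : ℕ} (hm : 1 ≤ m)
    {T0 : MultilinearMap K (fun _ : Fin m => Derivation k K K) K} (hT0 : OrbTen n δ T0)
    (hT0' : T0 ≠ 0) :
    ∃ (f : Fin n → Derivation k K K) (α : Fin n → (Derivation k K K →ₗ[K] K)) (w : Fin n → ℝ)
      (γ : ℝ), (∀ i j, α i (f j) = if i = j then 1 else 0) ∧ (∀ D, D = ∑ i, α i D • f i) ∧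
      ∑ i, w i = 0 ∧ nrm w ≤ 1 ∧ 0 < γ ∧
      (∀ t ∈ OT n δ m f, ∀ J, t J ≠ 0 → γ ≤ -∑ s, w (J s)) ∧
      (∀ (l l' : Matrix (Fin n) (Fin n) (AlgebraicClosure K)) (v : Fin n → ℝ) (ε : ℝ),
        l * l' = 1 → nrm v ≤ 1 → (∀ t ∈ OT n δ m f, ∀ J, cov l'.transpose (upt t) J ≠ 0 →
          ε ≤ m / n * ∑ i, v i - ∑ s, v (J s)) → ε ≤ γ) ∧
      ∀ t, BirStable δ (fil f w t) := by
  classical
  have hK0 : CharZero K := charZero_of_injective_algebraMap (algebraMap k K).injective
  have hne1 : Nonempty (Fin n) := ⟨⟨0, hn1⟩⟩
  have hn0 : (0 : ℝ) < n := by exact_mod_cast hn1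
  obtain ⟨y, hy⟩ := Pool.Agent.W636.PG.exists_basis k K n hn
  obtain ⟨E, hE⟩ := Pool.Agent.W636.PG.exists_duals k K n y hy
  have hexp := fun D : Derivation k K K => (Pool.Agent.W73.PG.PULL.expand y hy E hE D).symm
  have hEy : gm y E = 1 := by
    ext i j
    rw [gm, Matrix.of_apply, hE, Matrix.one_apply]
  set N : Submodule K ((Fin (m * n) ⊕ Fin (m * n) → Fin n) → K) :=
    Submodule.span K {z | ∃ t ∈ OT n δ m E, z = zt t} with hN
  have hsub : N ≤ (gfam hess hn hE hκ).toTP.N (m * n) := by
    rw [hN, Submodule.span_le]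
    rintro _ ⟨_, ⟨T, hT, rfl⟩, rfl⟩
    exact GFam.mem_sp (show m ∈ (gfam hess hn hE hκ).P from hm) (zt_mem hexp hT)
  -- a nonzero element
  have hTE : ∃ J : Fin m → Fin n, (T0 fun s => E (J s)) ≠ 0 := by
    by_contra hcon
    apply hT0'
    ext D
    change T0 D = 0
    have h1 : D = fun s => ∑ j, D s (y j) • E j := by
      funext s
      exact hexp (D s)
    rw [h1, T0.map_sum]
    refine Finset.sum_eq_zero fun J _ => ?_
    rw [T0.map_smul_univ]
    rw [not_exists] at hcon
    rw [not_not.1 (hcon J), smul_zero]
  obtain ⟨J0, hJ0⟩ := hTE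
  have hztne : zt (fun J => T0 fun s => E (J s)) ≠ (0 : (Fin (m * n) ⊕ Fin (m * n) → Fin n) → K) := by
    intro h0
    have h1 := act_bix T0 E 1 1 J0
    rw [h0, act_zero'] at h1
    have h2 : (fun s => ∑ j, (1 : Matrix (Fin n) (Fin n) K) j (J0 s) • E j) =
        fun s => E (J0 s) := by
      funext s
      rw [Finset.sum_eq_single (J0 s)]
      · rw [Matrix.one_apply_eq, one_smul]
      · intro j _ hj
        rw [Matrix.one_apply_ne hj, zero_smul]
      · intro h0
        exact absurd (Finset.mem_univ _) h0
    rw [h2, Matrix.det_one, one_pow, one_mul] at h1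
    exact pow_ne_zero n hJ0 h1.symm
  obtain ⟨b, b', w, γ, hbb, hw0, hwn, hγ, hg, hmax, hinv⟩ := exists_fil2 (N := N)
    ⟨_, Submodule.subset_span ⟨_, ⟨T0, hT0, rfl⟩, rfl⟩, hztne⟩ (by
      obtain ⟨k₀, k₀', w₀, hk₀, h₀, -⟩ := (gfam hess hn hE hκ).toTP.hilbert_mumford
        (gfam hess hn hE hκ).toTP_le (m * n)
      exact ⟨k₀, k₀', w₀, hk₀, fun z hz I hI => h₀ z (hsub hz) I hI⟩)
  have hbb' : b' * b = 1 := mul_eq_one_comm.1 hbb
  let f : Fin n → Derivation k K K := fun i => ∑ j, b' j i • E j
  let α : Fin n → (Derivation k K K →ₗ[K] K) := fun i =>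
    { toFun := fun D => (b.mulVec fun j => D (y j)) i
      map_add' := fun D D' => by
        have h1 : (fun j => (D + D') (y j)) = (fun j => D (y j)) + fun j => D' (y j) := rfl
        rw [h1, Matrix.mulVec_add, Pi.add_apply]
      map_smul' := fun c D => by
        have h1 : (fun j => (c • D) (y j)) = c • fun j => D (y j) := rfl
        rw [h1, Matrix.mulVec_smul, Pi.smul_apply, RingHom.id_apply] }
  have hfy : ∀ i j, f i (y j) = b' j i := by
    intro i j
    change (∑ c, b' c i • E c) (y j) = _
    rw [Pool.Agent.W721.PG.EFF2.der_sum]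
    simp [hE]
  have hαf : ∀ i j, α i (f j) = if i = j then 1 else 0 := by
    intro i j
    change b.mulVec (fun c => f j (y c)) i = _
    have h1 : (fun c => f j (y c)) = fun c => b' c j := funext (hfy j)
    have h2 : b.mulVec (fun c => b' c j) i = (b * b') i j := rfl
    rw [h1, h2, hbb, Matrix.one_apply]
  have hf : ∀ D : Derivation k K K, D = ∑ i, α i D • f i := by
    intro D
    change D = ∑ i, (b.mulVec fun j => D (y j)) i • ∑ j, b' j i • E j
    conv_lhs => rw [hexp D]
    simp only [Finset.smul_sum, smul_smul]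
    rw [Finset.sum_comm]
    refine Finset.sum_congr rfl fun j _ => ?_
    rw [← Finset.sum_smul]
    congr 1
    have h1 : b'.mulVec (b.mulVec fun j => D (y j)) j = D (y j) := by
      rw [Matrix.mulVec_mulVec, hbb', Matrix.one_mulVec]
    rw [← h1]
    rw [Matrix.mulVec, dotProduct]
    exact Finset.sum_congr rfl fun i _ => mul_comm _ _
  have hTf : ∀ T : MultilinearMap K (fun _ : Fin m => Derivation k K K) K,
      (fun J => T fun s => f (J s)) = cov b'.transpose fun J => T fun s => E (J s) := by
    intro T
    rw [cov_ml]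
    rfl
  have hmem : ∀ (t : ℝ) (D : Derivation k K K), D ∈ fil f w t ↔
      Fl b w t (fun j => D (y j)) := by
    intro t D
    constructor
    · intro hD
      refine Submodule.span_induction (p := fun D _ => Fl b w t (fun j => D (y j)))
        ?_ ?_ ?_ ?_ hD
      · rintro _ ⟨i, hi, rfl⟩ i' hi'
        have h1 : b.mulVec (fun j => f i (y j)) i' = if i' = i then 1 else 0 := hαf i' i
        rw [h1] at hi'
        by_cases h3 : i' = i
        · rw [h3]
          exact hi
        · rw [if_neg h3] at hi'
          exact absurd rfl hi'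
      · intro i hi
        have h1 : (fun j => (0 : Derivation k K K) (y j)) = 0 := rfl
        rw [h1, Matrix.mulVec_zero] at hi
        exact absurd rfl hi
      · intro D1 D2 _ _ h1 h2
        exact fl_add h1 h2
      · intro c D1 _ h1
        exact fl_smul c h1
    · intro h
      rw [hf D]
      refine Submodule.sum_mem _ fun i _ => ?_
      by_cases h0 : α i D = 0
      · rw [h0, zero_smul]
        exact Submodule.zero_mem _
      · exact Submodule.smul_mem _ _ (Submodule.subset_span ⟨i, h i h0, rfl⟩)
  refine ⟨f, α, w, γ / n, hαf, hf, hw0, hwn, div_pos hγ hn0, ?_, ?_, ?_⟩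
  · rintro _ ⟨T, hT, rfl⟩ J hJ
    have h1 : Pool.Agent.R908.Km.act (mm b b') (zt fun J => T fun s => E (J s)) (bix J) ≠ 0 := by
      rw [act_bix]
      refine mul_ne_zero (pow_ne_zero _ ?_) (pow_ne_zero _ hJ)
      intro h0
      have h4 := congrArg Matrix.det hbb
      rw [Matrix.det_mul, h0, zero_mul, Matrix.det_one] at h4
      exact zero_ne_one h4
    have h2 := hg _ (Submodule.subset_span ⟨_, ⟨T, hT, rfl⟩, rfl⟩) _ h1
    rw [wt_bix, hw0, mul_zero, zero_sub] at h2
    rw [div_le_iff₀ hn0]
    linarith
  · intro l l' v ε hl hv hgood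
    have h1 : (l * upm b) * (upm b' * l') = 1 := by
      rw [Matrix.mul_assoc, ← Matrix.mul_assoc (upm b), ← upm_mul, hbb, upm_one,
        Matrix.one_mul, hl]
    have h2 : good (upS N) (l * upm b) (upm b' * l') v (n * ε) := by
      rintro _ ⟨z, hz, rfl⟩ I hI
      by_contra hcon
      apply hI
      refine Submodule.span_induction (p := fun z _ => Pool.Agent.R908.Km.act
        (mm (l * upm b) (upm b' * l')) (up z) I = 0) ?_ ?_ ?_ ?_ hz
      · rintro _ ⟨t, ht, rfl⟩
        by_contra h3
        apply hcon
        rw [up_zt] at h3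
        obtain ⟨h4, h5⟩ := wt_zt h3 v
        obtain ⟨T, hT, rfl⟩ := ht
        have h6 : ∀ p : Fin n, ε ≤ m / n * ∑ i, v i - ∑ s, v (I (Sum.inr (eb m n (s, p)))) := by
          intro p
          refine hgood _ ⟨T, hT, rfl⟩ _ ?_
          have h7 := h5 p
          rw [hTf, upt_cov, cov_cov]
          have h8 : (upm b' * l').transpose = l'.transpose * upm b'.transpose := by
            rw [Matrix.transpose_mul]
            rfl
          rw [h8] at h7
          exact h7
        rw [h4]
        have h7 := Finset.sum_le_sum fun p (_ : p ∈ Finset.univ) => h6 p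
        rw [Finset.sum_const, Finset.card_univ, Fintype.card_fin, nsmul_eq_mul,
          Finset.sum_sub_distrib, Finset.sum_const, Finset.card_univ, Fintype.card_fin,
          nsmul_eq_mul] at h7
        have h8 : (n : ℝ) * (m / n * ∑ i, v i) = m * ∑ i, v i := by
          field_simp
        rw [h8] at h7
        exact h7
      · have h3 : up (0 : (Fin (m * n) ⊕ Fin (m * n) → Fin n) → K) = 0 := by
          funext J
          exact map_zero _
        rw [h3, act_zero']
        rfl
      · intro x x' _ _ hx hx'
        have h3 : up (x + x') = up x + up x' := by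
          funext J
          exact map_add _ _ _
        rw [h3, act_add', Pi.add_apply, hx, hx', add_zero]
      · intro c x _ hx
        have h3 : up (c • x) = algebraMap K (AlgebraicClosure K) c • up x := by
          funext J
          exact map_mul _ _ _
        rw [h3, act_smul', Pi.smul_apply, hx, smul_zero]
    have h3 := hmax _ _ v (n * ε) h1 hv h2
    rw [le_div_iff₀ hn0]
    linarith
  · intro t σ hσ D D' hDD' hD
    rw [hmem] at hD ⊢
    rw [cj_eq hDD']
    let U := gm y (fun j => cj σ (E j))
    let U' := (gm y fun i => cj σ.symm (E i)).map σ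
    have hUU : U' * U = 1 := by
      rw [← hEy]
      exact (gm_cj hexp σ E).symm
    have hst : ∀ z ∈ N,
        Pool.Agent.R908.Km.act (mm U.transpose U'.transpose) (fun I => σ (z I)) ∈ N := by
      intro z hz
      refine Submodule.span_induction (p := fun z _ => Pool.Agent.R908.Km.act
        (mm U.transpose U'.transpose) (fun I => σ (z I)) ∈ N) ?_ ?_ ?_ ?_ hz
      · rintro _ ⟨_, ⟨T, hT, rfl⟩, rfl⟩
        have h1 : (fun I => σ (zt (fun J => T fun s => E (J s)) I)) =
            zt (fun J => σ (T fun s => E (J s))) := by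
          funext I
          simp only [zt, map_mul, map_prod]
          congr 1
          refine Finset.prod_congr rfl fun q _ => ?_
          rw [eps]
          have h2 := (σ : K →+* K).map_det ((1 : Matrix (Fin n) (Fin n) K).submatrix
            (fun r => I (Sum.inl ((eb m n) (q, r)))) id)
          refine h2.trans ?_
          congr 1
          ext i j
          rw [RingHom.mapMatrix_apply, Matrix.map_apply, Matrix.submatrix_apply,
            Matrix.one_apply]
          split_ifs <;> simp
        have h2 : cov U' (fun J => σ (T fun s => E (J s))) =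
            fun J => cjT σ T fun s => E (J s) := by
          have h3 : (fun J : Fin m → Fin n => σ (T fun s => E (J s))) =
              fun J => cjT σ T fun s => cj σ (E (J s)) := by
            funext J
            rw [cjT_apply]
            congr 2
            funext s
            ext x
            rw [cj_apply, cj_apply, AlgEquiv.symm_apply_apply]
            change _ = E (J s) (σ.symm (σ x))
            rw [AlgEquiv.symm_apply_apply]
          rw [h3, cov_ml (cjT σ T) (fun j => cj σ (E j)) U']
          funext J
          congr 1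
          funext s
          have h4 : gm y (fun i => ∑ j, U' i j • cj σ (E j)) = 1 := by
            rw [gm_lin]
            exact hUU
          rw [hexp (∑ j, U' (J s) j • cj σ (E j))]
          rw [Finset.sum_eq_single (J s)]
          · have h5 := congrFun (congrFun h4 (J s)) (J s)
            rw [Matrix.one_apply_eq] at h5
            change (∑ j, U' (J s) j • cj σ (E j)) (y (J s)) = 1 at h5
            rw [h5, one_smul]
          · intro c _ hc
            have h5 := congrFun (congrFun h4 (J s)) c
            rw [Matrix.one_apply_ne (Ne.symm hc)] at h5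
            change (∑ j, U' (J s) j • cj σ (E j)) (y c) = 0 at h5
            rw [h5, zero_smul]
          · intro h0
            exact absurd (Finset.mem_univ _) h0
        have h3 : Pool.Agent.R908.Km.act (mm U.transpose U'.transpose)
            (zt (fun J => σ (T fun s => E (J s)))) =
            U.det ^ m • zt (fun J => cjT σ T fun s => E (J s)) := by
          funext I
          rw [act_zt', Matrix.transpose_transpose, h2, Matrix.det_transpose, Pi.smul_apply,
            smul_eq_mul, zt, mul_assoc]
        rw [h1, h3]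
        exact Submodule.smul_mem _ _ (Submodule.subset_span ⟨_, ⟨_, cjT_orb hσ hT, rfl⟩, rfl⟩)
      · have h1 : Pool.Agent.R908.Km.act (mm U.transpose U'.transpose) (fun I => σ
            ((0 : (Fin (m * n) ⊕ Fin (m * n) → Fin n) → K) I)) = 0 := by
          funext I
          simp [Pool.Agent.R908.Km.act]
        rw [h1]
        exact Submodule.zero_mem _
      · intro x x' _ _ hx hx'
        have h1 : Pool.Agent.R908.Km.act (mm U.transpose U'.transpose)
            (fun I => σ ((x + x') I)) =
            Pool.Agent.R908.Km.act (mm U.transpose U'.transpose) (fun I => σ (x I)) +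
              Pool.Agent.R908.Km.act (mm U.transpose U'.transpose) (fun I => σ (x' I)) := by
          rw [← act_add']
          congr 1
          funext I
          rw [Pi.add_apply, map_add]
          rfl
        rw [h1]
        exact Submodule.add_mem _ hx hx'
      · intro c x _ hx
        have h1 : Pool.Agent.R908.Km.act (mm U.transpose U'.transpose)
            (fun I => σ ((c • x) I)) =
            σ c • Pool.Agent.R908.Km.act (mm U.transpose U'.transpose) (fun I => σ (x I)) := by
          rw [← act_smul']
          congr 1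
          funext I
          rw [Pi.smul_apply, smul_eq_mul, map_mul]
          rfl
        rw [h1]
        exact Submodule.smul_mem _ _ hx
    have h1 := hinv σ.toRingEquiv U.transpose U'.transpose hst (by
      rw [← Matrix.transpose_mul, hUU, Matrix.transpose_one]) t _ hD
    have h2 : (fun j => cj σ D (y j)) =
        U.transpose.mulVec (fun i => σ.toRingEquiv (D (y i))) := by
      funext c
      rw [cj_apply]
      have h3 : D (σ.symm (y c)) = ∑ j, D (y j) * E j (σ.symm (y c)) := by
        conv_lhs => rw [hexp D, Pool.Agent.W721.PG.EFF2.der_sum]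
      rw [h3, map_sum, Matrix.mulVec, dotProduct]
      refine Finset.sum_congr rfl fun j _ => ?_
      rw [map_mul, mul_comm]
      rfl
    rw [h2]
    exact h1

end

end Pool.Agent.Run7.h573.GIT
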