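import Pool.Agent.Run7.h573.GIT.Zz

/-!
# The second level: the filtration of the leading tensors is trivial unless there is a product of
determinants
-/

set_option autoImplicit false
set_option linter.overlappingInstances false
set_option linter.unusedSectionVars false
set_option maxHeartbeats 1000000

open FF Finset Function Pool.Agent.R908.Km Pool.Agent.N180.Cf Pool.Agent.W619.PQ
  Pool.Agent.W619.TW Pool.Agent.W603.LV Pool.Agent.W824.PG
  Pool.Agent.Y174 Pool.Agent.Y174.OB

namespace Pool.Agent.Run7.h573.GIT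

section Lower

variable {K : Type*} [Field K] {ι : Type*} [Fintype ι] [DecidableEq ι] [Nonempty ι]

lemma up_ins' {a : ℕ} (z : (Fin a ⊕ Fin a → ι) → K) :
    Pool.Agent.R908.Km.up (ins z) = ins (Pool.Agent.R908.Km.up z) := by
  funext I
  simp only [Pool.Agent.R908.Km.up, ins]
  split_ifs
  · rfl
  · exact map_zero _

/-- lowering the degree -/
lemma lower {N : ∀ a : ℕ, Submodule K ((Fin a ⊕ Fin a → ι) → K)}
    (hN : ∀ (a : ℕ) (z : (Fin a ⊕ Fin a → ι) → K), z ∈ N a → ins z ∈ N (a + 1))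
    {k k' : Matrix ι ι (AlgebraicClosure K)} (hk : k * k' = 1) {w : ι → ℝ} {Q : ℝ → Prop}
    {b : ℕ} (c : ℕ) (h : ∀ z ∈ N (b + c), ∀ I, Pool.Agent.R908.Km.act (mm k k')
      (Pool.Agent.R908.Km.up z) I ≠ 0 → Q (Pool.Agent.R908.Km.wt w I)) :
    ∀ z ∈ N b, ∀ I, Pool.Agent.R908.Km.act (mm k k')
      (Pool.Agent.R908.Km.up z) I ≠ 0 → Q (Pool.Agent.R908.Km.wt w I) := by
  induction c with
  | zero => exact h
  | succ c ih =>
    refine ih fun z hz I hI => ?_
    obtain ⟨i⟩ := ‹Nonempty ι›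
    have h1 := h (ins z) (hN _ _ hz) (ext i i I) (by
      rw [up_ins', act_ins hk, ins, ext_inl_zero, ext_inr_zero, if_pos rfl]
      have h2 : (Pool.Agent.R908.Km.rest (ext i i I)) = I := by
        funext s
        rcases s with s | s <;> rfl
      rw [h2]
      exact hI)
    rwa [wt_ext] at h1

lemma lower' {N : ∀ a : ℕ, Submodule K ((Fin a ⊕ Fin a → ι) → K)}
    (hN : ∀ (a : ℕ) (z : (Fin a ⊕ Fin a → ι) → K), z ∈ N a → ins z ∈ N (a + 1))
    {k k' : Matrix ι ι (AlgebraicClosure K)} (hk : k * k' = 1) {w : ι → ℝ} {Q : ℝ → Prop}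
    {a b : ℕ} (hba : b ≤ a) (h : ∀ z ∈ N a, ∀ I, Pool.Agent.R908.Km.act (mm k k')
      (Pool.Agent.R908.Km.up z) I ≠ 0 → Q (Pool.Agent.R908.Km.wt w I)) :
    ∀ z ∈ N b, ∀ I, Pool.Agent.R908.Km.act (mm k k')
      (Pool.Agent.R908.Km.up z) I ≠ 0 → Q (Pool.Agent.R908.Km.wt w I) := by
  obtain ⟨c, rfl⟩ := Nat.exists_eq_add_of_le hba
  exact lower hN hk c h

end Lower

section Basis

variable {Ω : Type*} [Field Ω] {ι : Type*} [Fintype ι] [DecidableEq ι]

lemma up_tri {w : ι → ℝ} {p : Matrix ι ι Ω} (hp : UP w w p) : Tri (fun i => -w i) p :=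
  fun i j hij => neg_le_neg (hp i j hij)

lemma bd_neg (w : ι → ℝ) (p : Matrix ι ι Ω) : bd (fun i => -w i) p = bd w p := by
  ext i j
  by_cases h : w i = w j
  · rw [bd_apply w p i j h, bd_apply (fun i => -w i) p i j (by rw [h])]
  · rw [bd_apply_ne w p i j h, bd_apply_ne (fun i => -w i) p i j (fun h2 => h (neg_inj.1 h2))]

lemma bd_mul' {w : ι → ℝ} {p p' : Matrix ι ι Ω} (hp : UP w w p) (hp' : UP w w p') :
    bd w (p * p') = bd w p * bd w p' := by
  have h1 := bd_mul (up_tri hp) (up_tri hp')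
  rwa [bd_neg, bd_neg, bd_neg] at h1

open Classical in
/-- a common basis of a filtration and a grading which is compatible with it -/
lemma exists_common {k k' : Matrix ι ι Ω} (hk : k * k' = 1) {w w' : ι → ℝ}
    (hA : ∀ (s : ℝ) (i j : ι), ∑ l with w l = s, k i l * k' l j ≠ 0 → w' j ≤ w' i) :
    ∃ (l l' : Matrix ι ι Ω) (v : ι → ℝ), l * l' = 1 ∧ (∀ i j, l i j ≠ 0 → w i = w j) ∧
      (∀ i j, l' i j ≠ 0 → w i = w j) ∧ UP v w' (l * k') ∧ UP w' v (k * l') := by
  have hk2 : k' * k = 1 := mul_eq_one_comm.1 hk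
  have hdet : k'.det ≠ 0 := by
    have h2 := congrArg Matrix.det hk
    rw [Matrix.det_mul, Matrix.det_one] at h2
    exact right_ne_zero_of_mul (by rw [h2]; exact one_ne_zero)
  obtain ⟨p, p', q, q', σ, hp, hp', hq, hq', e1, e2, hpq⟩ := bruhat w w' k' hdet
  have e1' : p' * p = 1 := mul_eq_one_comm.1 e1
  have h1 : p' * k' = q.submatrix σ id := by
    rw [hpq, ← Matrix.mul_assoc, e1', Matrix.one_mul]
  have h2 : (q.submatrix σ id) * (q'.submatrix id σ) = 1 := by
    have h3 : (q.submatrix σ id) * (q'.submatrix id σ) = (q * q').submatrix σ σ := by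
      ext i j
      simp [Matrix.mul_apply]
    rw [h3, e2, Matrix.submatrix_one_equiv]
  have h3 : k * p = q'.submatrix id σ := by
    have h4 : (q.submatrix σ id) * (k * p) = 1 := by
      rw [← h1, Matrix.mul_assoc, ← Matrix.mul_assoc k', hk2, Matrix.one_mul, e1']
    have h5 : (k * p) * (q.submatrix σ id) = 1 := mul_eq_one_comm.1 h4
    calc k * p = (k * p) * ((q.submatrix σ id) * (q'.submatrix id σ)) := by
          rw [h2, Matrix.mul_one]
      _ = _ := by rw [← Matrix.mul_assoc, h5, Matrix.one_mul]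
  have u1 : UP (fun i => w' (σ i)) w' (p' * k') := by
    rw [h1]
    intro i j hij
    exact hq _ _ hij
  have u2 : UP w' (fun i => w' (σ i)) (k * p) := by
    rw [h3]
    intro i j hij
    exact hq' _ _ hij
  refine ⟨bd w p', bd w p, fun i => w' (σ i), ?_, fun i j hij => bd_ne hij,
    fun i j hij => bd_ne hij, ?_, ?_⟩
  · rw [← bd_mul' hp' hp, e1', bd_one]
  · intro i j hij
    have h4 : (bd w p' * k') i j = ∑ c, (p' * k') i c * ∑ l with w l = w i, k c l * k' l j := by
      have h5 : (bd w p' * k') i j = ∑ l with w l = w i, p' i l * k' l j := by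
        rw [Matrix.mul_apply, Finset.sum_filter]
        refine Finset.sum_congr rfl fun l _ => ?_
        by_cases h : w l = w i
        · rw [if_pos h, bd_apply w p' i l h.symm]
        · rw [if_neg h, bd_apply_ne w p' i l (Ne.symm h), zero_mul]
      have h6 : p' = (p' * k') * k := by rw [Matrix.mul_assoc, hk2, Matrix.mul_one]
      rw [h5]
      conv_lhs => rw [h6]
      simp only [Matrix.mul_apply (M := p' * k'), Finset.sum_mul, Finset.mul_sum]
      rw [Finset.sum_comm]
      exact Finset.sum_congr rfl fun c _ => Finset.sum_congr rfl fun l _ => by ring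
    rw [h4] at hij
    obtain ⟨c, -, hc⟩ := Finset.exists_ne_zero_of_sum_ne_zero hij
    exact (hA _ _ _ (right_ne_zero_of_mul hc)).trans (u1 _ _ (left_ne_zero_of_mul hc))
  · intro i j hij
    have h4 : (k * bd w p) i j = ∑ c, (∑ l with w l = w j, k i l * k' l c) * (k * p) c j := by
      have h5 : (k * bd w p) i j = ∑ l with w l = w j, k i l * p l j := by
        rw [Matrix.mul_apply, Finset.sum_filter]
        refine Finset.sum_congr rfl fun l _ => ?_
        by_cases h : w l = w j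
        · rw [if_pos h, bd_apply w p l j h]
        · rw [if_neg h, bd_apply_ne w p l j h, mul_zero]
      have h6 : p = k' * (k * p) := by rw [← Matrix.mul_assoc, hk2, Matrix.one_mul]
      rw [h5]
      conv_lhs => rw [h6]
      simp only [Matrix.mul_apply (N := k * p), Finset.sum_mul, Finset.mul_sum]
      rw [Finset.sum_comm]
      exact Finset.sum_congr rfl fun c _ => Finset.sum_congr rfl fun l _ => by ring
    rw [h4] at hij
    obtain ⟨c, -, hc⟩ := Finset.exists_ne_zero_of_sum_ne_zero hij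
    exact (u2 _ _ (right_ne_zero_of_mul hc)).trans (hA _ _ _ (left_ne_zero_of_mul hc))

/-- the positivity of the weights is preserved -/
lemma pos_up {a : ℕ} {z : (Fin a ⊕ Fin a → ι) → Ω} {k k' q q' : Matrix ι ι Ω} {w v : ι → ℝ}
    (h : ∀ I, Pool.Agent.R908.Km.act (mm k k') z I ≠ 0 → 0 < Pool.Agent.R908.Km.wt w I)
    (hq : UP v w q) (hq' : UP w v q') (I : Fin a ⊕ Fin a → ι)
    (hI : Pool.Agent.R908.Km.act (mm (q * k) (k' * q')) z I ≠ 0) :
    0 < Pool.Agent.R908.Km.wt v I := by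
  rw [← act_mm q q' k k', Pool.Agent.R908.Km.act] at hI
  obtain ⟨J, -, hJ⟩ := Finset.exists_ne_zero_of_sum_ne_zero hI
  refine (h J (right_ne_zero_of_mul hJ)).trans_le ?_
  have h1 := left_ne_zero_of_mul hJ
  rw [Finset.prod_ne_zero_iff] at h1
  have h2 : ∑ s, w (J (Sum.inl s)) ≤ ∑ s, v (I (Sum.inl s)) :=
    Finset.sum_le_sum fun s _ => hq _ _ (h1 (Sum.inl s) (Finset.mem_univ _))
  have h3 : ∑ s, v (I (Sum.inr s)) ≤ ∑ s, w (J (Sum.inr s)) :=
    Finset.sum_le_sum fun s _ => hq' _ _ (h1 (Sum.inr s) (Finset.mem_univ _))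
  rw [Pool.Agent.R908.Km.wt, Pool.Agent.R908.Km.wt]
  linarith

end Basis

end Pool.Agent.Run7.h573.GIT
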