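import Pool.Agent.Run7.h573.GIT.Lev2

/-!
# A tensor gives a product of determinants
-/

set_option autoImplicit false
set_option linter.overlappingInstances false
set_option linter.unusedSectionVars false
set_option maxHeartbeats 1000000

open FF Finset Function Pool.Agent.R908.Km Pool.Agent.N180.Cf Pool.Agent.W619.PQ
  Pool.Agent.W619.TW Pool.Agent.W603.LV Pool.Agent.W824.PG
  Pool.Agent.Y174 Pool.Agent.Y174.OB

namespace Pool.Agent.Run7.h573.GIT

section

variable {k K : Type} [Field k] [CharZero k] [Field K] [Algebra k K] {n m : ℕ}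
  {δ : Place k K → ℝ} {α : Fin n → (Derivation k K K →ₗ[K] K)} {w : Fin n → ℝ}

lemma qt_le (w : Fin n → ℝ) (t : Fin n) : qt w t ≤ n := by
  classical
  refine (Fintype.card_subtype_le _).trans ?_
  rw [Fintype.card_fin]

/-- The second destabilising filtration. -/
lemma level2a (hess : Algebra.EssFiniteType k K) (hn : Algebra.trdeg k K = n)
    (hn1 : 1 ≤ n) (h0 : ∀ v, 0 ≤ δ v) (h1 : ∀ v, δ v ≤ 1) (hm : 1 ≤ m)
    {f : Fin n → Derivation k K K}
    (hαf : ∀ i j, α i (f j) = if i = j then 1 else 0) (hexp : ∀ D, D = ∑ i, α i D • f i)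
    {γ : ℝ} (hg : ∀ t ∈ OT n δ m f, ∀ J, t J ≠ 0 → γ ≤ -∑ s, w (J s))
    (hno : ∀ (c : Fin n → ℕ) (a : K), c ≠ 0 → a ≠ 0 → ¬ OrbTenS n δ (flagTen α w c a)) :
    ∃ (l l' : Matrix (Fin n) (Fin n) (AlgebraicClosure K)) (v : Fin n → ℝ), l * l' = 1 ∧
      (∀ i j, l' i j ≠ 0 → w i = w j) ∧
      ∀ τ ∈ OT n δ m f, ∀ J, cov l'.transpose (upt τ) J ≠ 0 → -∑ s, w (J s) = γ →
        ∀ t, qt w t * ∑ s, v (J s) < m * ∑ i with w i ≤ w t, v i := by
  classical
  have hK0 : CharZero K := charZero_of_injective_algebraMap (algebraMap k K).injective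
  have hne1 : Nonempty (Fin n) := ⟨⟨0, hn1⟩⟩
  set G := gfam2 hess hn h0 h1 hαf hno with hG
  obtain ⟨k₀, k₀', w₀, hk₀, hN, hA⟩ := G.toTP.hilbert_mumford G.toTP_le (m * n)
  have hN' : ∀ b ≤ m * n, ∀ z ∈ G.toTP.N b, ∀ I, Pool.Agent.R908.Km.act (mm k₀ k₀')
      (Pool.Agent.R908.Km.up z) I ≠ 0 → 0 < Pool.Agent.R908.Km.wt w₀ I := fun b hb =>
    lower' (N := G.toTP.N) (fun a z hz => G.toTP.ins_mem hz) hk₀ (Q := fun x => 0 < x) hb hN
  have hA' : ∀ b ≤ m * n, ∀ z ∈ G.toTP.A b, ∀ I, Pool.Agent.R908.Km.act (mm k₀ k₀')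
      (Pool.Agent.R908.Km.up z) I ≠ 0 → 0 ≤ Pool.Agent.R908.Km.wt w₀ I := fun b hb =>
    lower' (N := G.toTP.A) (fun a z hz => G.toTP.insA hz) hk₀ (Q := fun x => 0 ≤ x) hb hA
  have hprj : ∀ (s : ℝ) (i j : Fin n), ∑ l with w l = s, k₀ i l * k₀' l j ≠ 0 →
      w₀ j ≤ w₀ i := by
    intro s i j hij
    have h2 : Pool.Agent.R908.Km.up (prj w s : (Fin 1 ⊕ Fin 1 → Fin n) → K) =
        (prj w s : (Fin 1 ⊕ Fin 1 → Fin n) → AlgebraicClosure K) := by
      funext I
      simp only [Pool.Agent.R908.Km.up, prj]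
      split_ifs
      · exact map_one _
      · exact map_zero _
    have h3 := hA' 1 (Nat.mul_pos hm hn1) (prj w s)
      (GFam.mem_sp (Set.mem_univ _) (prj_mem s)) (Sum.elim (fun _ => i) (fun _ => j)) (by
        rw [h2, act_prj]
        exact hij)
    have h4 : Pool.Agent.R908.Km.wt w₀ (Sum.elim (fun _ : Fin 1 => i) (fun _ : Fin 1 => j)) =
        w₀ i - w₀ j := by
      simp [Pool.Agent.R908.Km.wt]
    rw [h4] at h3
    linarith
  obtain ⟨l, l', v, hl, hlw, hlw', u1, u2⟩ := exists_common hk₀ hprj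
  have hk₀2 : k₀' * k₀ = 1 := mul_eq_one_comm.1 hk₀
  have hN2 : ∀ b ≤ m * n, ∀ z ∈ G.toTP.N b, ∀ I, Pool.Agent.R908.Km.act (mm l l')
      (Pool.Agent.R908.Km.up z) I ≠ 0 → 0 < Pool.Agent.R908.Km.wt v I := by
    intro b hb z hz I hI
    refine pos_up (hN' b hb z hz) u1 u2 I ?_
    have h2 : l * k₀' * k₀ = l := by rw [Matrix.mul_assoc, hk₀2, Matrix.mul_one]
    have h3 : k₀' * (k₀ * l') = l' := by rw [← Matrix.mul_assoc, hk₀2, Matrix.one_mul]
    rw [h2, h3]
    exact hI
  refine ⟨l, l', v, hl, hlw', fun τ hτ J hJ hJw t => ?_⟩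
  have hz0 : zz w t (lead w γ τ) ∈ S2 δ α w (Pi.single t m) (m * qt w t) :=
    zz_mem hexp hg hτ t
  have hc0 : (Pi.single t m : Fin n → ℕ) ∈ G.P := by
    intro h2
    have h3 := congrFun h2 t
    rw [Pi.single_eq_same, Pi.zero_apply] at h3
    omega
  have hz : zz w t (lead w γ τ) ∈ G.toTP.N (m * qt w t) :=
    Submodule.subset_span ⟨Pi.single t m, hc0, hz0⟩
  have hll : ∀ i j, l'.transpose i j ≠ 0 → w i = w j := fun i j hij => (hlw' j i hij).symm
  have h2 := hN2 _ (Nat.mul_le_mul_left m (qt_le w t)) _ hz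
    (Sum.elim (fun x => (et w t ((eb m (qt w t)).symm x).2).1)
      (fun x => J ((eb m (qt w t)).symm x).1)) (by
      rw [up_zz, act_zz hlw, lead_upt, cov_lead hll]
      have h3 : (sm w t l).det ≠ 0 := by
        have h4 : sm w t l * sm w t l' = 1 := by
          rw [← sm_mul hlw, hl, sm_one]
        intro h5
        have h6 := congrArg Matrix.det h4
        rw [Matrix.det_mul, h5, zero_mul, Matrix.det_one] at h6
        exact zero_ne_one h6
      refine mul_ne_zero (mul_ne_zero (pow_ne_zero _ h3) ?_) ?_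
      · rw [Finset.prod_ne_zero_iff]
        intro q _
        have h4 : (fun r => (Sum.elim (fun x => (et w t ((eb m (qt w t)).symm x).2).1)
            (fun x => J ((eb m (qt w t)).symm x).1) (Sum.inl (eb m (qt w t) (q, r))) : Fin n)) =
            fun c => (et w t c).1 := by
          funext r
          rw [Sum.elim_inl, Equiv.symm_apply_apply]
        rw [h4, epst_et]
        exact one_ne_zero
      · rw [Finset.prod_ne_zero_iff]
        intro p _
        have h4 : (fun s => (Sum.elim (fun x => (et w t ((eb m (qt w t)).symm x).2).1)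
            (fun x => J ((eb m (qt w t)).symm x).1) (Sum.inr (eb m (qt w t) (s, p))) : Fin n)) =
            J := by
          funext s
          rw [Sum.elim_inr, Equiv.symm_apply_apply]
        rw [h4, lead, if_pos hJw]
        exact hJ)
  rw [wt_blocks2] at h2
  simp only [Sum.elim_inl, Sum.elim_inr, Equiv.symm_apply_apply, Finset.sum_const,
    Finset.card_univ, Fintype.card_fin, nsmul_eq_mul] at h2
  have h3 : ∑ r, v (et w t r).1 = ∑ i with w i ≤ w t, v i := by
    rw [Equiv.sum_comp (et w t) fun i => v i.1]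
    exact (Finset.sum_subtype (Finset.univ.filter (fun i => w i ≤ w t)) (fun b => by
      rw [Finset.mem_filter]
      exact and_iff_right (Finset.mem_univ _)) fun b => v b).symm
  rw [h3] at h2
  linarith

/-- **A non-zero tensor gives a non-zero product of determinants of the members of a flag.** -/
theorem level2 (hess : Algebra.EssFiniteType k K) (hn : Algebra.trdeg k K = n)
    (hn1 : 1 ≤ n) (h0 : ∀ v, 0 ≤ δ v) (h1 : ∀ v, δ v ≤ 1) (hκ : ¬ PairKod k K n δ 0)
    (hm : 1 ≤ m) {T0 : MultilinearMap K (fun _ : Fin m => Derivation k K K) K}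
    (hT0 : OrbTen n δ T0) (hT0' : T0 ≠ 0) :
    ∃ (f : Fin n → Derivation k K K) (α : Fin n → (Derivation k K K →ₗ[K] K)) (w : Fin n → ℝ)
      (c : Fin n → ℕ) (a : K), (∀ i j, α i (f j) = if i = j then 1 else 0) ∧
      (∀ D, D = ∑ i, α i D • f i) ∧ c ≠ 0 ∧ a ≠ 0 ∧ OrbTenS n δ (flagTen α w c a) ∧
      (∀ t, BirStable δ (fil f w t)) ∧ ∃ i j, w i ≠ w j := by
  classical
  obtain ⟨f, α, w, γ, hαf, hexp, hw0, hwn, hγ, hg, hmax, hinv⟩ :=
    level1 hess hn hn1 hκ hm hT0 hT0'
  have hn0' : (0 : ℝ) < n := by exact_mod_cast hn1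
  have hne0 : ∃ J : Fin m → Fin n, (T0 fun s => f (J s)) ≠ 0 := by
    by_contra hcon
    rw [not_exists] at hcon
    apply hT0'
    ext D
    change T0 D = 0
    have h7 : D = fun s => ∑ j, α j (D s) • f j := by
      funext s
      exact hexp (D s)
    rw [h7, T0.map_sum]
    refine Finset.sum_eq_zero fun J _ => ?_
    rw [T0.map_smul_univ, not_not.1 (hcon J), smul_zero]
  have hwne : ∃ i j, w i ≠ w j := by
    by_contra hcon
    have h2 : ∀ i j, w i = w j := by
      intro i j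
      by_contra h3
      exact hcon ⟨i, j, h3⟩
    have h3 : ∀ i, w i = 0 := by
      intro i
      rw [Finset.sum_congr rfl fun j _ => h2 j i, Finset.sum_const, Finset.card_univ,
        Fintype.card_fin, nsmul_eq_mul] at hw0
      exact (mul_eq_zero.1 hw0).resolve_left hn0'.ne'
    obtain ⟨J, hJ⟩ := hne0
    have h4 := hg _ ⟨T0, hT0, rfl⟩ J hJ
    rw [Finset.sum_eq_zero fun s _ => h3 (J s), neg_zero] at h4
    exact absurd hγ (not_lt.2 h4)
  by_contra hcon
  have hno : ∀ (c : Fin n → ℕ) (a : K), c ≠ 0 → a ≠ 0 → ¬ OrbTenS n δ (flagTen α w c a) :=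
    fun c a hc ha ht => hcon ⟨f, α, w, c, a, hαf, hexp, hc, ha, ht, hinv, hwne⟩
  obtain ⟨l, l', v, hl, hlw', hlt⟩ := level2a hess hn hn1 h0 h1 hm hαf hexp hg hno
  have hn0 : (0 : ℝ) < n := by exact_mod_cast hn1
  have hm0 : (0 : ℝ) < m := by exact_mod_cast hm
  have hll : ∀ i j, l'.transpose i j ≠ 0 → w i = w j := fun i j hij => (hlw' j i hij).symm
  let P : (Fin (m * n) ⊕ Fin (m * n) → Fin n) → Prop := fun I =>
    ∃ (J : Fin m → Fin n) (τ : (Fin m → Fin n) → K), I = bix J ∧ τ ∈ OT n δ m f ∧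
      cov l'.transpose (upt τ) J ≠ 0
  -- a nonzero coordinate
  have hP : ∃ I, P I := by
    have h2 : ∃ J, cov l'.transpose (upt (fun J : Fin m → Fin n => T0 fun s => f (J s))) J ≠
        0 := by
      by_contra h3
      rw [not_exists] at h3
      have h4 : cov l'.transpose (upt (fun J : Fin m → Fin n => T0 fun s => f (J s))) = 0 := by
        funext J
        exact not_not.1 (h3 J)
      have h5 := congrArg (cov l.transpose) h4
      rw [cov_cov, ← Matrix.transpose_mul, mul_eq_one_comm.1 hl, Matrix.transpose_one,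
        cov_one] at h5
      have h6 : cov l.transpose (0 : (Fin m → Fin n) → AlgebraicClosure K) = 0 := by
        funext J
        rw [cov_apply]
        simp
      rw [h6] at h5
      apply hT0'
      ext D
      change T0 D = 0
      have h7 : D = fun s => ∑ j, α j (D s) • f j := by
        funext s
        exact hexp (D s)
      rw [h7, T0.map_sum]
      refine Finset.sum_eq_zero fun J _ => ?_
      rw [T0.map_smul_univ]
      have h8 := congrFun h5 J
      have h9 : (T0 fun s => f (J s)) = 0 :=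
        (map_eq_zero (algebraMap K (AlgebraicClosure K))).1 h8
      rw [h9, smul_zero]
    obtain ⟨J, hJ⟩ := h2
    exact ⟨bix J, J, _, rfl, ⟨T0, hT0, rfl⟩, hJ⟩
  have hPg : ∀ (J : Fin m → Fin n) (τ : (Fin m → Fin n) → K), τ ∈ OT n δ m f →
      cov l'.transpose (upt τ) J ≠ 0 → γ ≤ -∑ s, w (J s) := by
    intro J τ hτ hJ
    rw [cov_apply] at hJ
    obtain ⟨J', -, hJ'⟩ := Finset.exists_ne_zero_of_sum_ne_zero hJ
    have h2 := left_ne_zero_of_mul hJ'
    rw [Finset.prod_ne_zero_iff] at h2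
    have h3 : ∑ s, w (J s) = ∑ s, w (J' s) :=
      Finset.sum_congr rfl fun s hs => hll _ _ (h2 s hs)
    rw [h3]
    exact hg τ hτ J' fun h4 => right_ne_zero_of_mul hJ' (by
      rw [upt, h4, map_zero])
  have hgP : ∀ I, P I → n * γ ≤ Pool.Agent.R908.Km.wt w I := by
    rintro I ⟨J, τ, rfl, hτ, hJ⟩
    rw [wt_bix, hw0, mul_zero, zero_sub]
    have h2 := mul_le_mul_of_nonneg_left (hPg J τ hτ hJ) hn0.le
    linarith
  have hmaxP : ∀ (v' : Fin n → ℝ) (ε : ℝ), nrm v' ≤ 1 →
      (∀ I, P I → ε ≤ Pool.Agent.R908.Km.wt v' I) → ε ≤ n * γ := by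
    intro v' ε hv' hε
    have h2 := hmax l l' v' (ε / n) hl hv' (fun τ hτ J hJ => by
      have h3 := hε (bix J) ⟨J, τ, rfl, hτ, hJ⟩
      rw [wt_bix] at h3
      rw [div_le_iff₀ hn0]
      have h4 : (m / n * ∑ i, v' i - ∑ s, v' (J s)) * n =
          m * ∑ i, v' i - n * ∑ s, v' (J s) := by
        field_simp
      rw [h4]
      exact h3)
    rw [div_le_iff₀ hn0] at h2
    linarith
  -- step A
  have hφ : ∀ i, 0 ≤ (m : ℝ) / n - γ * w i := by
    intro i
    by_contra hneg
    rw [not_le] at hneg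
    refine first_order hP hwn hgP hmaxP (x := Pi.single i (-1)) ?_
    rintro I ⟨J, τ, rfl, hτ, hJ⟩ -
    rw [wt_bix]
    have h2 : ∑ j, w j * (Pi.single i (-1) : Fin n → ℝ) j = -w i := by
      rw [Finset.sum_eq_single i]
      · rw [Pi.single_eq_same]
        ring
      · intro j _ hj
        rw [Pi.single_eq_of_ne hj, mul_zero]
      · intro h0
        exact absurd (Finset.mem_univ _) h0
    have h3 : ∑ j, (Pi.single i (-1) : Fin n → ℝ) j = -1 := by
      rw [Finset.sum_eq_single i]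
      · rw [Pi.single_eq_same]
      · intro j _ hj
        rw [Pi.single_eq_of_ne hj]
      · intro h0
        exact absurd (Finset.mem_univ _) h0
    have h4 : ∑ s, (Pi.single i (-1) : Fin n → ℝ) (J s) ≤ 0 := by
      refine Finset.sum_nonpos fun s _ => ?_
      rw [Pi.single_apply]
      split_ifs <;> norm_num
    rw [h2, h3]
    have h5 : n * ((m : ℝ) / n - γ * w i) < 0 := mul_neg_of_pos_of_neg hn0 hneg
    have h6 : n * ((m : ℝ) / n - γ * w i) = m - n * (γ * w i) := by
      field_simp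
    rw [h6] at h5
    have h7 : n * ∑ s, (Pi.single i (-1) : Fin n → ℝ) (J s) ≤ 0 :=
      mul_nonpos_of_nonneg_of_nonpos hn0.le h4
    linarith
  -- step B
  have hsum : ∑ i, ((m : ℝ) / n - γ * w i) = m := by
    rw [Finset.sum_sub_distrib, ← Finset.mul_sum, hw0, mul_zero, sub_zero, Finset.sum_const,
      Finset.card_univ, Fintype.card_fin, nsmul_eq_mul]
    field_simp
  refine first_order hP hwn hgP hmaxP (x := v) ?_
  rintro I ⟨J, τ, rfl, hτ, hJ⟩ hIw
  rw [wt_bix, hw0, mul_zero, zero_sub] at hIw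
  have hJw : -∑ s, w (J s) = γ := by
    have h2 : (n : ℝ) * (-∑ s, w (J s)) = n * γ := by
      rw [← hIw]
      ring
    exact mul_left_cancel₀ hn0.ne' h2
  rw [wt_bix]
  set A : ℝ := ∑ s, v (J s) with hA
  have h2 := layer (u := w) (v := fun i => m * v i - A) (φ := fun i => (m : ℝ) / n - γ * w i) hφ
    (fun i j hij => by
      have := mul_le_mul_of_nonneg_left hij hγ.le
      linarith) (fun t => by
      have h3 := hlt τ hτ J hJ hJw t
      rw [Finset.sum_sub_distrib, ← Finset.mul_sum, Finset.sum_const, nsmul_eq_mul]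
      have h4 : ((Finset.univ.filter fun i => w i ≤ w t).card : ℝ) = qt w t := by
        rw [qt, Fintype.card_subtype]
      rw [h4]
      linarith) (by
      by_contra h3
      rw [not_exists] at h3
      rw [Finset.sum_eq_zero fun i _ => not_not.1 (h3 i)] at hsum
      exact hm0.ne hsum)
  have h3 : ∑ i, ((m : ℝ) / n - γ * w i) * (m * v i - A) =
      m * (m / n * ∑ i, v i - γ * ∑ i, w i * v i) - A * m := by
    have h4 : ∀ i, ((m : ℝ) / n - γ * w i) * (m * v i - A) =
        m * (m / n * v i - γ * (w i * v i)) - A * ((m : ℝ) / n - γ * w i) := fun i => by ring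
    rw [Finset.sum_congr rfl fun i _ => h4 i, Finset.sum_sub_distrib, ← Finset.mul_sum,
      ← Finset.mul_sum, hsum, Finset.sum_sub_distrib, ← Finset.mul_sum, ← Finset.mul_sum]
  rw [h3] at h2
  have h4 : 0 < m * ((m / n * ∑ i, v i - γ * ∑ i, w i * v i) - A) := by linarith
  have h5 := pos_of_mul_pos_right h4 hm0.le
  have h6 := mul_pos hn0 h5
  have h7 : n * (m / n * ∑ i, v i - γ * ∑ i, w i * v i - A) =
      m * ∑ i, v i - n * A - n * γ * ∑ i, w i * v i := by
    field_simp
    ring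
  rw [h7] at h6
  linarith

end

end Pool.Agent.Run7.h573.GIT
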