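import Pool.Agent.Run7.h573.GIT.Blk

/-!
# The optimal filtration of a family of tensors: rationality and the first order condition
-/

set_option autoImplicit false
set_option linter.unusedSectionVars false

open Finset Function Pool.Agent.R908.Km Pool.Agent.N180.Cf

namespace Pool.Agent.Run7.h573.GIT

section Perm

variable {κ : Type*} [Field κ] {ι : Type*} [Fintype ι] [DecidableEq ι]

lemma exists_perm_le {v w : ι → ℝ} {q : Matrix ι ι κ} (hq : UP v w q) (hdet : q.det ≠ 0) :
    ∃ π : Equiv.Perm ι, ∀ i, w i ≤ v (π i) := by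
  rw [Matrix.det_apply] at hdet
  obtain ⟨π, -, hπ⟩ := Finset.exists_ne_zero_of_sum_ne_zero hdet
  have h1 : ∏ i, q (π i) i ≠ 0 := by
    intro h
    rw [h, smul_zero] at hπ
    exact hπ rfl
  rw [Finset.prod_ne_zero_iff] at h1
  exact ⟨π, fun i => hq _ _ (h1 i (Finset.mem_univ _))⟩

lemma exists_perm_eq {v w : ι → ℝ} {q q' : Matrix ι ι κ} (hq : UP v w q) (hdet : q.det ≠ 0)
    (hq' : UP w v q') (hdet' : q'.det ≠ 0) : ∃ π : Equiv.Perm ι, ∀ i, w i = v (π i) := by
  obtain ⟨π, hπ⟩ := exists_perm_le hq hdet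
  refine ⟨π, ?_⟩
  have h1 : ∑ i, w i = ∑ i, v (π i) := by
    rw [Equiv.sum_comp π v]
    exact le_antisymm (sum_le_of_up hq hdet) (sum_le_of_up hq' hdet')
  have h2 := (Finset.sum_eq_sum_iff_of_le fun i _ => hπ i).1 h1
  exact fun i => h2 i (Finset.mem_univ i)

end Perm

section Fil

variable {K : Type*} [Field K] {ι : Type*} [Fintype ι] [DecidableEq ι] {a : ℕ}

/-- **The canonical filtration of a space of tensors.** -/
theorem exists_fil2 [CharZero K] [hι : Nonempty ι] {N : Submodule K ((Fin a ⊕ Fin a → ι) → K)}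
    (hne : ∃ z ∈ N, z ≠ 0)
    (hdes : ∃ (k k' : Matrix ι ι (AlgebraicClosure K)) (w : ι → ℝ), k * k' = 1 ∧
      ∀ z ∈ N, ∀ I, act (mm k k') (up z) I ≠ 0 → 0 < wt w I) :
    ∃ (b b' : Matrix ι ι K) (w : ι → ℝ) (γ : ℝ), b * b' = 1 ∧ ∑ i, w i = 0 ∧ nrm w ≤ 1 ∧
      0 < γ ∧ (∀ z ∈ N, ∀ I, act (mm b b') z I ≠ 0 → γ ≤ wt w I) ∧
      (∀ (l l' : Matrix ι ι (AlgebraicClosure K)) (v : ι → ℝ) (δ : ℝ), l * l' = 1 → nrm v ≤ 1 →
        good (upS N) l l' v δ → δ ≤ γ) ∧
      ∀ (σ : K ≃+* K) (u u' : Matrix ι ι K),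
        (∀ z ∈ N, act (mm u u') (fun I => σ (z I)) ∈ N) → u * u' = 1 →
        ∀ t x, Fl b w t x → Fl b w t (u.mulVec fun i => σ (x i)) := by
  classical
  have hbot : ∀ (l l' : Matrix ι ι (AlgebraicClosure K)) (v : ι → ℝ) (δ : ℝ),
      good (upS (⊥ : Submodule K ((Fin a ⊕ Fin a → ι) → K))) l l' v δ := by
    rintro l l' v δ _ ⟨z, hz, rfl⟩ I hI
    exfalso
    apply hI
    rw [Submodule.mem_bot] at hz
    have h1 : up (0 : (Fin a ⊕ Fin a → ι) → K) = 0 := by
      funext J
      exact map_zero _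
    rw [hz, h1, act_zero']
    rfl
  obtain ⟨k₀, k₀', w₀, hk₀, h₀⟩ := hdes
  obtain ⟨k, k', w1, γ, hopt⟩ := exists_opt2 (Z := upS N)
    (Z' := upS (⊥ : Submodule K ((Fin a ⊕ Fin a → ι) → K)))
    (by
      obtain ⟨z, hz, hz0⟩ := hne
      refine ⟨up z, ⟨z, hz, rfl⟩, fun h => hz0 ?_⟩
      funext I
      have h1 := congrFun h I
      exact (map_eq_zero (algebraMap K (AlgebraicClosure K))).1 h1)
    ⟨k₀, k₀', w₀, hk₀, by
      rintro _ ⟨z, hz, rfl⟩ I hI
      exact h₀ z hz I hI, hbot _ _ _ _⟩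
  have hk : k * k' = 1 := hopt.1
  have hk2 : k' * k = 1 := mul_eq_one_comm.1 hk
  have hγ : 0 < γ := hopt.2.2.2.2.1
  set c : ℝ := (∑ i, w1 i) / Fintype.card ι with hc
  have hcard : (Fintype.card ι : ℝ) ≠ 0 := by
    have := Fintype.card_pos (α := ι)
    positivity
  set w : ι → ℝ := fun i => w1 i - c with hw
  have hw0 : ∑ i, w i = 0 := by
    rw [hw]
    simp only [Finset.sum_sub_distrib, Finset.sum_const, Finset.card_univ, nsmul_eq_mul]
    rw [hc]
    field_simp
    ring
  have hwn : nrm w ≤ 1 := by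
    have h1 : nrm w1 = nrm w + Fintype.card ι * c ^ 2 := by
      have h2 : ∀ i, w1 i ^ 2 = w i ^ 2 + 2 * c * w i + c ^ 2 := by
        intro i
        rw [hw]
        ring
      rw [nrm, nrm, Finset.sum_congr rfl fun i _ => h2 i, Finset.sum_add_distrib,
        Finset.sum_add_distrib, ← Finset.mul_sum, hw0]
      simp
    have h2 := hopt.2.1
    have h3 : 0 ≤ (Fintype.card ι : ℝ) * c ^ 2 := by positivity
    linarith
  have hFw : ∀ (l : Matrix ι ι (AlgebraicClosure K)) (t : ℝ) (x : ι → AlgebraicClosure K),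
      Fl l w t x ↔ Fl l w1 (t + c) x := by
    intro l t x
    constructor
    · intro h i hi
      have := h i hi
      rw [hw] at this
      simp only at this
      linarith
    · intro h i hi
      have := h i hi
      rw [hw]
      simp only
      linarith
  have hFl0 : ∀ t, Fl k w t 0 := by
    intro t i hi
    rw [Matrix.mulVec_zero] at hi
    exact absurd rfl hi
  -- descent
  have hdesc : ∀ t (y : ι → AlgebraicClosure K), Fl k w t y →
      ∃ (n : ℕ) (c : Fin n → AlgebraicClosure K) (e : Fin n → ι → K), (∀ j, e j ∈ Vt k w t) ∧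
        y = ∑ j, c j • uv (e j) := by
    intro t y hy
    exact descent (F := Fl k w t) (fun x y hx hy => Fl_add hx hy) (hFl0 t)
      (fun c x hx => Fl_smul c hx)
      (fun σ x hx => by
        rw [hFw, opt2_unique hopt (hopt.galois σ) (t + c) _, Fl_map σ, ← hFw]
        exact hx)
      (fun x => mem_Vt) hy
  -- the adapted basis
  obtain ⟨l, e, v, he, hev⟩ := exists_adapted (Vt k w) (by
    refine ⟨Finset.univ.image w, fun x hx => ?_⟩
    have hne : (Finset.univ.filter fun i => k.mulVec (uv x) i ≠ 0).Nonempty := by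
      by_contra hcon
      rw [Finset.not_nonempty_iff_eq_empty, Finset.filter_eq_empty_iff] at hcon
      apply hx
      apply uv_inj
      have h1 : k.mulVec (uv x) = 0 := by
        funext i
        have h2 := hcon (Finset.mem_univ i)
        rwa [not_not] at h2
      have h2 := congrArg k'.mulVec h1
      rwa [Matrix.mulVec_mulVec, hk2, Matrix.one_mulVec, Matrix.mulVec_zero] at h2
    obtain ⟨i, hi, hmin⟩ := Finset.exists_min_image _ w hne
    refine ⟨w i, Finset.mem_image_of_mem _ (Finset.mem_univ _), ?_, ?_⟩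
    · intro j hj
      exact hmin j (Finset.mem_filter.2 ⟨Finset.mem_univ _, hj⟩)
    · intro t ht
      exact ht i (Finset.mem_filter.1 hi).2)
  let ε : Fin l ≃ ι := e.indexEquiv (Pi.basisFun K ι)
  let e' : Module.Basis ι K (ι → K) := e.reindex ε
  let v' : ι → ℝ := fun i => v (ε.symm i)
  have he' : ∀ i, e' i ∈ Vt k w (v' i) := fun i => by
    rw [Module.Basis.reindex_apply]
    exact he _
  have hev' : ∀ t, ∀ x ∈ Vt k w t, ∀ i, e'.repr x i ≠ 0 → t ≤ v' i := by
    intro t x hx i hi
    refine hev t x hx (ε.symm i) ?_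
    rw [Module.Basis.coord_apply]
    rwa [Module.Basis.repr_reindex_apply] at hi
  set b : Matrix ι ι K := e'.toMatrix (Pi.basisFun K ι) with hb
  set b' : Matrix ι ι K := (Pi.basisFun K ι).toMatrix e' with hb'
  have hbb : b * b' = 1 := Module.Basis.toMatrix_mul_toMatrix_flip _ _
  have hbx : ∀ x : ι → K, b.mulVec x = e'.repr x := by
    intro x
    have h1 := Module.Basis.toMatrix_mulVec_repr (Pi.basisFun K ι) e' x
    have h2 : ⇑((Pi.basisFun K ι).repr x) = x := by
      funext i
      simp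
    rw [h2] at h1
    exact h1
  have hb'c : ∀ j, (fun i => b' i j) = e' j := by
    intro j
    funext i
    rw [hb', Module.Basis.toMatrix_apply, Pi.basisFun_repr]
  -- the comparison of the two bases
  have hq : UP v' w (upm b * k') := by
    intro i j hij
    have h1 : Fl k w (w j) (k'.mulVec (Pi.single j 1)) := by
      intro i hi
      rw [Matrix.mulVec_mulVec, hk, Matrix.one_mulVec] at hi
      by_cases h : i = j
      · rw [h]
      · rw [Pi.single_eq_of_ne h] at hi
        exact absurd rfl hi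
    obtain ⟨n, c, x, hx, hcx⟩ := hdesc _ _ h1
    have h2 : (upm b * k') i j = ∑ r, c r * algebraMap K (AlgebraicClosure K) (e'.repr (x r) i) := by
      have h3 : (upm b * k') i j = ((upm b).mulVec (k'.mulVec (Pi.single j 1))) i := by
        rw [Matrix.mulVec_mulVec, Matrix.mulVec_single_one]
        rfl
      rw [h3, hcx, Matrix.mulVec_sum, Finset.sum_apply]
      refine Finset.sum_congr rfl fun r _ => ?_
      rw [Matrix.mulVec_smul, ← uv_mulVec, hbx]
      rfl
    rw [h2] at hij
    obtain ⟨r, -, hr⟩ := Finset.exists_ne_zero_of_sum_ne_zero hij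
    refine hev' _ (x r) (hx r) i ?_
    intro h0
    rw [h0, map_zero, mul_zero] at hr
    exact hr rfl
  have hq' : UP w v' (k * upm b') := by
    intro i j hij
    have h1 := he' j
    rw [mem_Vt] at h1
    refine h1 i ?_
    have h2 : (k.mulVec (uv (e' j))) i = (k * upm b') i j := by
      rw [← hb'c j]
      rfl
    rw [h2]
    exact hij
  have hqq : (upm b * k') * (k * upm b') = 1 := by
    rw [Matrix.mul_assoc, ← Matrix.mul_assoc k', hk2, Matrix.one_mul, ← upm_mul, hbb, upm_one]
  have hdet : (upm b * k').det ≠ 0 ∧ (k * upm b').det ≠ 0 := by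
    have h1 := congrArg Matrix.det hqq
    rw [Matrix.det_mul, Matrix.det_one] at h1
    exact ⟨left_ne_zero_of_mul (h1 ▸ one_ne_zero), right_ne_zero_of_mul (h1 ▸ one_ne_zero)⟩
  obtain ⟨π, hπ⟩ := exists_perm_eq hq hdet.1 hq' hdet.2
  have hv0 : ∑ i, v' i = 0 := by
    rw [← hw0, Finset.sum_congr rfl fun i _ => hπ i, Equiv.sum_comp π v']
  have hvn : nrm v' ≤ 1 := by
    have h1 := nrm_comp v' π
    have h2 : (fun i => v' (π i)) = w := funext fun i => (hπ i).symm
    rw [h2] at h1
    rw [← h1]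
    exact hwn
  have hgood : ∀ {N : Submodule K ((Fin a ⊕ Fin a → ι) → K)} {γ : ℝ},
      good (upS N) k k' w1 γ → ∀ z ∈ N, ∀ I, act (mm b b') z I ≠ 0 → γ ≤ wt v' I := by
    intro N γ hg z hz I hI
    have hg' : good (upS N) k k' w γ := by
      intro z hz I hI
      rw [hw, wt_sub_const]
      exact hg z hz I hI
    have h1 := good.up' hg' hq hq'
    have h2 : upm b * k' * k = upm b := by rw [Matrix.mul_assoc, hk2, Matrix.mul_one]
    have h3 : k' * (k * upm b') = upm b' := by rw [← Matrix.mul_assoc, hk2, Matrix.one_mul]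
    rw [h2, h3] at h1
    refine h1 (up z) ⟨z, hz, rfl⟩ I ?_
    rw [← up_act]
    exact fun h => hI ((map_eq_zero (algebraMap K (AlgebraicClosure K))).1 h)
  have hFb : ∀ t x, Fl b v' t x ↔ x ∈ Vt k w t := by
    intro t x
    constructor
    · intro h
      have h1 : x = ∑ i, e'.repr x i • e' i := (e'.sum_repr x).symm
      rw [h1]
      refine Submodule.sum_mem _ fun i _ => ?_
      by_cases h0 : e'.repr x i = 0
      · rw [h0, zero_smul]
        exact Submodule.zero_mem _
      · have h2 : t ≤ v' i := h i (by rw [hbx]; exact h0)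
        refine Submodule.smul_mem _ _ ?_
        have h3 := he' i
        intro j hj
        exact h2.trans (h3 j hj)
    · intro h i hi
      rw [hbx] at hi
      exact hev' t x h i hi
  refine ⟨b, b', v', γ, hbb, hv0, hvn, hγ, hgood hopt.2.2.1, fun l l' v δ hl hv hg =>
    hopt.2.2.2.2.2 l l' v δ hl hv hg (hbot _ _ _ _), ?_⟩
  intro σ u u' hN huu t x hx
  rw [hFb] at hx ⊢
  let s : AlgebraicClosure K ≃+* AlgebraicClosure K :=
    IsAlgClosure.equivOfEquiv (AlgebraicClosure K) (AlgebraicClosure K) σ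
  have hs : ∀ x : K, s (algebraMap K (AlgebraicClosure K) x) =
      algebraMap K (AlgebraicClosure K) (σ x) :=
    fun x => IsAlgClosure.equivOfEquiv_algebraMap _ _ σ x
  have hk3 : (k * upm u).map s.symm * (upm u' * k').map s.symm = 1 := by
    have h1 : (k * upm u).map s.symm * (upm u' * k').map s.symm =
        ((k * upm u) * (upm u' * k')).map s.symm :=
      (Matrix.map_mul (f := s.symm.toRingHom)).symm
    rw [h1, Matrix.mul_assoc, ← Matrix.mul_assoc (upm u), ← upm_mul, huu, upm_one,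
      Matrix.one_mul, hk]
    exact Matrix.map_one _ (map_zero s.symm) (map_one s.symm)
  have hopt' : Opt2 (upS N) (upS (⊥ : Submodule K ((Fin a ⊕ Fin a → ι) → K)))
      ((k * upm u).map s.symm) ((upm u' * k').map s.symm) w1 γ :=
    ⟨hk3, hopt.2.1, good_semi hopt.2.2.1 hN s hs, hbot _ _ _ _, hγ, hopt.2.2.2.2.2⟩
  rw [mem_Vt, hFw] at hx ⊢
  have h1 := (opt2_unique hopt hopt' _ _).1 hx
  intro i hi
  apply h1 i
  intro h0
  apply hi
  have h2 : s (((k * upm u).map s.symm).mulVec (uv x) i) =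
      (k.mulVec (uv (u.mulVec fun i => σ (x i)))) i := by
    rw [uv_mulVec, Matrix.mulVec_mulVec]
    simp only [Matrix.mulVec, dotProduct, map_sum, map_mul, Matrix.map_apply,
      RingEquiv.apply_symm_apply]
    refine Finset.sum_congr rfl fun j _ => ?_
    congr 1
    exact hs (x j)
  rw [← h2, h0, map_zero]

end Fil

end Pool.Agent.Run7.h573.GIT
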