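import Pool.Agent.Run7.h573.GIT.Ten

/-!
# Automorphisms of the function field
-/

set_option autoImplicit false
set_option linter.overlappingInstances false
set_option linter.unusedSectionVars false
set_option maxHeartbeats 1000000

open FF Finset Function Pool.Agent.R908.Km Pool.Agent.N180.Cf Pool.Agent.W619.PQ
  Pool.Agent.W619.TW Pool.Agent.W603.LV Pool.Agent.W824.PG
  Pool.Agent.Y174 Pool.Agent.Y174.OB

namespace Pool.Agent.Run7.h573.GIT

section

variable {k K : Type} [Field k] [CharZero k] [Field K] [Algebra k K] {n : ℕ}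

/-- the transformed place -/
def twP (v : Place k K) (σ : K ≃ₐ[k] K) : Place k K where
  ord f := v.ord (σ f)
  ord_zero := by rw [map_zero, v.ord_zero]
  ord_mul := by
    intro f g hf hg
    rw [map_mul]
    exact v.ord_mul ((map_ne_zero σ).2 hf) ((map_ne_zero σ).2 hg)
  ord_add := by
    intro f g hf hg hfg
    rw [map_add]
    refine v.ord_add ((map_ne_zero σ).2 hf) ((map_ne_zero σ).2 hg) ?_
    rw [← map_add]
    exact (map_ne_zero σ).2 hfg
  ord_const := by
    intro c hc
    rw [AlgEquiv.commutes]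
    exact v.ord_const hc
  surj := by
    obtain ⟨t, ht, ht'⟩ := v.surj
    exact ⟨σ.symm t, (map_ne_zero σ.symm).2 ht, by rw [AlgEquiv.apply_symm_apply, ht']⟩

lemma reg_twP (v : Place k K) (σ : K ≃ₐ[k] K) (f : K) : (twP v σ).Reg f ↔ v.Reg (σ f) := by
  unfold Place.Reg
  rw [map_eq_zero]
  exact Iff.rfl

lemma geR_twP (v : Place k K) (σ : K ≃ₐ[k] K) (c : ℝ) (f : K) :
    GeR v c (σ f) ↔ GeR (twP v σ) c f := by
  unfold GeR
  rw [map_eq_zero]
  exact Iff.rfl

lemma div_twP {v : Place k K} (hv : IsDivisorial v n) (σ : K ≃ₐ[k] K) :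
    IsDivisorial (twP v σ) n := by
  obtain ⟨y, hy⟩ := hv
  refine ⟨fun i => σ.symm (y i), fun p hp => ?_⟩
  have h1 : MvPolynomial.aeval (fun i => σ.symm (y i)) p = σ.symm (MvPolynomial.aeval y p) := by
    have h3 : (MvPolynomial.aeval (fun i => σ.symm (y i)) : MvPolynomial (Fin (n - 1)) k →ₐ[k] K) =
        (σ.symm : K →ₐ[k] K).comp (MvPolynomial.aeval y) := by
      apply MvPolynomial.algHom_ext
      intro i
      rw [MvPolynomial.aeval_X, AlgHom.comp_apply, MvPolynomial.aeval_X]
      rfl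
    rw [h3]
    rfl
  rw [h1]
  refine ⟨(map_ne_zero σ.symm).2 (hy p hp).1, ?_⟩
  change v.ord (σ (σ.symm _)) = 0
  rw [AlgEquiv.apply_symm_apply]
  exact (hy p hp).2

/-- the transformed vector field `σ D σ⁻¹` -/
def cj (σ : K ≃ₐ[k] K) (D : Derivation k K K) : Derivation k K K where
  toFun f := σ (D (σ.symm f))
  map_add' f g := by rw [map_add, map_add, map_add]
  map_smul' c f := by
    rw [RingHom.id_apply, map_smul σ.symm, Derivation.map_smul, map_smul σ]
  map_one_eq_zero' := by
    change σ (D (σ.symm 1)) = 0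
    rw [map_one, Derivation.map_one_eq_zero, map_zero]
  leibniz' f g := by
    change σ (D (σ.symm (f * g))) = f • σ (D (σ.symm g)) + g • σ (D (σ.symm f))
    rw [map_mul, Derivation.leibniz, map_add, smul_eq_mul, smul_eq_mul, map_mul, map_mul,
      AlgEquiv.apply_symm_apply, AlgEquiv.apply_symm_apply]
    rfl

lemma cj_apply (σ : K ≃ₐ[k] K) (D : Derivation k K K) (f : K) :
    cj σ D f = σ (D (σ.symm f)) := rfl

lemma cj_eq {σ : K ≃ₐ[k] K} {D D' : Derivation k K K} (h : ∀ f, D' (σ f) = σ (D f)) :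
    D' = cj σ D := by
  ext f
  rw [cj_apply, ← h, AlgEquiv.apply_symm_apply]

lemma aFr_twP {v : Place k K} {i0 : Fin n} {D : Fin n → Derivation k K K} (h : AFr v i0 D)
    (σ : K ≃ₐ[k] K) : AFr (twP v σ) i0 (fun i => cj σ.symm (D i)) := by
  refine ⟨fun i f hf => ?_, fun i hi f => ?_⟩
  · rw [reg_twP] at hf ⊢
    rw [cj_apply, AlgEquiv.apply_symm_apply]
    exact h.1 i _ hf
  · rw [reg_twP, cj_apply, map_div₀, AlgEquiv.apply_symm_apply]
    exact h.2 i hi _

lemma gm_cj {y : Fin n → K} {E : Fin n → Derivation k K K}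
    (hexp : ∀ D : Derivation k K K, D = ∑ b, D (y b) • E b) (σ : K ≃ₐ[k] K)
    (D : Fin n → Derivation k K K) :
    gm y D = (gm y fun i => cj σ.symm (D i)).map σ * gm y fun j => cj σ (E j) := by
  ext i c
  rw [Matrix.mul_apply, gm, Matrix.of_apply]
  have h1 : D i (y c) = σ (cj σ.symm (D i) (σ.symm (y c))) := by
    change D i (y c) = σ (σ.symm (D i (σ (σ.symm (y c)))))
    rw [AlgEquiv.apply_symm_apply, AlgEquiv.apply_symm_apply]
  have h2 : cj σ.symm (D i) (σ.symm (y c)) =
      ∑ j, gm y (fun i => cj σ.symm (D i)) i j * E j (σ.symm (y c)) := by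
    conv_lhs => rw [hexp (cj σ.symm (D i)), Pool.Agent.W721.PG.EFF2.der_sum]
    rfl
  rw [h1, h2, map_sum]
  refine Finset.sum_congr rfl fun j _ => ?_
  rw [map_mul]
  rfl

/-- **Stability of the graded family.** -/
lemma SS_semi {y : Fin n → K} {E : Fin n → Derivation k K K}
    (hexp : ∀ D : Derivation k K K, D = ∑ b, D (y b) • E b) {δ : Place k K → ℝ}
    {σ : K ≃ₐ[k] K} (hσ : ∀ v v' : Place k K, (∀ f, v'.ord f = v.ord (σ f)) → δ v' = δ v)
    {U U' : Matrix (Fin n) (Fin n) K} (hU : U = gm y (fun j => cj σ (E j))) (hUU : U' * U = 1)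
    {w a : ℕ} {z : (Fin a ⊕ Fin a → Fin n) → K} (hz : z ∈ SS y δ w a) :
    (U.det⁻¹ ^ w) • act (mm U.transpose U'.transpose) (fun I => σ (z I)) ∈ SS y δ w a := by
  intro v hv i0 D h hD hh I
  have hδ : δ (twP v σ) = δ v := hσ v _ fun _ => rfl
  set D' : Fin n → Derivation k K K := fun i => cj σ.symm (D i) with hD'
  set g := gm y D with hg
  set g' := gm y D' with hg'
  have e1 : g = g'.map σ * U := by
    rw [hU]
    exact gm_cj hexp σ D
  have e2 : g' * (U * h).map σ.symm = 1 := by
    have h1 : (g' * (U * h).map σ.symm).map σ = 1 := by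
      have h2 : (g' * (U * h).map σ.symm).map σ = g'.map σ * ((U * h).map σ.symm).map σ :=
        Matrix.map_mul (f := (σ : K →+* K))
      have h3 : ((U * h).map σ.symm).map σ = U * h := by
        ext i j
        exact σ.apply_symm_apply _
      rw [h2, h3, ← Matrix.mul_assoc, ← e1, hh]
    ext i j
    have h2 := congrFun (congrFun h1 i) j
    rw [Matrix.map_apply, Matrix.one_apply] at h2
    rw [Matrix.one_apply]
    apply σ.injective
    rw [h2]
    split_ifs <;> simp
  have h1 := hz (twP v σ) (div_twP hv σ) i0 D' _ (aFr_twP hD σ) e2 I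
  rw [← geR_twP, hδ, map_mul, map_pow] at h1
  have hU0 : U.det ≠ 0 := by
    intro h0
    have h2 := congrArg Matrix.det hUU
    rw [Matrix.det_mul, h0, mul_zero, Matrix.det_one] at h2
    exact zero_ne_one h2
  have e3 : g.det = σ g'.det * U.det := by
    rw [e1, Matrix.det_mul]
    congr 1
    exact ((σ : K →+* K).map_det g').symm
  have e4 : σ (act (mm ((U * h).map σ.symm).transpose g'.transpose) z I) =
      act (mm h.transpose g.transpose) (act (mm U.transpose U'.transpose)
        (fun I => σ (z I))) I := by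
    have h2 := act_mm_map (σ : K →+* K) ((U * h).map σ.symm).transpose g'.transpose z I
    have h3 : ((U * h).map σ.symm).transpose.map (σ : K →+* K) = h.transpose * U.transpose := by
      rw [← Matrix.transpose_mul]
      ext i j
      exact σ.apply_symm_apply _
    have h4 : g'.transpose.map (σ : K →+* K) = U'.transpose * g.transpose := by
      rw [← Matrix.transpose_mul, e1, Matrix.mul_assoc, mul_eq_one_comm.1 hUU, Matrix.mul_one]
      rfl
    rw [h3, h4] at h2
    rw [act_mm]
    exact h2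
  have e5 : g.det ^ w * act (mm h.transpose g.transpose) ((U.det⁻¹ ^ w) •
      act (mm U.transpose U'.transpose) (fun I => σ (z I))) I =
      σ g'.det ^ w * σ (act (mm ((U * h).map σ.symm).transpose g'.transpose) z I) := by
    rw [act_smul', Pi.smul_apply, smul_eq_mul, e3, e4, mul_pow, inv_pow]
    field_simp
  rw [e5]
  exact h1

end

end Pool.Agent.Run7.h573.GIT
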