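import Pool.Agent.Y174.BDefs

/-!
# Orbifold tensors: definitions
-/

set_option autoImplicit false
set_option linter.overlappingInstances false
set_option linter.unusedSectionVars false

open FF

namespace Pool.Agent.Run7.h573.GIT

section

variable {k K : Type} [Field k] [Field K] [Algebra k K]

/-- The covariant tensor `T` of degree `m` (a `K`-multilinear form on the rational vector fields) is
a tensor of the orbifold with the multiplicities `δ v` on the variety of dimension `n`: along each
prime divisor `v` over the variety, if the vector fields `D j` are regular along `v` for `j ∈ S` and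
logarithmic along `v` for `j ∉ S`, then `T D` has order at least `- |S| δ v` along `v`. -/
def OrbTen (n : ℕ) (δ : Place k K → ℝ) {m : ℕ}
    (T : MultilinearMap K (fun _ : Fin m => Derivation k K K) K) : Prop :=
  ∀ v : Place k K, Pool.Agent.W619.PQ.IsDivisorial v n →
    ∀ (S : Finset (Fin m)) (D : Fin m → Derivation k K K),
      (∀ j ∈ S, ∀ f, v.Reg f → v.Reg (D j f)) → (∀ j, j ∉ S → ∀ f, v.Reg (D j f / f)) →
      T D = 0 ∨ -(S.card * δ v) ≤ (v.ord (T D) : ℝ)

/-- The basis `f` of the rational vector fields with the weights `w`, of sum zero, destabilises the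
tensors of the orbifold of degrees `1, ..., N`: if `T (f (J 0), ..., f (J (m - 1))) ≠ 0` for such a
tensor `T`, then the weight `∑ w (J s)` is negative. -/
def Destab (n : ℕ) (δ : Place k K → ℝ) (N : ℕ) (f : Fin n → Derivation k K K)
    (w : Fin n → ℝ) : Prop :=
  LinearIndependent K f ∧ ∑ i, w i = 0 ∧ ∀ m : ℕ, 1 ≤ m → m ≤ N →
    ∀ T : MultilinearMap K (fun _ : Fin m => Derivation k K K) K, OrbTen n δ T →
      ∀ J : Fin m → Fin n, T (fun s => f (J s)) ≠ 0 → ∑ s, w (J s) < 0

/-- The space `F` of rational vector fields is stable under all automorphisms `σ` of the function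
field (birational maps of the variety) which preserve the multiplicities `δ v`: if `D` is in `F`,
then so is its transform `D' = σ D σ⁻¹`. -/
def BirStable (δ : Place k K → ℝ) (F : Submodule K (Derivation k K K)) : Prop :=
  ∀ σ : K ≃ₐ[k] K, (∀ v v' : Place k K, (∀ f, v'.ord f = v.ord (σ f)) → δ v' = δ v) →
    ∀ D D' : Derivation k K K, (∀ f, D' (σ f) = σ (D f)) → D ∈ F → D' ∈ F

/-- The member of the filtration given by the weights. -/
def fil {n : ℕ} (f : Fin n → Derivation k K K) (w : Fin n → ℝ) (t : ℝ) :
    Submodule K (Derivation k K K) := Submodule.span K {D | ∃ i, t ≤ w i ∧ D = f i}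

end

end Pool.Agent.Run7.h573.GIT
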