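import Pool.Agent.Run7.h573.GIT.Tw
import Pool.Agent.Run7.h573.GIT.Blk
import Pool.Agent.Run7.h573.GIT.TDefs

/-!
# Orbifold tensors: the canonical filtration
-/

set_option autoImplicit false
set_option linter.overlappingInstances false
set_option linter.unusedSectionVars false
set_option maxHeartbeats 1000000

open FF Finset Function Pool.Agent.R908.Km Pool.Agent.N180.Cf Pool.Agent.W619.PQ
  Pool.Agent.W619.TW Pool.Agent.W603.LV Pool.Agent.W824.PG
  Pool.Agent.Y174 Pool.Agent.Y174.OB

namespace Pool.Agent.Run7.h573.GIT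

section

variable {k K : Type} [Field k] [CharZero k] [Field K] [Algebra k K] {n : ℕ}

/-- the coordinates of a vector field in a frame -/
lemma exp_frame {y : Fin n → K} {E : Fin n → Derivation k K K}
    (hexp : ∀ D : Derivation k K K, D = ∑ b, D (y b) • E b)
    (D : Fin n → Derivation k K K) (i : Fin n) : D i = ∑ j, gm y D i j • E j := hexp (D i)

/-- the balanced tensor of an orbifold tensor -/
lemma zt_mem {y : Fin n → K} {E : Fin n → Derivation k K K}
    (hexp : ∀ D : Derivation k K K, D = ∑ b, D (y b) • E b) {δ : Place k K → ℝ} {m : ℕ}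
    {T : MultilinearMap K (fun _ : Fin m => Derivation k K K) K} (hT : OrbTen n δ T) :
    zt (fun J => T fun s => E (J s)) ∈ SS y δ m (m * n) := by
  classical
  intro v hv i0 D h hD hh I
  rw [act_zt T E]
  have h1 : ∀ i, ∑ j, (gm y D).transpose j i • E j = D i := fun i => (exp_frame hexp D i).symm
  simp only [h1]
  have h2 : (gm y D).det ^ m * (h.transpose.det ^ m *
      (∏ q, (eps (fun r => I (Sum.inl (eb m n (q, r)))) : K)) *
        ∏ p, T (fun s => D (I (Sum.inr (eb m n (s, p)))))) =
      (∏ q, (eps (fun r => I (Sum.inl (eb m n (q, r)))) : K)) *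
        ∏ p, T (fun s => D (I (Sum.inr (eb m n (s, p))))) := by
    have h3 : (gm y D).det ^ m * h.transpose.det ^ m = 1 := by
      rw [← mul_pow, Matrix.det_transpose, ← Matrix.det_mul, hh, Matrix.det_one, one_pow]
    calc _ = ((gm y D).det ^ m * h.transpose.det ^ m) *
        ((∏ q, (eps (fun r => I (Sum.inl (eb m n (q, r)))) : K)) *
        ∏ p, T (fun s => D (I (Sum.inr (eb m n (s, p)))))) := by ring
      _ = _ := by rw [h3, one_mul]
  rw [h2]
  by_cases h0 : (∏ q, (eps (fun r => I (Sum.inl (eb m n (q, r)))) : K)) = 0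
  · rw [h0, zero_mul]
    exact Or.inl rfl
  rw [← ne_eq, Finset.prod_ne_zero_iff] at h0
  have h4 : GeR v 0 (∏ q, (eps (fun r => I (Sum.inl (eb m n (q, r)))) : K)) := by
    have h5 := GeR.prod (w := v) Finset.univ 0
      (fun q => (eps (fun r => I (Sum.inl (eb m n (q, r)))) : K)) (fun q _ => by
        have h6 : Ge v 0 (eps (fun r => I (Sum.inl (eb m n (q, r)))) : K) := by
          refine ge_det v _ fun i j => ?_
          rw [Matrix.submatrix_apply, Matrix.one_apply]
          split_ifs
          · exact Ge.one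
          · exact Or.inl rfl
        have h7 := Ge.toR h6
        rwa [Int.cast_zero] at h7)
    rwa [mul_zero] at h5
  have h5 : ∀ p, GeR v (-∑ s, (Pi.single i0 (δ v) : Fin n → ℝ) (I (Sum.inr (eb m n (s, p)))))
      (T (fun s => D (I (Sum.inr (eb m n (s, p)))))) := by
    intro p
    have h6 := hT v hv (Finset.univ.filter fun s => I (Sum.inr (eb m n (s, p))) = i0)
      (fun s => D (I (Sum.inr (eb m n (s, p))))) (fun j _ => hD.1 _) (fun j hj => hD.2 _ (by
        intro h7
        exact hj (Finset.mem_filter.2 ⟨Finset.mem_univ _, h7⟩)))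
    refine GeR.mono (c := -((Finset.univ.filter fun s =>
      I (Sum.inr (eb m n (s, p))) = i0).card * δ v)) h6 (le_of_eq ?_)
    congr 1
    rw [Finset.card_filter]
    push_cast
    rw [Finset.sum_mul]
    refine Finset.sum_congr rfl fun s _ => ?_
    rw [Pi.single_apply]
    split_ifs <;> simp
  have h6 := geR_prod Finset.univ _ _ (fun p _ => h5 p)
  refine (h4.mul h6).mono (le_of_eq ?_)
  rw [wt_blocks]
  have h7 : ∀ q : Fin m, ∑ r, (Pi.single i0 (δ v) : Fin n → ℝ) (I (Sum.inl (eb m n (q, r)))) =
      δ v := by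
    intro q
    have h8 := eps_inj (h0 q (Finset.mem_univ _))
    have h9 := (Finite.injective_iff_bijective.1 h8)
    have h10 := (Equiv.ofBijective _ h9).sum_comp (Pi.single i0 (δ v) : Fin n → ℝ)
    refine h10.trans ?_
    rw [Finset.sum_pi_single']
    simp
  rw [Finset.sum_congr rfl fun q _ => h7 q]
  simp only [Finset.sum_const, Finset.card_univ, Fintype.card_fin, nsmul_eq_mul,
    Finset.sum_neg_distrib]
  ring

end

end Pool.Agent.Run7.h573.GIT
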