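import Pool.Agent.Run7.h573.GIT.Gr
import Pool.Agent.Y174.RA.A7

/-!
# Orbifold tensors of mixed type: the graded family of sets of tensors
-/

set_option autoImplicit false
set_option linter.overlappingInstances false
set_option linter.unusedSectionVars false
set_option maxHeartbeats 1000000

open FF Finset Function Pool.Agent.R908.Km Pool.Agent.N180.Cf Pool.Agent.W619.PQ
  Pool.Agent.W619.PL Pool.Agent.W619.TW Pool.Agent.W603.LV Pool.Agent.W619.Y Pool.Agent.W824.PG
  Pool.Agent.Y174 Pool.Agent.Y174.OB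

namespace Pool.Agent.Run7.h573.GIT

section

variable {k K : Type} [Field k] [CharZero k] [Field K] [Algebra k K] {n : ℕ}

/-- the vector fields `D i` are regular along `v`, and tangent to `v` for `i ≠ i0` -/
def AFr (v : Place k K) (i0 : Fin n) (D : Fin n → Derivation k K K) : Prop :=
  (∀ i, Pres v (D i)) ∧ ∀ i, i ≠ i0 → Lg v (D i)

/-- the matrix of a family of vector fields -/
def gm (y : Fin n → K) (D : Fin n → Derivation k K K) : Matrix (Fin n) (Fin n) K :=
  Matrix.of fun i j => D i (y j)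

/-- the mixed tensors with the twist `w` -/
def SS (y : Fin n → K) (δ : Place k K → ℝ) (w : ℕ) (a : ℕ) :
    Set ((Fin a ⊕ Fin a → Fin n) → K) :=
  {z | ∀ v : Place k K, IsDivisorial v n → ∀ (i0 : Fin n) (D : Fin n → Derivation k K K)
    (h : Matrix (Fin n) (Fin n) K), AFr v i0 D → gm y D * h = 1 → ∀ I : Fin a ⊕ Fin a → Fin n,
      GeR v (-(w * δ v) + wt (Pi.single i0 (δ v)) I)
        ((gm y D).det ^ w * act (mm h.transpose (gm y D).transpose) z I)}

lemma SS_prm {y : Fin n → K} {δ : Place k K → ℝ} {w a : ℕ} {z : (Fin a ⊕ Fin a → Fin n) → K}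
    (π : Equiv.Perm (Fin a ⊕ Fin a)) (hπ : ∀ s, (π s).isLeft = s.isLeft) (hz : z ∈ SS y δ w a) :
    prm π z ∈ SS y δ w a := by
  intro v hv i0 D h hD hh I
  have h1 := hz v hv i0 D h hD hh (I ∘ π)
  rw [act_prm _ _ π hπ, prm]
  rwa [wt_comp _ π hπ] at h1

lemma SS_cz {y : Fin n → K} {δ : Place k K → ℝ} {w a : ℕ}
    {z : (Fin (a + 1) ⊕ Fin (a + 1) → Fin n) → K} (hz : z ∈ SS y δ w (a + 1)) :
    cz z ∈ SS y δ w a := by
  intro v hv i0 D h hD hh I
  have hh' : (gm y D).transpose * h.transpose = 1 := by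
    rw [← Matrix.transpose_mul, mul_eq_one_comm.1 hh, Matrix.transpose_one]
  rw [act_cz hh', cz, Finset.mul_sum]
  refine GeR.sum _ _ _ fun q _ => ?_
  have h1 := hz v hv i0 D h hD hh (ext q q I)
  rwa [wt_ext] at h1

lemma SS_ins {y : Fin n → K} {δ : Place k K → ℝ} {w a : ℕ}
    {z : (Fin a ⊕ Fin a → Fin n) → K} (hz : z ∈ SS y δ w a) :
    ins z ∈ SS y δ w (a + 1) := by
  intro v hv i0 D h hD hh I
  have hh' : h.transpose * (gm y D).transpose = 1 := by
    rw [← Matrix.transpose_mul, hh, Matrix.transpose_one]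
  rw [act_ins hh', ins]
  by_cases h0 : I (Sum.inl 0) = I (Sum.inr 0)
  · rw [if_pos h0]
    have h1 := hz v hv i0 D h hD hh (Pool.Agent.R908.Km.rest I)
    have h2 : wt (Pi.single i0 (δ v)) I = wt (Pi.single i0 (δ v)) (Pool.Agent.R908.Km.rest I) := by
      conv_lhs => rw [← ext_rest I, h0]
      exact wt_ext _ _ _
    rw [h2]
    exact h1
  · rw [if_neg h0, mul_zero]
    exact Or.inl rfl

lemma SS_mul {y : Fin n → K} {δ : Place k K → ℝ} {w w' a b : ℕ}
    {z : (Fin a ⊕ Fin a → Fin n) → K} {z' : (Fin b ⊕ Fin b → Fin n) → K}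
    (hz : z ∈ SS y δ w a) (hz' : z' ∈ SS y δ w' b) :
    tmul z z' ∈ SS y δ (w + w') (a + b) := by
  intro v hv i0 D h hD hh L
  obtain ⟨I, J, rfl⟩ : ∃ I J, L = app I J := ⟨_, _, (app_surj L).symm⟩
  rw [act_tmul, tmul_app, wt_app]
  have h1 := (hz v hv i0 D h hD hh I).mul (hz' v hv i0 D h hD hh J)
  have h2 : (gm y D).det ^ (w + w') * (act (mm h.transpose (gm y D).transpose) z I *
      act (mm h.transpose (gm y D).transpose) z' J) =
      (gm y D).det ^ w * act (mm h.transpose (gm y D).transpose) z I *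
        ((gm y D).det ^ w' * act (mm h.transpose (gm y D).transpose) z' J) := by
    rw [pow_add]
    ring
  rw [h2]
  refine h1.mono (le_of_eq ?_)
  push_cast
  ring

/-- the matrix of a transformed family -/
lemma gm_lin (y : Fin n → K) (X : Matrix (Fin n) (Fin n) K) (F : Fin n → Derivation k K K) :
    gm y (fun i => ∑ j, X i j • F j) = X * gm y F := by
  ext i c
  rw [gm, Matrix.of_apply, Matrix.mul_apply, Pool.Agent.W721.PG.EFF2.der_sum]
  rfl

/-- an adapted frame is invertible -/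
lemma exists_aframe (hess : Algebra.EssFiniteType k K) (hn : Algebra.trdeg k K = n)
    {y : Fin n → K} {E : Fin n → Derivation k K K}
    (hE : ∀ i j, E i (y j) = if i = j then 1 else 0) {v : Place k K} (hv : IsDivisorial v n) :
    ∃ (F : Fin n → Derivation k K K) (i0 : Fin n) (y' : Fin n → K)
      (h : Matrix (Fin n) (Fin n) K), AFr v i0 F ∧ gm y F * h = 1 ∧ (∀ i, v.Reg (y' i)) ∧
      v.ord (y' i0) = 1 ∧
      ∀ D : Derivation k K K, D = ∑ b, D (y' b) • F b := by
  classical
  obtain ⟨y', F, i0, hy', hF, ht, hyr, hpres⟩ := Pool.Agent.W619.Y.pFRAME k K n hn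
    (fun y hy => Pool.Agent.W824.PG.fin_adj hess y hy) v hv
  have ht0 := ne_zero_of_ord ht
  have hlog : ∀ b, b ≠ i0 → Lg v (F b) := by
    intro b hb
    refine log_of_pres v _ (hpres b) ht0 ht ?_
    rw [hF, if_neg hb, zero_div]
    exact Or.inl rfl
  have hexpF := fun D : Derivation k K K => (Pool.Agent.W73.PG.PULL.expand y' hy' F hF D).symm
  refine ⟨F, i0, y', gm y' E, ⟨hpres, hlog⟩, ?_, hyr, ht, hexpF⟩
  rw [mul_eq_one_comm]
  have h1 := gm_lin y (gm y' E) F
  have h2 : (fun i => ∑ j, (gm y' E) i j • F j) = E := by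
    funext i
    exact (hexpF (E i)).symm
  rw [h2] at h1
  rw [← h1]
  ext i j
  rw [gm, Matrix.of_apply, hE, Matrix.one_apply]

/-- sections from scalars -/
lemma pairSec_of_SS (hess : Algebra.EssFiniteType k K) (hn : Algebra.trdeg k K = n)
    {y : Fin n → K} {E : Fin n → Derivation k K K}
    (hE : ∀ i j, E i (y j) = if i = j then 1 else 0) {δ : Place k K → ℝ} {w : ℕ}
    {z : (Fin 0 ⊕ Fin 0 → Fin n) → K} (hz : z ∈ SS y δ w 0) (I0 : Fin 0 ⊕ Fin 0 → Fin n) :
    PairSec k K n δ {1} w 0 (fun D => z I0 * (gm y D).det ^ w) := by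
  refine ⟨fun A D => ?_, fun v hv D hD => ?_⟩
  · change z I0 * (gm y (fun i => ∑ j, A i j • D j)).det ^ w = A.det ^ w * (z I0 * (gm y D).det ^ w)
    rw [gm_lin, Matrix.det_mul, mul_pow]
    ring
  · obtain ⟨F, i0, y', h, hF, hh, hyr, -, hexp⟩ := exists_aframe hess hn hE hv
    have h1 : D = fun i => ∑ j, (gm y' D) i j • F j := by
      funext i
      exact hexp (D i)
    have h2 : Ge v 0 (gm y' D).det := ge_det v _ fun i j => hD i _ (hyr j)
    have h3 := hz v hv i0 F h hF hh I0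
    have h4 : act (mm h.transpose (gm y F).transpose) z I0 = z I0 := by
      rw [Pool.Agent.R908.Km.act]
      have h5 : ∀ J : Fin 0 ⊕ Fin 0 → Fin n, J = I0 := fun J => by
        funext s
        rcases s with s | s <;> exact s.elim0
      have : Subsingleton (Fin 0 ⊕ Fin 0 → Fin n) := ⟨fun a b => (h5 a).trans (h5 b).symm⟩
      rw [Fintype.sum_subsingleton _ I0]
      simp
    have h6 : wt (Pi.single i0 (δ v)) I0 = 0 := by simp [Pool.Agent.R908.Km.wt]
    rw [h4, h6, add_zero] at h3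
    have h7 := ((Ge.toR h2).pow w).mul h3
    have h8 : z I0 * (gm y D).det ^ w = (gm y' D).det ^ w * ((gm y F).det ^ w * z I0) := by
      conv_lhs => rw [h1, gm_lin, Matrix.det_mul, mul_pow]
      ring
    rw [← h8] at h7
    rcases h7 with h7 | h7
    · exact Or.inl h7
    · right
      refine ⟨1, by simp, one_ne_zero, ?_⟩
      simp only [Nat.cast_zero, zero_mul, zero_sub]
      refine le_trans (le_of_eq ?_) h7
      push_cast
      ring

/-- scalars vanish if `κ = -∞` -/
lemma SS_zero (hess : Algebra.EssFiniteType k K) (hn : Algebra.trdeg k K = n)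
    {y : Fin n → K} {E : Fin n → Derivation k K K}
    (hE : ∀ i j, E i (y j) = if i = j then 1 else 0) {δ : Place k K → ℝ}
    (hκ : ¬ PairKod k K n δ 0) {w : ℕ} (hw : 1 ≤ w)
    {z : (Fin 0 ⊕ Fin 0 → Fin n) → K} (hz : z ∈ SS y δ w 0) : z = 0 := by
  classical
  by_contra hne
  apply hκ
  obtain ⟨I0, hI0⟩ := Function.ne_iff.1 hne
  refine ⟨w, hw, fun _ D => z I0 * (gm y D).det ^ w, fun _ => pairSec_of_SS hess hn hE hz I0, E,
    fun _ => ?_, algebraicIndependent_empty_type_iff.2 (algebraMap k K).injective⟩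
  have h1 : gm y E = 1 := by
    ext i j
    rw [gm, Matrix.of_apply, hE, Matrix.one_apply]
  change z I0 * (gm y E).det ^ w ≠ 0
  rw [h1, Matrix.det_one, one_pow, mul_one]
  exact hI0

/-- the graded family -/
def gfam (hess : Algebra.EssFiniteType k K) (hn : Algebra.trdeg k K = n)
    {y : Fin n → K} {E : Fin n → Derivation k K K}
    (hE : ∀ i j, E i (y j) = if i = j then 1 else 0) {δ : Place k K → ℝ}
    (hκ : ¬ PairKod k K n δ 0) : GFam K (Fin n) ℕ where
  S := SS y δ
  P := {w | 1 ≤ w}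
  P_add := fun {w _} h => (show 1 ≤ w from h).trans (Nat.le_add_right _ _)
  zero := fun hw _ hz => SS_zero hess hn hE hκ hw hz
  prm_mem := fun π hπ hz => SS_prm π hπ hz
  cz_mem := fun hz => SS_cz hz
  ins_mem := fun hz => SS_ins hz
  mul_mem := fun hz hz' => SS_mul hz hz'

end

end Pool.Agent.Run7.h573.GIT
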