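import Pool.Agent.Run7.h573.GIT.DetT

/-!
# The leading tensors
-/

set_option autoImplicit false
set_option linter.overlappingInstances false
set_option linter.unusedSectionVars false
set_option linter.unusedTactic false
set_option maxHeartbeats 1000000

open FF Finset Function Pool.Agent.W619.PQ
  Pool.Agent.W619.TW Pool.Agent.W603.LV Pool.Agent.W824.PG
  Pool.Agent.Y174 Pool.Agent.Y174.OB

namespace Pool.Agent.Run7.h573.GIT

section Eps

variable {R : Type*} [Field R] {n m : ℕ}

open Classical in
/-- the number of the indices -/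
noncomputable def qt (w : Fin n → ℝ) (t : Fin n) : ℕ := Fintype.card {i : Fin n // w i ≤ w t}

open Classical in
/-- an enumeration of the indices -/
noncomputable def et (w : Fin n → ℝ) (t : Fin n) : Fin (qt w t) ≃ {i : Fin n // w i ≤ w t} :=
  (Fintype.equivFin _).symm

/-- the determinant of the indices -/
noncomputable def epst (w : Fin n → ℝ) (t : Fin n) (J : Fin (qt w t) → Fin n) : R :=
  (Matrix.of fun r c => if J r = (et w t c).1 then (1 : R) else 0).det

lemma epst_et (w : Fin n → ℝ) (t : Fin n) : (epst w t (fun c => (et w t c).1) : R) = 1 := by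
  have h1 : (Matrix.of fun r c => if (et w t r).1 = (et w t c).1 then (1 : R) else 0) = 1 := by
    ext r c
    rw [Matrix.of_apply, Matrix.one_apply]
    by_cases h : r = c
    · rw [if_pos h, if_pos (by rw [h])]
    · rw [if_neg h, if_neg]
      intro h2
      exact h ((et w t).injective (Subtype.ext h2))
  rw [epst, h1, Matrix.det_one]

lemma epst_ne {w : Fin n → ℝ} {t : Fin n} {J : Fin (qt w t) → Fin n}
    (h : (epst w t J : R) ≠ 0) (x : Fin n → ℝ) :
    ∑ r, x (J r) = ∑ i with w i ≤ w t, x i := by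
  classical
  rw [epst, Matrix.det_apply] at h
  obtain ⟨σ, -, hσ⟩ := Finset.exists_ne_zero_of_sum_ne_zero h
  have h1 : ∏ i, (Matrix.of fun r c => if J r = (et w t c).1 then (1 : R) else 0) (σ i) i ≠ 0 := by
    intro h2
    rw [h2, smul_zero] at hσ
    exact hσ rfl
  rw [Finset.prod_ne_zero_iff] at h1
  have h2 : ∀ c, J (σ c) = (et w t c).1 := by
    intro c
    have h3 := h1 c (Finset.mem_univ _)
    rw [Matrix.of_apply] at h3
    by_contra h4
    rw [if_neg h4] at h3
    exact h3 rfl
  rw [← Equiv.sum_comp σ, Finset.sum_congr rfl fun c _ => by rw [h2 c]]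
  rw [Equiv.sum_comp (et w t) fun i => x i.1]
  exact (Finset.sum_subtype (Finset.univ.filter (fun i => w i ≤ w t)) (fun b => by
    rw [Finset.mem_filter]
    exact and_iff_right (Finset.mem_univ _)) fun b => x b).symm

/-- the minors of a matrix with diagonal blocks -/
lemma sum_epst {w : Fin n → ℝ} {M : Matrix (Fin n) (Fin n) R}
    (hM : ∀ i j, M i j ≠ 0 → w i = w j) (t : Fin n) (I : Fin (qt w t) → Fin n) :
    ∑ J : Fin (qt w t) → Fin n, (∏ s, M (I s) (J s)) * (epst w t J : R) =
      (sm w t M).det * epst w t I := by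
  classical
  have h1 := sum_ml (K := R) (Matrix.detRowAlternating (n := Fin (qt w t)) (R := R)).toMultilinearMap
    (fun j => (fun c => if j = (et w t c).1 then (1 : R) else 0 : Fin (qt w t) → R)) M I
  have h2 : ∀ J : Fin (qt w t) → Fin n, (Matrix.detRowAlternating (n := Fin (qt w t))
      (R := R)).toMultilinearMap (fun s => (fun c => if J s = (et w t c).1 then (1 : R) else 0 :
        Fin (qt w t) → R)) = epst w t J := fun J => rfl
  rw [Finset.sum_congr rfl fun J _ => by rw [h2 J]] at h1
  rw [h1]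
  have h3 : (fun s => ∑ j, M (I s) j • (fun c => if j = (et w t c).1 then (1 : R) else 0 :
      Fin (qt w t) → R)) = (Matrix.of fun r c => if I r = (et w t c).1 then (1 : R) else 0) *
        (sm w t M).submatrix (et w t) (et w t) := by
    funext s c
    rw [Finset.sum_apply, Matrix.mul_apply]
    simp only [Pi.smul_apply, smul_eq_mul, Matrix.submatrix_apply, Matrix.of_apply, sm]
    rw [Finset.sum_eq_single (et w t c).1]
    · rw [if_pos rfl, mul_one]
      by_cases h4 : w (I s) ≤ w t
      · rw [Finset.sum_eq_single ((et w t).symm ⟨I s, h4⟩)]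
        · rw [Equiv.apply_symm_apply, if_pos rfl, one_mul]
        · intro c' _ hc'
          rw [if_neg, zero_mul]
          intro h5
          apply hc'
          apply (et w t).injective
          rw [Equiv.apply_symm_apply]
          exact Subtype.ext h5.symm
        · intro h5
          exact absurd (Finset.mem_univ _) h5
      · have h5 : M (I s) (et w t c).1 = 0 := by
          by_contra h6
          exact h4 ((hM _ _ h6).le.trans (et w t c).2)
        rw [h5]
        symm
        refine Finset.sum_eq_zero fun c' _ => ?_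
        rw [if_neg, zero_mul]
        intro h6
        exact h4 (h6 ▸ (et w t c').2)
    · intro j _ hj
      rw [if_neg hj, mul_zero]
    · intro h5
      exact absurd (Finset.mem_univ _) h5
  change Matrix.det _ = _
  rw [h3, Matrix.det_mul, Matrix.det_submatrix_equiv_self, mul_comm]
  rfl

/-- the balanced tensor -/
noncomputable def zz (w : Fin n → ℝ) (t : Fin n) (τ : (Fin m → Fin n) → R) :
    (Fin (m * qt w t) ⊕ Fin (m * qt w t) → Fin n) → R :=
  fun I => (∏ q, epst w t (fun r => I (Sum.inl (eb m (qt w t) (q, r))))) *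
    ∏ p, τ (fun s => I (Sum.inr (eb m (qt w t) (s, p))))

lemma act_zz {w : Fin n → ℝ} {k k' : Matrix (Fin n) (Fin n) R}
    (hk : ∀ i j, k i j ≠ 0 → w i = w j) (t : Fin n) (τ : (Fin m → Fin n) → R)
    (I : Fin (m * qt w t) ⊕ Fin (m * qt w t) → Fin n) :
    Pool.Agent.R908.Km.act (Pool.Agent.R908.Km.mm k k') (zz w t τ) I =
      (sm w t k).det ^ m * (∏ q, epst w t (fun r => I (Sum.inl (eb m (qt w t) (q, r))))) *
        ∏ p, cov k'.transpose τ (fun s => I (Sum.inr (eb m (qt w t) (s, p)))) := by
  have h1 := act_sep k k' (fun J : Fin (m * qt w t) → Fin n => ∏ q, (epst w t (fun r =>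
    J (eb m (qt w t) (q, r))) : R)) (fun J => ∏ p, τ (fun s => J (eb m (qt w t) (s, p)))) I
  have h2 := sum_blocks (eb m (qt w t)) k (fun _ J => (epst w t J : R)) (fun s => I (Sum.inl s))
  have h3 := sum_blocks ((Equiv.prodComm (Fin (qt w t)) (Fin m)).trans (eb m (qt w t)))
    k'.transpose (fun _ J => τ J) (fun s => I (Sum.inr s))
  have h4 : Pool.Agent.R908.Km.act (Pool.Agent.R908.Km.mm k k') (zz w t τ) I =
      Pool.Agent.R908.Km.act (Pool.Agent.R908.Km.mm k k') (fun I =>
        (fun J : Fin (m * qt w t) → Fin n => ∏ q, (epst w t (fun r =>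
          J (eb m (qt w t) (q, r))) : R)) (fun s => I (Sum.inl s)) * (fun J => ∏ p, τ (fun s =>
            J (eb m (qt w t) (s, p)))) (fun s => I (Sum.inr s))) I := rfl
  rw [h4, h1]
  congr 1
  refine h2.trans ?_
  rw [Finset.prod_congr rfl fun q _ => sum_epst hk t _, Finset.prod_mul_distrib,
    Finset.prod_const, Finset.card_univ, Fintype.card_fin]

lemma wt_blocks2 (w : Fin n → ℝ) (t : Fin n) (x : Fin n → ℝ)
    (I : Fin (m * qt w t) ⊕ Fin (m * qt w t) → Fin n) :
    Pool.Agent.R908.Km.wt x I = ∑ q, ∑ r, x (I (Sum.inl (eb m (qt w t) (q, r)))) -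
      ∑ p, ∑ s, x (I (Sum.inr (eb m (qt w t) (s, p)))) := by
  rw [Pool.Agent.R908.Km.wt, ← Equiv.sum_comp (eb m (qt w t)), Fintype.sum_prod_type,
    ← Equiv.sum_comp ((Equiv.prodComm (Fin (qt w t)) (Fin m)).trans (eb m (qt w t))),
    Fintype.sum_prod_type]
  rfl

lemma up_zz {K : Type*} [Field K] (w : Fin n → ℝ) (t : Fin n) (τ : (Fin m → Fin n) → K) :
    Pool.Agent.R908.Km.up (zz w t τ) = zz w t (upt τ) := by
  funext I
  simp only [Pool.Agent.R908.Km.up, zz, upt, map_mul, map_prod]
  congr 1
  refine Finset.prod_congr rfl fun q _ => ?_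
  rw [epst, epst, RingHom.map_det]
  congr 1
  ext i j
  rw [RingHom.mapMatrix_apply, Matrix.map_apply, Matrix.of_apply, Matrix.of_apply]
  split_ifs <;> simp

open Classical in
/-- the leading part -/
noncomputable def lead (w : Fin n → ℝ) (γ : ℝ) (τ : (Fin m → Fin n) → R) :
    (Fin m → Fin n) → R := fun J => if -∑ s, w (J s) = γ then τ J else 0

lemma lead_upt {K : Type*} [Field K] (w : Fin n → ℝ) (γ : ℝ) (τ : (Fin m → Fin n) → K) :
    upt (lead w γ τ) = lead w γ (upt τ) := by
  funext J
  simp only [upt, lead]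
  split_ifs
  · rfl
  · exact map_zero _

/-- the leading part under a matrix with diagonal blocks -/
lemma cov_lead {w : Fin n → ℝ} {M : Matrix (Fin n) (Fin n) R}
    (hM : ∀ i j, M i j ≠ 0 → w i = w j) (γ : ℝ) (τ : (Fin m → Fin n) → R) :
    cov M (lead w γ τ) = lead w γ (cov M τ) := by
  funext J
  rw [cov_apply]
  simp only [lead]
  by_cases h : -∑ s, w (J s) = γ
  · rw [if_pos h, cov_apply]
    refine Finset.sum_congr rfl fun J' _ => ?_
    by_cases h1 : ∏ s, M (J s) (J' s) = 0
    · rw [h1, zero_mul, zero_mul]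
    · rw [← ne_eq, Finset.prod_ne_zero_iff] at h1
      have h2 : ∑ s, w (J' s) = ∑ s, w (J s) :=
        Finset.sum_congr rfl fun s hs => (hM _ _ (h1 s hs)).symm
      rw [if_pos (by rw [h2]; exact h)]
  · rw [if_neg h]
    refine Finset.sum_eq_zero fun J' _ => ?_
    by_cases h1 : ∏ s, M (J s) (J' s) = 0
    · rw [h1, zero_mul]
    · rw [← ne_eq, Finset.prod_ne_zero_iff] at h1
      have h2 : ∑ s, w (J' s) = ∑ s, w (J s) :=
        Finset.sum_congr rfl fun s hs => (hM _ _ (h1 s hs)).symm
      rw [if_neg (by rw [h2]; exact h), mul_zero]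

/-- the leading part under a triangular matrix -/
lemma lead_tri {w : Fin n → ℝ} {G : Matrix (Fin n) (Fin n) R} (hG : Tri w G) {γ : ℝ}
    {τ : (Fin m → Fin n) → R} (hτ : ∀ J, τ J ≠ 0 → γ ≤ -∑ s, w (J s)) :
    lead w γ (cov G τ) = lead w γ (cov (bd w G) τ) := by
  funext J
  simp only [lead]
  by_cases h : -∑ s, w (J s) = γ
  · rw [if_pos h, if_pos h, cov_apply, cov_apply]
    refine Finset.sum_congr rfl fun J' _ => ?_
    by_cases h1 : ∀ s, w (J s) = w (J' s)
    · rw [Finset.prod_congr rfl fun s _ => (bd_apply w G _ _ (h1 s)).symm]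
    · have h2 : ∏ s, bd w G (J s) (J' s) = 0 := by
        rw [not_forall] at h1
        obtain ⟨s, hs⟩ := h1
        exact Finset.prod_eq_zero (Finset.mem_univ s) (bd_apply_ne _ _ _ _ hs)
      rw [h2, zero_mul]
      by_contra h3
      have h4 := left_ne_zero_of_mul h3
      have h5 := hτ J' (right_ne_zero_of_mul h3)
      rw [Finset.prod_ne_zero_iff] at h4
      apply h1
      have h6 : ∀ s, w (J s) ≤ w (J' s) := fun s => hG _ _ (h4 s (Finset.mem_univ _))
      have h7 : ∑ s, w (J s) = ∑ s, w (J' s) := by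
        refine le_antisymm (Finset.sum_le_sum fun s _ => h6 s) ?_
        linarith
      have h8 := (Finset.sum_eq_sum_iff_of_le fun s _ => h6 s).1 h7
      exact fun s => h8 s (Finset.mem_univ _)
  · rw [if_neg h, if_neg h]

lemma sm_mul {w : Fin n → ℝ} {G H : Matrix (Fin n) (Fin n) R}
    (hG : ∀ i j, G i j ≠ 0 → w i = w j) (t : Fin n) :
    sm w t (G * H) = sm w t G * sm w t H := by
  classical
  ext i j
  rw [Matrix.mul_apply]
  simp only [sm, Matrix.submatrix_apply, Matrix.mul_apply]
  rw [← Finset.sum_subset (Finset.subset_univ (Finset.univ.filter (fun b => w b ≤ w t)))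
    (fun b _ hb => by
      by_contra h1
      apply hb
      rw [Finset.mem_filter]
      exact ⟨Finset.mem_univ _, (hG _ _ (left_ne_zero_of_mul h1)).ge.trans i.2⟩)]
  exact Finset.sum_subtype (Finset.univ.filter (fun b => w b ≤ w t)) (fun b => by
      rw [Finset.mem_filter]
      exact and_iff_right (Finset.mem_univ _)) fun b => G i b * H b j

lemma sm_one (w : Fin n → ℝ) (t : Fin n) : sm w t (1 : Matrix (Fin n) (Fin n) R) = 1 := by
  ext i j
  simp only [sm, Matrix.submatrix_apply, Matrix.one_apply, Subtype.ext_iff]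

lemma det_sm_bd {w : Fin n → ℝ} {G : Matrix (Fin n) (Fin n) R} (hG : Tri w G) (t : Fin n) :
    (sm w t (bd w G)).det = (sm w t G).det := by
  classical
  have h1 : sm w t (bd w G) = bd (fun i : {i : Fin n // w i ≤ w t} => w i.1) (sm w t G) := by
    ext i j
    by_cases h : w i.1 = w j.1
    · exact (bd_apply w G i.1 j.1 h).trans (bd_apply (fun i : {i : Fin n // w i ≤ w t} => w i.1)
        (sm w t G) i j h).symm
    · exact (bd_apply_ne w G i.1 j.1 h).trans (bd_apply_ne
        (fun i : {i : Fin n // w i ≤ w t} => w i.1) (sm w t G) i j h).symm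
  rw [h1]
  exact det_bd fun i j hij => hG _ _ hij

end Eps

section

variable {k K : Type} [Field k] [CharZero k] [Field K] [Algebra k K] {n m : ℕ}
  {δ : Place k K → ℝ} {α : Fin n → (Derivation k K K →ₗ[K] K)} {w : Fin n → ℝ}

/-- the balanced leading tensors are in the graded family -/
lemma zz_mem {f : Fin n → Derivation k K K} (hexp : ∀ D, D = ∑ i, α i D • f i) {γ : ℝ}
    (hg : ∀ t ∈ OT n δ m f, ∀ J, t J ≠ 0 → γ ≤ -∑ s, w (J s)) {τ : (Fin m → Fin n) → K}
    (hτ : τ ∈ OT n δ m f) (t : Fin n) :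
    zz w t (lead w γ τ) ∈ S2 δ α w (Pi.single t m) (m * qt w t) := by
  classical
  intro v hv i0 D h ht I
  have hbh : ∀ i j, (bd w h).transpose i j ≠ 0 → w i = w j := fun i j hij => (bd_ne hij).symm
  rw [act_zz hbh, Matrix.transpose_transpose]
  have h1 : dc w (Pi.single t m) (am α D) = (sm w t (am α D)).det ^ m := by
    unfold dc
    rw [Finset.prod_eq_single t]
    · rw [Pi.single_eq_same]
    · intro t' _ ht'
      rw [Pi.single_eq_of_ne ht', pow_zero]
    · intro h0
      exact absurd (Finset.mem_univ _) h0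
  have h2 : cb w (Pi.single t m) i0 = if w i0 ≤ w t then (m : ℝ) else 0 := by
    unfold cb
    rw [Finset.sum_eq_single t]
    · rw [Pi.single_eq_same]
    · intro t' _ ht'
      rw [Pi.single_eq_of_ne ht', Nat.cast_zero, ite_self]
    · intro h0
      exact absurd (Finset.mem_univ _) h0
  have h3 : (sm w t (am α D)).det ^ m * (sm w t (bd w h).transpose).det ^ m = 1 := by
    have h4 : sm w t (bd w h).transpose = (sm w t (bd w h)).transpose := rfl
    rw [← mul_pow, h4, Matrix.det_transpose, ← det_sm_bd ht.tri, ← Matrix.det_mul,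
      ← sm_mul (fun i j hij => bd_ne hij), ht.bd_inv, sm_one, Matrix.det_one, one_pow]
  rw [h1, h2]
  have h5 : (sm w t (am α D)).det ^ m * ((sm w t (bd w h).transpose).det ^ m *
      (∏ q, (epst w t (fun r => I (Sum.inl (eb m (qt w t) (q, r)))) : K)) *
        ∏ p, cov (bd w (am α D)) (lead w γ τ) (fun s => I (Sum.inr (eb m (qt w t) (s, p))))) =
      (∏ q, (epst w t (fun r => I (Sum.inl (eb m (qt w t) (q, r)))) : K)) *
        ∏ p, cov (bd w (am α D)) (lead w γ τ) (fun s => I (Sum.inr (eb m (qt w t) (s, p)))) := by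
    calc _ = ((sm w t (am α D)).det ^ m * (sm w t (bd w h).transpose).det ^ m) *
        ((∏ q, (epst w t (fun r => I (Sum.inl (eb m (qt w t) (q, r)))) : K)) *
        ∏ p, cov (bd w (am α D)) (lead w γ τ)
          (fun s => I (Sum.inr (eb m (qt w t) (s, p))))) := by ring
      _ = _ := by rw [h3, one_mul]
  rw [h5]
  by_cases h0 : (∏ q, (epst w t (fun r => I (Sum.inl (eb m (qt w t) (q, r)))) : K)) = 0
  · rw [h0, zero_mul]
    exact Or.inl rfl
  rw [← ne_eq, Finset.prod_ne_zero_iff] at h0
  have h6 : GeR v 0 (∏ q, (epst w t (fun r => I (Sum.inl (eb m (qt w t) (q, r)))) : K)) := by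
    have h7 := GeR.prod (w := v) Finset.univ 0
      (fun q => (epst w t (fun r => I (Sum.inl (eb m (qt w t) (q, r)))) : K)) (fun q _ => by
        have h8 : Ge v 0 (epst w t (fun r => I (Sum.inl (eb m (qt w t) (q, r)))) : K) := by
          refine ge_det v _ fun i j => ?_
          rw [Matrix.of_apply]
          split_ifs
          · exact Ge.one
          · exact Or.inl rfl
        have h9 := Ge.toR h8
        rwa [Int.cast_zero] at h9)
    rwa [mul_zero] at h7
  obtain ⟨T, hT, rfl⟩ := hτ
  have hcovT : ∀ J : Fin m → Fin n, cov (am α D) (fun J => T fun s => f (J s)) J =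
      T fun s => D (J s) := by
    intro J
    rw [cov_ml]
    change (T fun s => ∑ j, am α D (J s) j • f j) = _
    congr 1
    funext s
    exact (hexp (D (J s))).symm
  have h7 : ∀ J : Fin m → Fin n, GeR v (-∑ s, (Pi.single i0 (δ v) : Fin n → ℝ) (J s))
      (cov (bd w (am α D)) (lead w γ fun J => T fun s => f (J s)) J) := by
    intro J
    rw [cov_lead (fun i j hij => bd_ne hij), ← lead_tri ht.tri (hg _ ⟨T, hT, rfl⟩)]
    simp only [lead]
    split_ifs
    · rw [hcovT]
      have h8 := hT v hv (Finset.univ.filter fun s => J s = i0)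
        (fun s => D (J s)) (fun j _ => ht.afr.1 _) (fun j hj => ht.afr.2 _ (by
          intro h7
          exact hj (Finset.mem_filter.2 ⟨Finset.mem_univ _, h7⟩)))
      refine GeR.mono (c := -((Finset.univ.filter fun s => J s = i0).card * δ v)) h8
        (le_of_eq ?_)
      congr 1
      rw [Finset.card_filter]
      push_cast
      rw [Finset.sum_mul]
      refine Finset.sum_congr rfl fun s _ => ?_
      rw [Pi.single_apply]
      split_ifs <;> simp
    · exact Or.inl rfl
  have h8 := geR_prod Finset.univ _ _ (fun p (_ : p ∈ Finset.univ) =>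
    h7 (fun s => I (Sum.inr (eb m (qt w t) (s, p)))))
  refine (h6.mul h8).mono (le_of_eq ?_)
  rw [wt_blocks2 w t]
  have h9 : ∀ q : Fin m, ∑ r, (Pi.single i0 (δ v) : Fin n → ℝ)
      (I (Sum.inl (eb m (qt w t) (q, r)))) = if w i0 ≤ w t then δ v else 0 := by
    intro q
    rw [epst_ne (h0 q (Finset.mem_univ _)), Finset.sum_filter]
    rw [Finset.sum_eq_single i0]
    · rw [Pi.single_eq_same]
    · intro i _ hi
      rw [Pi.single_eq_of_ne hi, ite_self]
    · intro h0
      exact absurd (Finset.mem_univ _) h0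
  rw [Finset.sum_congr rfl fun q _ => h9 q]
  simp only [Finset.sum_const, Finset.card_univ, Fintype.card_fin, nsmul_eq_mul,
    Finset.sum_neg_distrib]
  split_ifs <;> ring

open Classical in
/-- the projections of the grading -/
noncomputable def prj {R : Type*} [Field R] (w : Fin n → ℝ) (s : ℝ) :
    (Fin 1 ⊕ Fin 1 → Fin n) → R :=
  fun I => if I (Sum.inl 0) = I (Sum.inr 0) ∧ w (I (Sum.inl 0)) = s then 1 else 0

lemma act_prj {R : Type*} [Field R] (s : ℝ) (k k' : Matrix (Fin n) (Fin n) R)
    (I : Fin 1 ⊕ Fin 1 → Fin n) :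
    Pool.Agent.R908.Km.act (Pool.Agent.R908.Km.mm k k') (prj w s) I =
      ∑ j with w j = s, k (I (Sum.inl 0)) j * k' j (I (Sum.inr 0)) := by
  classical
  rw [Pool.Agent.R908.Km.act]
  have h1 : ∑ J : Fin 1 ⊕ Fin 1 → Fin n, (∏ x, Pool.Agent.R908.Km.mm k k' x (I x) (J x)) *
      (prj w s J : R) = ∑ p : Fin n × Fin n, (k (I (Sum.inl 0)) p.1 * k' p.2 (I (Sum.inr 0))) *
        (if p.1 = p.2 ∧ w p.1 = s then 1 else 0) := by
    refine Fintype.sum_equiv (show (Fin 1 ⊕ Fin 1 → Fin n) ≃ Fin n × Fin n from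
      { toFun := fun J => (J (Sum.inl 0), J (Sum.inr 0))
        invFun := fun p => Sum.elim (fun _ => p.1) (fun _ => p.2)
        left_inv := fun J => by
          funext x
          rcases x with x | x
          · rw [Subsingleton.elim x (0 : Fin 1)]
            rfl
          · rw [Subsingleton.elim x (0 : Fin 1)]
            rfl
        right_inv := fun p => rfl }) _ _ fun J => ?_
    rw [Fintype.prod_sum_type]
    simp only [Finset.univ_unique, Fin.default_eq_zero, Finset.prod_singleton,
      Pool.Agent.R908.Km.mm, Sum.elim_inl, Sum.elim_inr, Matrix.transpose_apply, prj]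
    rfl
  rw [h1, Fintype.sum_prod_type, Finset.sum_filter]
  refine Finset.sum_congr rfl fun i _ => ?_
  rw [Finset.sum_eq_single i]
  · by_cases h2 : w i = s
    · rw [if_pos ⟨rfl, h2⟩, if_pos h2, mul_one]
    · rw [if_neg (fun h3 => h2 h3.2), if_neg h2, mul_zero]
  · intro j _ hj
    rw [if_neg (fun h3 => hj h3.1.symm), mul_zero]
  · intro h0
    exact absurd (Finset.mem_univ _) h0

lemma prj_mem (s : ℝ) : (prj w s : (Fin 1 ⊕ Fin 1 → Fin n) → K) ∈ S2 δ α w 0 1 := by
  classical
  intro v hv i0 D h ht I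
  have h1 : dc w 0 (am α D) = 1 := by
    unfold dc
    exact Finset.prod_eq_one fun t _ => by rw [Pi.zero_apply, pow_zero]
  have h2 : cb w 0 i0 = 0 := by
    unfold cb
    exact Finset.sum_eq_zero fun t _ => by rw [Pi.zero_apply, Nat.cast_zero, ite_self]
  rw [h1, h2, one_mul, act_prj]
  have h3 : ∑ j with w j = s, (bd w h).transpose (I (Sum.inl 0)) j *
      (bd w (am α D)).transpose j (I (Sum.inr 0)) =
      if I (Sum.inl 0) = I (Sum.inr 0) ∧ w (I (Sum.inl 0)) = s then 1 else 0 := by
    by_cases h4 : w (I (Sum.inl 0)) = s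
    · have h5 : ∑ j with w j = s, (bd w h).transpose (I (Sum.inl 0)) j *
          (bd w (am α D)).transpose j (I (Sum.inr 0)) =
          ∑ j, bd w (am α D) (I (Sum.inr 0)) j * bd w h j (I (Sum.inl 0)) := by
        rw [Finset.sum_filter]
        refine Finset.sum_congr rfl fun j _ => ?_
        rw [Matrix.transpose_apply, Matrix.transpose_apply]
        by_cases h6 : w j = s
        · rw [if_pos h6, mul_comm]
        · rw [if_neg h6, bd_apply_ne w h j _ (fun h7 => h6 (h7.trans h4)), mul_zero]
      rw [h5, ← Matrix.mul_apply, ht.bd_inv, Matrix.one_apply]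
      by_cases h7 : I (Sum.inl 0) = I (Sum.inr 0)
      · rw [if_pos h7.symm, if_pos ⟨h7, h4⟩]
      · rw [if_neg (Ne.symm h7), if_neg (fun h8 => h7 h8.1)]
    · rw [if_neg (fun h5 => h4 h5.2)]
      refine Finset.sum_eq_zero fun j hj => ?_
      rw [Matrix.transpose_apply, bd_apply_ne w h j _ (fun h5 => h4 ?_), zero_mul]
      rw [← h5]
      exact (Finset.mem_filter.1 hj).2
  rw [h3]
  by_cases h4 : I (Sum.inl 0) = I (Sum.inr 0) ∧ w (I (Sum.inl 0)) = s
  · rw [if_pos h4]
    right
    rw [v.ord_one]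
    simp [Pool.Agent.R908.Km.wt, h4.1]
  · rw [if_neg h4]
    exact Or.inl rfl

end

end Pool.Agent.Run7.h573.GIT
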